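import Pool.Agent.OR1.Scale

/-!
# The base group `⟨a, t | t⁻¹ a t = a ^ b⟩`

PROOF.  Let `Aff` be the group of the pairs `(r, m)`, `r` rational, `m` an integer, with
`(r, m) (r', m') = (r + r' b ^ (-m), m + m')` (here: `bsE r m`, the pair of the map
`x ↦ r + b ^ (-m) x` and of `m`), `a ↦ (1, 0)`, `t ↦ (0, 1)`.  This respects the relator.  Every
element of `G1 b` is `t ^ i a ^ k t ^ (-j)` with `i, j : ℕ`, `k : ℤ` (closed under multiplication
on the right by `a^±1`, `t^±1`: `t^-j a = a^(b^j) t^-j` for `j ≥ 0`; `a^k t = t a^(b k)`); its image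
is `(k b^-i, i - j)`; so the map to `Aff` is injective.  `lev1`: `a ^ z ↦ (z, 0)`,
`t ^ z ↦ (0, z)`. `mem1_spec`: along `beval` (induction on the word, from the left: `bstep` on the
state `(T, r, m)` with value `(mv r, iv m)` in `Aff`, using `scale_ext`), the image of the word in
`Aff` is `(mv r, iv m)`; then use injectivity: `w ∈ ⟨a⟩` iff `m = 0` and `r ∈ ℤ`; `w ∈ ⟨t⟩` iff
`r = 0`.
-/

namespace Pool.Agent.OR1

open Pool.Agent.Lib.PT

/-- the relator `t⁻¹ a t a ^ (-b)` -/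
def relBS {α : Type*} (a t : α) (b : ℤ) : FreeGroup α :=
  (FreeGroup.of t)⁻¹ * FreeGroup.of a * FreeGroup.of t * (FreeGroup.of a ^ b)⁻¹

/-- `⟨x_0, x_1 | x_1⁻¹ x_0 x_1 = x_0 ^ b⟩` -/
abbrev G1 (b : ℤ) : Type := PresentedGroup ({relBS 0 1 b} : Set (FreeGroup (Fin 2)))

/-- its letters -/
def x1 (b : ℤ) (i : ℕ) : G1 b := PresentedGroup.of (if i = 0 then 0 else 1)

/-! ### The affine group -/

/-- the group in which the affine group is contained -/
abbrev BsK : Type := Equiv.Perm ℚ × Multiplicative ℤ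

/-- the pair `(r, m)` -/
def bsE {b : ℤ} (hb : b ≠ 0) (r : ℚ) (m : ℤ) : BsK :=
  (⟨fun x => r + (b : ℚ) ^ (-m) * x, fun x => (b : ℚ) ^ m * (x - r),
    fun x => by
      have hq : (b : ℚ) ≠ 0 := by exact_mod_cast hb
      have : (b : ℚ) ^ m * (b : ℚ) ^ (-m) = 1 := by
        rw [← zpow_add₀ hq, add_neg_cancel, zpow_zero]
      beta_reduce
      rw [add_sub_cancel_left, ← mul_assoc, this, one_mul],
    fun x => by
      have hq : (b : ℚ) ≠ 0 := by exact_mod_cast hb
      have : (b : ℚ) ^ (-m) * (b : ℚ) ^ m = 1 := by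
        rw [← zpow_add₀ hq, neg_add_cancel, zpow_zero]
      beta_reduce
      rw [← mul_assoc, this, one_mul, add_sub_cancel]⟩, Multiplicative.ofAdd m)

theorem bsE_mul {b : ℤ} (hb : b ≠ 0) (r r' : ℚ) (m m' : ℤ) :
    bsE hb r m * bsE hb r' m' = bsE hb (r + r' * (b : ℚ) ^ (-m)) (m + m') := by
  have hq : (b : ℚ) ≠ 0 := by exact_mod_cast hb
  refine Prod.ext (Equiv.ext fun x => ?_) ?_
  · change r + (b : ℚ) ^ (-m) * (r' + (b : ℚ) ^ (-m') * x) =
      r + r' * (b : ℚ) ^ (-m) + (b : ℚ) ^ (-(m + m')) * x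
    rw [neg_add, zpow_add₀ hq]
    ring
  · exact (ofAdd_add m m').symm

theorem bsE_one {b : ℤ} (hb : b ≠ 0) : bsE hb 0 0 = 1 := by
  refine Prod.ext (Equiv.ext fun x => ?_) ?_
  · change (0 : ℚ) + (b : ℚ) ^ (-(0 : ℤ)) * x = x
    simp
  · rfl

theorem bsE_inj {b : ℤ} (hb : b ≠ 0) {r r' : ℚ} {m m' : ℤ} (h : bsE hb r m = bsE hb r' m') :
    r = r' ∧ m = m' := by
  constructor
  · have h1 := congrArg (fun g : BsK => g.1 0) h
    change r + (b : ℚ) ^ (-m) * 0 = r' + (b : ℚ) ^ (-m') * 0 at h1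
    simpa using h1
  · exact congrArg (fun g : BsK => Multiplicative.toAdd g.2) h

/-- powers of `a` -/
theorem bsE_a {b : ℤ} (hb : b ≠ 0) (z : ℤ) : bsE hb 1 0 ^ z = bsE hb z 0 := by
  let f : Multiplicative ℤ →* BsK :=
    { toFun := fun z => bsE hb ((Multiplicative.toAdd z : ℤ) : ℚ) 0
      map_one' := by
        rw [toAdd_one, Int.cast_zero, bsE_one]
      map_mul' := fun u v => by
        rw [bsE_mul, toAdd_mul]
        simp }
  have h1 : f (Multiplicative.ofAdd 1) = bsE hb 1 0 := by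
    change bsE hb ((Multiplicative.toAdd (Multiplicative.ofAdd (1 : ℤ)) : ℤ) : ℚ) 0 = _
    rw [toAdd_ofAdd, Int.cast_one]
  rw [← h1, ← map_zpow, ← ofAdd_zsmul, smul_eq_mul, mul_one]
  rfl

/-- powers of `t` -/
theorem bsE_t {b : ℤ} (hb : b ≠ 0) (z : ℤ) : bsE hb 0 1 ^ z = bsE hb 0 z := by
  let f : Multiplicative ℤ →* BsK :=
    { toFun := fun z => bsE hb 0 (Multiplicative.toAdd z)
      map_one' := by
        rw [toAdd_one, bsE_one]
      map_mul' := fun u v => by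
        rw [bsE_mul, toAdd_mul]
        simp }
  have h1 : f (Multiplicative.ofAdd 1) = bsE hb 0 1 := rfl
  rw [← h1, ← map_zpow, ← ofAdd_zsmul, smul_eq_mul, mul_one]
  rfl

/-- the map to the affine group -/
noncomputable def bsF {b : ℤ} (hb : b ≠ 0) : G1 b →* BsK :=
  PresentedGroup.toGroup (f := fun i : Fin 2 => if i = 0 then bsE hb 1 0 else bsE hb 0 1) (by
    intro r hr
    rw [Set.mem_singleton_iff] at hr
    subst hr
    have hq : (b : ℚ) ≠ 0 := by exact_mod_cast hb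
    have h1 : (bsE hb 0 1)⁻¹ = bsE hb 0 (-1) := by
      rw [← zpow_neg_one, bsE_t]
    rw [relBS, map_mul, map_mul, map_mul, map_inv, map_inv, map_zpow, FreeGroup.lift_apply_of,
      FreeGroup.lift_apply_of, if_pos rfl, if_neg (by decide), bsE_a, h1, bsE_mul, bsE_mul,
      mul_inv_eq_one]
    simp)

theorem bsF_x {b : ℤ} (hb : b ≠ 0) (i : ℕ) :
    bsF hb (x1 b i) = if i = 0 then bsE hb 1 0 else bsE hb 0 1 := by
  unfold bsF x1
  rw [PresentedGroup.toGroup.of]
  by_cases h : i = 0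
  · rw [if_pos h, if_pos rfl, if_pos h]
  · rw [if_neg h, if_neg (by decide), if_neg h]

/-- the defining relation -/
theorem bs_rel (b : ℤ) : (x1 b 1)⁻¹ * x1 b 0 * x1 b 1 = x1 b 0 ^ b := by
  have h : (PresentedGroup.mk ({relBS 0 1 b} : Set (FreeGroup (Fin 2))) (relBS 0 1 b)) = 1 :=
    PresentedGroup.one_of_mem (Set.mem_singleton _)
  rw [relBS, map_mul, map_mul, map_mul, map_inv, map_inv, map_zpow, mul_inv_eq_one] at h
  exact h

theorem bs_rel_zpow (b k : ℤ) : x1 b 0 ^ k * x1 b 1 = x1 b 1 * x1 b 0 ^ (b * k) := by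
  have h := bs_rel b
  have h1 : (x1 b 1)⁻¹ * x1 b 0 ^ k * x1 b 1 = x1 b 0 ^ (b * k) := by
    rw [zpow_mul, ← h]
    have := (conj_zpow (i := k) (a := (x1 b 1)⁻¹) (b := x1 b 0)).symm
    rw [inv_inv] at this
    exact this
  rw [← h1]
  group

theorem bs_rel_pow (b s : ℤ) (j : ℕ) :
    (x1 b 1 ^ j)⁻¹ * x1 b 0 ^ s = x1 b 0 ^ (s * b ^ j) * (x1 b 1 ^ j)⁻¹ := by
  rw [inv_mul_eq_iff_eq_mul, ← mul_assoc, eq_mul_inv_iff_mul_eq]
  induction j generalizing s with
  | zero => simp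
  | succ j ih =>
    have hx : b * s * b ^ j = s * b ^ (j + 1) := by ring
    calc x1 b 0 ^ s * x1 b 1 ^ (j + 1) = (x1 b 0 ^ s * x1 b 1) * x1 b 1 ^ j := by
          rw [pow_succ', mul_assoc]
      _ = x1 b 1 * (x1 b 0 ^ (b * s) * x1 b 1 ^ j) := by rw [bs_rel_zpow, mul_assoc]
      _ = x1 b 1 * (x1 b 1 ^ j * x1 b 0 ^ (b * s * b ^ j)) := by rw [ih]
      _ = x1 b 1 ^ (j + 1) * x1 b 0 ^ (s * b ^ (j + 1)) := by
          rw [hx, ← mul_assoc, ← pow_succ']

theorem bs_form (b : ℤ) (g : G1 b) : ∃ (i j : ℕ) (k : ℤ),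
    g = x1 b 1 ^ i * x1 b 0 ^ k * (x1 b 1 ^ j)⁻¹ := by
  have hcl : g ∈ Subgroup.closure (Set.range (PresentedGroup.of
      (rels := ({relBS 0 1 b} : Set (FreeGroup (Fin 2)))))) := by
    rw [PresentedGroup.closure_range_of]
    trivial
  have hgen : ∀ c : Fin 2, (PresentedGroup.of
      (rels := ({relBS 0 1 b} : Set (FreeGroup (Fin 2)))) c) = x1 b 0 ∨
      (PresentedGroup.of (rels := ({relBS 0 1 b} : Set (FreeGroup (Fin 2)))) c) = x1 b 1 := by
    intro c
    fin_cases c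
    · exact Or.inl rfl
    · exact Or.inr rfl
  have hA : ∀ (s : ℤ) (g : G1 b), (∃ (i j : ℕ) (k : ℤ),
      g = x1 b 1 ^ i * x1 b 0 ^ k * (x1 b 1 ^ j)⁻¹) → ∃ (i j : ℕ) (k : ℤ),
      g * x1 b 0 ^ s = x1 b 1 ^ i * x1 b 0 ^ k * (x1 b 1 ^ j)⁻¹ := by
    rintro s g ⟨i, j, k, rfl⟩
    refine ⟨i, j, k + s * b ^ j, ?_⟩
    rw [mul_assoc, bs_rel_pow, zpow_add]
    group
  refine Subgroup.closure_induction_right (p := fun g _ => ∃ (i j : ℕ) (k : ℤ),
    g = x1 b 1 ^ i * x1 b 0 ^ k * (x1 b 1 ^ j)⁻¹) ?_ ?_ ?_ hcl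
  · exact ⟨0, 0, 0, by simp⟩
  · rintro g _ _ ⟨c, rfl⟩ hg
    rcases hgen c with h | h
    · rw [h, ← zpow_one (x1 b 0)]
      have := hA 1 g hg
      exact this
    · rw [h]
      obtain ⟨i, j, k, rfl⟩ := hg
      rcases j with _ | j
      · refine ⟨i + 1, 0, b * k, ?_⟩
        rw [pow_zero, inv_one, mul_one, mul_one, mul_assoc, bs_rel_zpow, pow_succ, mul_assoc]
      · refine ⟨i, j, k, ?_⟩
        rw [pow_succ', mul_inv_rev]
        group
  · rintro g _ _ ⟨c, rfl⟩ hg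
    rcases hgen c with h | h
    · rw [h, ← zpow_neg_one]
      exact hA (-1) g hg
    · rw [h]
      obtain ⟨i, j, k, rfl⟩ := hg
      refine ⟨i, j + 1, k, ?_⟩
      rw [pow_succ', mul_inv_rev]
      group

theorem bsF_inj {b : ℤ} (hb : b ≠ 0) : Function.Injective (bsF hb) := by
  rw [injective_iff_map_eq_one]
  intro g hg
  obtain ⟨i, j, k, rfl⟩ := bs_form b g
  have hq : (b : ℚ) ≠ 0 := by exact_mod_cast hb
  rw [map_mul, map_mul, map_inv, map_pow, map_pow, map_zpow, bsF_x, bsF_x, if_pos rfl,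
    if_neg one_ne_zero, bsE_a, ← zpow_natCast, ← zpow_natCast, bsE_t, bsE_t, ← bsE_t hb (j : ℤ),
    ← zpow_neg, bsE_t, bsE_mul, bsE_mul, ← bsE_one hb] at hg
  obtain ⟨h1, h2⟩ := bsE_inj hb hg
  have hk : k = 0 := by
    have h3 : (k : ℚ) * (b : ℚ) ^ (-(i : ℤ)) = 0 := by simpa using h1
    rcases mul_eq_zero.1 h3 with h | h
    · exact_mod_cast h
    · exact absurd h (zpow_ne_zero _ hq)
  have hij : i = j := by omega
  rw [hk, hij, zpow_zero, mul_one, mul_inv_cancel]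

theorem bsF_a {b : ℤ} (hb : b ≠ 0) (z : ℤ) : bsF hb (x1 b 0 ^ z) = bsE hb z 0 := by
  rw [map_zpow, bsF_x, if_pos rfl, bsE_a]

theorem bsF_t {b : ℤ} (hb : b ≠ 0) (z : ℤ) : bsF hb (x1 b 1 ^ z) = bsE hb 0 z := by
  rw [map_zpow, bsF_x, if_neg one_ne_zero, bsE_t]

theorem lev1 {b : ℤ} (hb : b ≠ 0) : Lev 2 (x1 b) := by
  have h0 : ∀ z : ℤ, x1 b 0 ^ z = 1 → z = 0 := by
    intro z hz
    have h := bsF_a hb z
    rw [hz, map_one, ← bsE_one hb] at h
    exact_mod_cast (bsE_inj hb h).1.symm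
  have h1 : ∀ z : ℤ, x1 b 1 ^ z = 1 → z = 0 := by
    intro z hz
    have h := bsF_t hb z
    rw [hz, map_one, ← bsE_one hb] at h
    exact (bsE_inj hb h).2.symm
  have h2 : ∀ u v : ℤ, x1 b 0 ^ u = x1 b 1 ^ v → u = 0 ∧ v = 0 := by
    intro u v h
    have h3 := congrArg (bsF hb) h
    rw [bsF_a, bsF_t] at h3
    obtain ⟨h4, h5⟩ := bsE_inj hb h3
    exact ⟨by exact_mod_cast h4, h5.symm⟩
  refine ⟨fun i hi z hz => ?_, fun i hi j hj hij u v h => ?_⟩
  · interval_cases i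
    · exact h0 z hz
    · exact h1 z hz
  · interval_cases i <;> interval_cases j
    · exact absurd rfl hij
    · exact (h2 u v h).1
    · exact (h2 v u h.symm).2
    · exact absurd rfl hij

/-- invariant of the evaluation -/
theorem bs_eval {b : ℤ} (hb : b ≠ 0) (w : Word) : ∀ (st : Tab × Mark × Mark) (e : ℕ → ℤ),
    Model b st.1 e → Below st.1.length st.2.1 → Below st.1.length st.2.2 → IsZ b e st.2.2 →
    WOk b st.1 e 1 w → ∃ e', Ext b st.1 e (w.foldl bstep st).1 e' ∧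
      Below (w.foldl bstep st).1.length (w.foldl bstep st).2.1 ∧
      Below (w.foldl bstep st).1.length (w.foldl bstep st).2.2 ∧
      IsZ b e' (w.foldl bstep st).2.2 ∧
      bsE hb (mv b e' (w.foldl bstep st).2.1) (iv b e' (w.foldl bstep st).2.2) =
        bsE hb (mv b e st.2.1) (iv b e st.2.2) * bsF hb (wv b e (x1 b) w) := by
  induction w with
  | nil =>
    intro st e hM h1 h2 h3 _
    refine ⟨e, Ext.refl hM, h1, h2, h3, ?_⟩
    rw [wv_nil, map_one, mul_one]
    rfl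
  | cons s w ih =>
    intro st e hM h1 h2 h3 hw
    obtain ⟨hs1, hs2, hs3⟩ := hw.head
    rw [List.foldl_cons]
    rcases Nat.eq_zero_or_pos s.1 with h0 | h0
    · -- the letter `a`
      have hst : bstep st s = (scaleTab st.1 s.2 st.2.2, st.2.1 ++ scaleMark st.1 s.2, st.2.2) := by
        unfold bstep
        rw [h0]
        rfl
      obtain ⟨e1, hE, hB, hv⟩ := scale_ext hb hM hs2 h2 h3
      rw [hst]
      obtain ⟨e', k1, k2, k3, k4, k5⟩ := ih
        (scaleTab st.1 s.2 st.2.2, st.2.1 ++ scaleMark st.1 s.2, st.2.2) e1 hE.model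
        ((hE.below h1).append hB) (hE.below h2) (hE.isZ h2 h3) (hw.tail.ext hE)
      refine ⟨e', hE.trans k1, k2, k3, k4, ?_⟩
      rw [k5, wv_cons, map_mul, h0, bsF_a, ← mul_assoc, bsE_mul, hw.tail.wv_ext hE, mv_append, hv,
        hE.mv h1, hE.iv h2, hs3.eq, add_zero]
    · -- the letter `t`
      have h11 : s.1 = 1 := by omega
      have hst : bstep st s = (st.1, st.2.1, st.2.2 ++ s.2) := by
        unfold bstep
        rw [h11]
        rfl
      rw [hst]
      obtain ⟨e', k1, k2, k3, k4, k5⟩ := ih (st.1, st.2.1, st.2.2 ++ s.2) e hM h1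
        (h2.append hs2) (h3.append hs3) hw.tail
      refine ⟨e', k1, k2, k3, k4, ?_⟩
      rw [k5, wv_cons, map_mul, h11, bsF_t, ← mul_assoc, bsE_mul, zero_mul, add_zero,
        iv_append h3 hs3]

theorem mem1_spec (S : NumSys) : MemSpec S.b 2 (x1 S.b) (mem1 S) := by
  intro T e w c hT hw hc
  obtain ⟨e', h1, h2, h3, h4, h5⟩ := bs_eval S.hb w (T, [], []) e hT Below.nil Below.nil IsZ.nil hw
  change Ext S.b T e (beval T w).1 e' at h1
  change Below (beval T w).1.length (beval T w).2.1 at h2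
  change Below (beval T w).1.length (beval T w).2.2 at h3
  change IsZ S.b e' (beval T w).2.2 at h4
  change bsE S.hb (mv S.b e' (beval T w).2.1) (iv S.b e' (beval T w).2.2) =
    bsE S.hb (mv S.b e []) (iv S.b e []) * bsF S.hb (wv S.b e (x1 S.b) w) at h5
  rw [mv_nil, iv_nil, bsE_one, one_mul] at h5
  refine ⟨e', h1, ?_⟩
  have hzM := NumSys.isZ_iff' S h1.model h3 h4
  have hzR := NumSys.isZ_iff S h1.model h2
  have hI := S.isInt_spec _ _ _ h1.model h2
  interval_cases c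
  · -- the letter `a`
    by_cases hcond : (S.isZ (beval T w).1 (beval T w).2.2 &&
        S.isInt (beval T w).1 (beval T w).2.1) = true
    · right
      have hval : (mem1 S T w 0).2 = [(beval T w).2.1] := by
        change (bif (S.isZ (beval T w).1 (beval T w).2.2 &&
          S.isInt (beval T w).1 (beval T w).2.1) then [(beval T w).2.1] else []) = _
        rw [hcond]
        rfl
      rw [Bool.and_eq_true] at hcond
      have hz := hzM.1 hcond.1
      have hi := hI.1 hcond.2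
      refine ⟨_, hval, h2, hi, ?_⟩
      apply bsF_inj S.hb
      rw [bsF_a, ← h5, hz, hi.eq]
    · left
      have hval : (mem1 S T w 0).2 = [] := by
        change (bif (S.isZ (beval T w).1 (beval T w).2.2 &&
          S.isInt (beval T w).1 (beval T w).2.1) then [(beval T w).2.1] else []) = _
        rw [Bool.not_eq_true] at hcond
        rw [hcond]
        rfl
      refine ⟨hval, fun hmem => hcond ?_⟩
      obtain ⟨z, hz⟩ := Subgroup.mem_zpowers_iff.1 hmem
      rw [← hz, bsF_a] at h5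
      obtain ⟨h6, h7⟩ := bsE_inj S.hb h5
      rw [Bool.and_eq_true]
      exact ⟨hzM.2 h7, hI.2 ⟨z, h6⟩⟩
  · -- the letter `t`
    by_cases hcond : S.isZ (beval T w).1 (beval T w).2.1 = true
    · right
      have hval : (mem1 S T w 1).2 = [(beval T w).2.2] := by
        change (bif S.isZ (beval T w).1 (beval T w).2.1 then [(beval T w).2.2] else []) = _
        rw [hcond]
        rfl
      refine ⟨_, hval, h3, h4, ?_⟩
      apply bsF_inj S.hb
      rw [bsF_t, ← h5, hzR.1 hcond]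
    · left
      have hval : (mem1 S T w 1).2 = [] := by
        change (bif S.isZ (beval T w).1 (beval T w).2.1 then [(beval T w).2.2] else []) = _
        rw [Bool.not_eq_true] at hcond
        rw [hcond]
        rfl
      refine ⟨hval, fun hmem => hcond ?_⟩
      obtain ⟨z, hz⟩ := Subgroup.mem_zpowers_iff.1 hmem
      rw [← hz, bsF_t] at h5
      obtain ⟨h6, h7⟩ := bsE_inj S.hb h5
      exact hzR.2 h6

end Pool.Agent.OR1
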