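import Pool.Agent.OR1.Defs

/-!
# Basic lemmas on markings, tables and words
-/

namespace Pool.Agent.OR1

open Pool.Agent.Lib.PT

variable {b : ℤ} {e e' e'' : ℕ → ℤ} {T T' T'' : Tab} {M N : Mark}

@[simp] theorem mv_nil : mv b e [] = 0 := rfl

@[simp] theorem mv_cons (p : Bool × ℕ) (M : Mark) :
    mv b e (p :: M) = sg p.1 * (b : ℚ) ^ e p.2 + mv b e M := by
  simp [mv]

@[simp] theorem mv_append (M N : Mark) : mv b e (M ++ N) = mv b e M + mv b e N := by
  simp [mv]

@[simp] theorem sg_true : sg true = 1 := rfl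
@[simp] theorem sg_false : sg false = -1 := rfl

theorem sg_not (s : Bool) : sg (!s) = - sg s := by cases s <;> simp

@[simp] theorem mv_negm (M : Mark) : mv b e (negm M) = - mv b e M := by
  induction M with
  | nil => simp [negm]
  | cons p M ih =>
    have : negm (p :: M) = (!p.1, p.2) :: negm M := rfl
    rw [this, mv_cons, mv_cons, ih, sg_not]
    ring

theorem mv_smul (s : Bool) (M : Mark) : mv b e (smul s M) = sg s * mv b e M := by
  cases s <;> simp [smul]

@[simp] theorem length_negm (M : Mark) : (negm M).length = M.length := by simp [negm]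

@[simp] theorem length_smul (s : Bool) (M : Mark) : (smul s M).length = M.length := by
  cases s <;> simp [smul]

theorem Below.nil {n : ℕ} : Below n [] := by simp [Below]

theorem Below.append {n : ℕ} (h1 : Below n M) (h2 : Below n N) : Below n (M ++ N) := by
  intro p hp
  rcases List.mem_append.1 hp with h | h
  · exact h1 p h
  · exact h2 p h

theorem Below.negm {n : ℕ} (h : Below n M) : Below n (negm M) := by
  intro p hp
  rw [OR1.negm, List.mem_map] at hp
  obtain ⟨r, hr, rfl⟩ := hp
  exact h r hr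

theorem Below.smul {n : ℕ} (s : Bool) (h : Below n M) : Below n (smul s M) := by
  cases s
  · exact h.negm
  · exact h

theorem Below.mono {n m : ℕ} (h : Below n M) (hnm : n ≤ m) : Below m M :=
  fun p hp => (h p hp).trans_le hnm

theorem Below.cons {n : ℕ} {p : Bool × ℕ} (h1 : p.2 < n) (h2 : Below n M) : Below n (p :: M) := by
  intro r hr
  rcases List.mem_cons.1 hr with h | h
  · rw [h]; exact h1
  · exact h2 r h

theorem Below.replicate {n : ℕ} {p : Bool × ℕ} (h : p.2 < n) (g : ℕ) :
    Below n (List.replicate g p) := by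
  intro r hr
  rw [List.eq_of_mem_replicate hr]
  exact h

theorem mv_congr {n : ℕ} (h : ∀ i < n, e' i = e i) (hM : Below n M) : mv b e' M = mv b e M := by
  induction M with
  | nil => rfl
  | cons p M ih =>
    rw [mv_cons, mv_cons, ih (fun r hr => hM r (List.mem_cons_of_mem _ hr)),
      h p.2 (hM p List.mem_cons_self)]

theorem Model.pos (h : Model b T e) : 0 < T.length := by
  have := h.zero
  rcases T with _ | ⟨a, T⟩
  · simp at this
  · simp

theorem Model.e_zero (h : Model b T e) : e 0 = 0 := by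
  have := (h.ok 0 [] h.zero).2
  simpa using this.symm

theorem Model.below (h : Model b T e) {i : ℕ} (hi : i < T.length) : Below i (T.getD i []) := by
  have : T[i]? = some (T.getD i []) := by
    rw [List.getD_eq_getElem?_getD, List.getElem?_eq_getElem hi]; rfl
  exact (h.ok i _ this).1

theorem Model.val (h : Model b T e) {i : ℕ} (hi : i < T.length) :
    mv b e (T.getD i []) = e i := by
  have : T[i]? = some (T.getD i []) := by
    rw [List.getD_eq_getElem?_getD, List.getElem?_eq_getElem hi]; rfl
  exact (h.ok i _ this).2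

/-- the initial table -/
theorem model_init : Model b [[]] (fun _ => 0) where
  zero := rfl
  ok := by
    intro i M hM
    rcases i with _ | i
    · simp only [List.getElem?_cons_zero, Option.some.injEq] at hM
      subst hM
      exact ⟨Below.nil, by simp⟩
    · simp at hM

theorem mv_unit (h : Model b T e) (s : Bool) : mv b e [(s, 0)] = sg s := by
  simp [h.e_zero]

theorem mv_replicate (h : Model b T e) (s : Bool) (g : ℕ) :
    mv b e (List.replicate g (s, 0)) = g * sg s := by
  induction g with
  | zero => simp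
  | succ g ih =>
    rw [List.replicate_succ, mv_cons, ih, h.e_zero]
    push_cast
    simp
    ring

theorem below_unit (h : Model b T e) (s : Bool) : Below T.length [(s, 0)] :=
  Below.cons h.pos Below.nil

/-! ### Extensions -/

theorem Ext.refl (h : Model b T e) : Ext b T e T e :=
  ⟨h, List.prefix_refl _, fun _ _ => rfl⟩

theorem Ext.le (h : Ext b T e T' e') : T.length ≤ T'.length := h.pre.length_le

theorem Ext.trans (h1 : Ext b T e T' e') (h2 : Ext b T' e' T'' e'') : Ext b T e T'' e'' :=
  ⟨h2.model, h1.pre.trans h2.pre, fun i hi => (h2.agree i (hi.trans_le h1.le)).trans (h1.agree i hi)⟩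

theorem Ext.below (h : Ext b T e T' e') (hM : Below T.length M) : Below T'.length M :=
  hM.mono h.le

theorem Ext.mv (h : Ext b T e T' e') (hM : Below T.length M) : mv b e' M = mv b e M :=
  mv_congr h.agree hM

theorem Ext.iv (h : Ext b T e T' e') (hM : Below T.length M) : iv b e' M = iv b e M := by
  rw [OR1.iv, OR1.iv, h.mv hM]

theorem Ext.isZ (h : Ext b T e T' e') (hM : Below T.length M) (hz : IsZ b e M) : IsZ b e' M := by
  rw [IsZ, h.mv hM]; exact hz

/-! ### Integer values -/

theorem IsZ.eq (h : IsZ b e M) : mv b e M = iv b e M := by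
  obtain ⟨z, hz⟩ := h
  rw [iv, hz, Int.floor_intCast]

theorem isZ_of_eq {z : ℤ} (h : mv b e M = z) : IsZ b e M := ⟨z, h⟩

theorem iv_of_eq {z : ℤ} (h : mv b e M = z) : iv b e M = z := by
  rw [iv, h, Int.floor_intCast]

theorem IsZ.nil : IsZ b e [] := ⟨0, by simp⟩

@[simp] theorem iv_nil : iv b e [] = 0 := by simp [iv]

theorem IsZ.append (h1 : IsZ b e M) (h2 : IsZ b e N) : IsZ b e (M ++ N) := by
  obtain ⟨z, hz⟩ := h1
  obtain ⟨w, hw⟩ := h2
  exact ⟨z + w, by rw [mv_append, hz, hw]; push_cast; rfl⟩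

theorem iv_append (h1 : IsZ b e M) (h2 : IsZ b e N) : iv b e (M ++ N) = iv b e M + iv b e N := by
  apply iv_of_eq
  rw [mv_append, h1.eq, h2.eq]; push_cast; rfl

theorem IsZ.negm (h : IsZ b e M) : IsZ b e (negm M) := by
  obtain ⟨z, hz⟩ := h
  exact ⟨-z, by rw [mv_negm, hz]; push_cast; rfl⟩

theorem iv_negm (h : IsZ b e M) : iv b e (negm M) = - iv b e M := by
  apply iv_of_eq
  rw [mv_negm, h.eq]; push_cast; rfl

theorem IsZ.smul (s : Bool) (h : IsZ b e M) : IsZ b e (smul s M) := by
  cases s
  · exact h.negm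
  · exact h

theorem iv_smul (s : Bool) (h : IsZ b e M) :
    iv b e (smul s M) = (bif s then 1 else -1) * iv b e M := by
  cases s
  · simp [OR1.smul, iv_negm h]
  · simp [OR1.smul]

theorem isZ_unit (h : Model b T e) (s : Bool) : IsZ b e [(s, 0)] := by
  rw [IsZ, mv_unit h]
  cases s
  · exact ⟨-1, by simp⟩
  · exact ⟨1, by simp⟩

theorem iv_unit (h : Model b T e) (s : Bool) : iv b e [(s, 0)] = bif s then 1 else -1 := by
  rw [iv, mv_unit h]
  cases s
  · exact_mod_cast Int.floor_intCast (R := ℚ) (-1)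
  · exact_mod_cast Int.floor_intCast (R := ℚ) 1

theorem IsZ.pos_iff (h : IsZ b e M) : 0 < mv b e M ↔ 0 < iv b e M := by
  rw [h.eq]; exact_mod_cast Iff.rfl

theorem IsZ.neg_iff (h : IsZ b e M) : mv b e M < 0 ↔ iv b e M < 0 := by
  rw [h.eq]; exact_mod_cast Iff.rfl

namespace NumSys

variable (S : NumSys) {T : Tab} {e : ℕ → ℤ} {M : Mark}

theorem isZ_iff (h : Model S.b T e) (hM : Below T.length M) :
    S.isZ T M = true ↔ mv S.b e M = 0 := by
  have := S.sgn_spec T e M h hM
  rw [isZ, this.1, this.2]
  simp only [Bool.and_eq_true, Bool.not_eq_true', decide_eq_false_iff_not, not_lt]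
  exact ⟨fun h => le_antisymm h.1 h.2, fun h => ⟨h.le, h.ge⟩⟩

theorem isZ_iff' (h : Model S.b T e) (hM : Below T.length M) (hz : IsZ S.b e M) :
    S.isZ T M = true ↔ iv S.b e M = 0 := by
  rw [isZ_iff S h hM, hz.eq]; exact_mod_cast Iff.rfl

theorem pos_iff (h : Model S.b T e) (hM : Below T.length M) (hz : IsZ S.b e M) :
    (S.sgn T M).1 = true ↔ 0 < iv S.b e M := by
  rw [(S.sgn_spec T e M h hM).1, decide_eq_true_iff, hz.pos_iff]

theorem neg_iff (h : Model S.b T e) (hM : Below T.length M) (hz : IsZ S.b e M) :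
    (S.sgn T M).2 = true ↔ iv S.b e M < 0 := by
  rw [(S.sgn_spec T e M h hM).2, decide_eq_true_iff, hz.neg_iff]

end NumSys

/-! ### Words -/

section words

variable {k : ℕ} {w w' : Word} {G : Type*} [Group G] {x : ℕ → G}

@[simp] theorem wv_nil : wv b e x [] = 1 := rfl

@[simp] theorem wv_cons (s : ℕ × Mark) (w : Word) :
    wv b e x (s :: w) = x s.1 ^ iv b e s.2 * wv b e x w := by
  simp [wv]

@[simp] theorem wv_append (w w' : Word) : wv b e x (w ++ w') = wv b e x w * wv b e x w' := by
  simp [wv]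

theorem WOk.nil : WOk b T e k [] := by simp [WOk]

theorem WOk.append (h1 : WOk b T e k w) (h2 : WOk b T e k w') : WOk b T e k (w ++ w') := by
  intro s hs
  rcases List.mem_append.1 hs with h | h
  · exact h1 s h
  · exact h2 s h

theorem WOk.single {i : ℕ} (hi : i ≤ k) (hM : Below T.length M) (hz : IsZ b e M) :
    WOk b T e k [(i, M)] := by
  intro s hs
  rw [List.mem_singleton] at hs
  subst hs
  exact ⟨hi, hM, hz⟩

theorem WOk.tail {s : ℕ × Mark} (h : WOk b T e k (s :: w)) : WOk b T e k w :=
  fun r hr => h r (List.mem_cons_of_mem _ hr)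

theorem WOk.head {s : ℕ × Mark} (h : WOk b T e k (s :: w)) :
    s.1 ≤ k ∧ Below T.length s.2 ∧ IsZ b e s.2 := h s List.mem_cons_self

theorem WOk.ext (h : WOk b T e k w) (hE : Ext b T e T' e') : WOk b T' e' k w :=
  fun s hs => ⟨(h s hs).1, hE.below (h s hs).2.1, hE.isZ (h s hs).2.1 (h s hs).2.2⟩

theorem WOk.mono {l : ℕ} (h : WOk b T e k w) (hkl : k ≤ l) : WOk b T e l w :=
  fun s hs => ⟨(h s hs).1.trans hkl, (h s hs).2⟩

theorem WOk.wv_ext (h : WOk b T e k w) (hE : Ext b T e T' e') : wv b e' x w = wv b e x w := by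
  induction w with
  | nil => rfl
  | cons s w ih => rw [wv_cons, wv_cons, ih h.tail, hE.iv h.head.2.1]

theorem WOk.wv_congr {H : Type*} [Group H] {y : ℕ → H} (f : G →* H) (h : WOk b T e k w)
    (hxy : ∀ i ≤ k, f (x i) = y i) : wv b e y w = f (wv b e x w) := by
  induction w with
  | nil => simp
  | cons s w ih =>
    rw [wv_cons, wv_cons, ih h.tail, map_mul, map_zpow, hxy s.1 h.head.1]

theorem wt_append (w w' : Word) : wt (w ++ w') = wt w + wt w' := by simp [wt]

@[simp] theorem wt_nil : wt [] = 0 := rfl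

@[simp] theorem wt_cons (s : ℕ × Mark) (w : Word) : wt (s :: w) = s.2.length + wt w := by
  simp [wt]

end words

end Pool.Agent.OR1
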