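import Pool.Agent.OR1.Basic

/-!
# HNN extensions: stacks with large exponents, the letters of the next level

The new letter is `y = t⁻¹`, so that `y⁻¹ a y = φ a` for `a ∈ A`.

PROOF of `brit`.  Expand `y ^ N` into `|N|` copies of `t ^ (∓1)` and use Britton's lemma
`HNNExtension.ReducedWord.toList_eq_nil_of_mem_of_range` (`ReducedWord.prod` =
`of head * (t ^ u₁ * of g₁) * ...`, condition: `g ∈ toSubgroup A B u → u = u'` for neighbours
`(u, g), (u', _)`; `toSubgroup A B 1 = A`, `toSubgroup A B (-1) = B`).  A block `y ^ N · of g`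
with `N < 0` is `(1, 1), ..., (1, 1), (1, g)`, for `N > 0` it is `(-1, 1), ..., (-1, g)`.
Induction from the bottom of the stack upwards (or prove the statement for a list in the other
order and reverse).
-/

namespace Pool.Agent.OR1

open HNNExtension

variable {G : Type*} [Group G] {A B : Subgroup G} (φ : A ≃* B)

/-- value of a stack (top first) -/
def sv : List (G × ℤ) → HNNExtension G A B φ
  | [] => 1
  | (g, N) :: s => sv s * of g * (t⁻¹ : HNNExtension G A B φ) ^ N

/-- reduced stack -/
def BRed (A B : Subgroup G) : List (G × ℤ) → Prop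
  | [] => True
  | (g, N) :: s => N ≠ 0 ∧ BRed A B s ∧
      ∀ r ∈ s.head?, (r.2 < 0 → 0 < N → g ∉ A) ∧ (0 < r.2 → N < 0 → g ∉ B)

/-- the sign of `t` in a power of `y` -/
def britU (N : ℤ) : ℤˣ := if N < 0 then 1 else -1

/-- the block of a power of `y` -/
def britBlk (N : ℤ) (c : G) (L : List (ℤˣ × G)) : List (ℤˣ × G) :=
  List.replicate (N.natAbs - 1) (britU N, 1) ++ (britU N, c) :: L

/-- value of a list -/
def britV (L : List (ℤˣ × G)) : HNNExtension G A B φ :=
  (L.map (fun x => t ^ (x.1 : ℤ) * of x.2)).prod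

theorem britV_blk {N : ℤ} (hN : N ≠ 0) (c : G) (L : List (ℤˣ × G)) :
    britV φ (britBlk N c L) = (t⁻¹ : HNNExtension G A B φ) ^ N * of c * britV φ L := by
  have h1 : britV φ (britBlk N c L) =
      ((t : HNNExtension G A B φ) ^ (britU N : ℤ)) ^ (N.natAbs - 1) *
        (t ^ (britU N : ℤ) * of c * britV φ L) := by
    rw [britV, britV, britBlk, List.map_append, List.prod_append, List.map_replicate,
      List.prod_replicate]
    simp
  have h2 : ((t : HNNExtension G A B φ) ^ (britU N : ℤ)) ^ (N.natAbs - 1) *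
      t ^ (britU N : ℤ) = (t⁻¹ : HNNExtension G A B φ) ^ N := by
    have h3 : ((t : HNNExtension G A B φ) ^ (britU N : ℤ)) ^ (N.natAbs - 1) *
      t ^ (britU N : ℤ) = ((t : HNNExtension G A B φ) ^ (britU N : ℤ)) ^ (N.natAbs) := by
      rw [← pow_succ]
      congr 1
      have : 0 < N.natAbs := Int.natAbs_pos.2 hN
      omega
    rw [h3, inv_zpow', ← zpow_natCast, ← zpow_mul]
    congr 1
    unfold britU
    split_ifs with h
    · simp only [Units.val_one, one_mul]; omega
    · simp only [Units.val_neg, Units.val_one]; omega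
  rw [h1, ← h2]
  simp only [mul_assoc]

theorem britBlk_head (N : ℤ) (c : G) (L : List (ℤˣ × G)) :
    ∀ r ∈ (britBlk N c L).head?, r.1 = britU N := by
  intro r hr
  unfold britBlk at hr
  rcases hn : N.natAbs - 1 with _ | n
  · rw [hn] at hr
    simp only [List.replicate_zero, List.nil_append, List.head?_cons, Option.mem_def,
      Option.some.injEq] at hr
    rw [← hr]
  · rw [hn] at hr
    simp only [List.replicate_succ, List.cons_append, List.head?_cons, Option.mem_def,
      Option.some.injEq] at hr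
    rw [← hr]

theorem britBlk_chain (N : ℤ) (c : G) (L : List (ℤˣ × G))
    (hL : L.IsChain (fun a b => a.2 ∈ toSubgroup A B a.1 → a.1 = b.1))
    (hc : ∀ r ∈ L.head?, c ∈ toSubgroup A B (britU N) → britU N = r.1) :
    (britBlk N c L).IsChain (fun a b => a.2 ∈ toSubgroup A B a.1 → a.1 = b.1) := by
  unfold britBlk
  have base : ((britU N, c) :: L).IsChain
      (fun a b => a.2 ∈ toSubgroup A B a.1 → a.1 = b.1) := by
    rw [List.isChain_cons]
    exact ⟨fun y hy h => hc y hy h, hL⟩
  generalize N.natAbs - 1 = n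
  induction n with
  | zero => simpa using base
  | succ n ih =>
    rw [List.replicate_succ, List.cons_append, List.isChain_cons]
    refine ⟨?_, ih⟩
    intro y hy _
    rcases n with _ | n
    · simp only [List.replicate_zero, List.nil_append, List.head?_cons, Option.mem_def,
        Option.some.injEq] at hy
      rw [← hy]
    · simp only [List.replicate_succ, List.cons_append, List.head?_cons, Option.mem_def,
        Option.some.injEq] at hy
      rw [← hy]

theorem brit_aux : ∀ (s : List (G × ℤ)) (_ : BRed A B s) (c : G) (L : List (ℤˣ × G))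
    (_ : L.IsChain (fun a b => a.2 ∈ toSubgroup A B a.1 → a.1 = b.1))
    (_ : ∀ r ∈ s.head?, ∀ l ∈ L.head?, c ∈ toSubgroup A B (britU r.2) → britU r.2 = l.1),
    ∃ w : NormalWord.ReducedWord G A B, w.prod φ = sv φ s * of c * britV φ L ∧
      s.length + L.length ≤ w.toList.length := by
  intro s
  induction s with
  | nil =>
    intro _ c L hL _
    exact ⟨⟨c, L, hL⟩, by simp [NormalWord.ReducedWord.prod, sv, britV], by simp⟩
  | cons p s ih =>
    obtain ⟨g, N⟩ := p
    intro hs c L hL hc
    obtain ⟨hN, hs', hh⟩ := hs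
    obtain ⟨w, hw, hlen⟩ := ih hs' g (britBlk N c L)
      (britBlk_chain N c L hL (fun l hl h => hc (g, N) (by simp) l hl h)) (by
        intro r hr l hl hg
        rw [britBlk_head N c L l hl]
        have := hh r hr
        unfold britU at hg ⊢
        split_ifs at hg ⊢ with h1 h2
        · rfl
        · exact absurd hg (this.1 h1 (lt_of_le_of_ne (not_lt.1 h2) (Ne.symm hN)))
        · rename_i h2
          have hr0 : r.2 ≠ 0 := by
            rcases s with _ | ⟨⟨g', N'⟩, s⟩
            · simp at hr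
            · simp only [List.head?_cons, Option.mem_def, Option.some.injEq] at hr
              rw [← hr]
              exact hs'.1
          exact absurd hg (this.2 (lt_of_le_of_ne (not_lt.1 h1) (Ne.symm hr0)) h2)
        · rfl)
    refine ⟨w, ?_, ?_⟩
    · rw [hw, britV_blk φ hN]
      simp only [sv, mul_assoc]
    · refine le_trans ?_ hlen
      simp only [List.length_cons, britBlk, List.length_append, List.length_replicate]
      omega

/-- Britton's lemma for stacks -/
theorem brit {s : List (G × ℤ)} (hs : s ≠ []) (hr : BRed A B s) (c : G) :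
    sv φ s * of c ∉ ((of : G →* HNNExtension G A B φ).range) := by
  intro h
  obtain ⟨w, hw, hlen⟩ := brit_aux φ s hr c [] List.isChain_nil (by simp)
  have h1 : w.prod φ ∈ ((of : G →* HNNExtension G A B φ).range) := by
    rw [hw]
    simpa [britV] using h
  have h2 := ReducedWord.toList_eq_nil_of_mem_of_range φ w h1
  rw [h2] at hlen
  simp only [List.length_nil, add_zero, nonpos_iff_eq_zero, List.length_eq_zero_iff] at hlen
  exact hs hlen

theorem y_conj_A (a : A) :
    (t⁻¹ : HNNExtension G A B φ)⁻¹ * of (a : G) * t⁻¹ = of (φ a : G) := by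
  rw [inv_inv, equiv_eq_conj]

theorem y_conj_B (c : B) :
    (t⁻¹ : HNNExtension G A B φ) * of (c : G) * (t⁻¹)⁻¹ = of (φ.symm c : G) := by
  rw [inv_inv, equiv_symm_eq_conj]

/-- exponent sum of the new letter -/
noncomputable def chi : HNNExtension G A B φ →* Multiplicative ℤ :=
  HNNExtension.lift 1 (Multiplicative.ofAdd (-1)) (by intro a; simp)

@[simp] theorem chi_of (g : G) : chi φ (of g) = 1 := by
  rw [chi, lift_of]; rfl

@[simp] theorem chi_y : chi φ (t⁻¹) = Multiplicative.ofAdd 1 := by
  rw [map_inv, chi, lift_t]; rfl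

/-- the letters of the next level -/
noncomputable def nx (k : ℕ) (x : ℕ → G) (i : ℕ) : HNNExtension G A B φ :=
  if i < k then of (x i) else t⁻¹

theorem nx_lt {k : ℕ} (x : ℕ → G) {i : ℕ} (h : i < k) : nx φ k x i = of (x i) := if_pos h

theorem nx_self (k : ℕ) (x : ℕ → G) : nx φ k x k = t⁻¹ := if_neg (lt_irrefl k)

theorem chi_y_zpow (z : ℤ) : chi φ (t⁻¹ ^ z) = Multiplicative.ofAdd z := by
  rw [map_zpow, chi_y, ← ofAdd_zsmul]
  simp

theorem chi_of_zpow (g : G) (z : ℤ) : chi φ (of g ^ z) = 1 := by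
  rw [map_zpow, chi_of, one_zpow]

theorem lev_next {k : ℕ} {x : ℕ → G} (h : Lev k x) : Lev (k + 1) (nx φ k x) := by
  have key : ∀ z : ℤ, (1 : Multiplicative ℤ) = Multiplicative.ofAdd z → z = 0 := by
    intro z hz
    exact (ofAdd_eq_one.1 hz.symm)
  have hinf : ∀ i < k + 1, ∀ z : ℤ, nx φ k x i ^ z = 1 → z = 0 := by
    intro i hi z hz
    rcases Nat.lt_succ_iff_lt_or_eq.1 hi with h1 | rfl
    · rw [nx_lt φ x h1, ← map_zpow] at hz
      refine h.inf i h1 z (of_injective (φ := φ) ?_)
      rw [hz, map_one]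
    · rw [nx_self] at hz
      have := congrArg (chi φ) hz
      rw [chi_y_zpow, map_one] at this
      exact key z this.symm
  refine ⟨hinf, ?_⟩
  intro i hi j hj hij a c hac
  rcases Nat.lt_succ_iff_lt_or_eq.1 hi with h1 | h1
  · rcases Nat.lt_succ_iff_lt_or_eq.1 hj with h2 | h2
    · rw [nx_lt φ x h1, nx_lt φ x h2, ← map_zpow, ← map_zpow] at hac
      exact h.triv i h1 j h2 hij a c (of_injective (φ := φ) hac)
    · subst h2
      have h3 := congrArg (chi φ) hac
      rw [nx_lt φ x h1, nx_self, chi_of_zpow, chi_y_zpow] at h3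
      have h4 := key c h3
      rw [h4, zpow_zero] at hac
      exact hinf i hi a hac
  · subst h1
    have h2 : j < i := lt_of_le_of_ne (Nat.lt_succ_iff.1 hj) (Ne.symm hij)
    have h3 := congrArg (chi φ) hac
    rw [nx_lt φ x h2, nx_self, chi_of_zpow, chi_y_zpow] at h3
    exact key a h3.symm

theorem ksum_cons (k : ℕ) (s : ℕ × Mark) (w : Word) :
    ksum k (s :: w) = (if s.1 = k then s.2 else []) ++ ksum k w := by
  unfold ksum
  by_cases h : s.1 = k
  · simp [h]
  · simp [h]

theorem ksum_ok {b : ℤ} {T : Tab} {e : ℕ → ℤ} {k l : ℕ} {w : Word} (hw : WOk b T e l w) :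
    Below T.length (ksum k w) ∧ IsZ b e (ksum k w) := by
  induction w with
  | nil => exact ⟨Below.nil, IsZ.nil⟩
  | cons s w ih =>
    rw [ksum_cons]
    obtain ⟨h1, h2⟩ := ih hw.tail
    split_ifs with h
    · exact ⟨hw.head.2.1.append h1, hw.head.2.2.append h2⟩
    · exact ⟨Below.nil.append h1, IsZ.nil.append h2⟩

theorem chi_wv {b : ℤ} {T : Tab} {e : ℕ → ℤ} {k : ℕ} {x : ℕ → G} {w : Word}
    (hw : WOk b T e k w) :
    chi φ (wv b e (nx φ k x) w) = Multiplicative.ofAdd (iv b e (ksum k w)) := by
  induction w with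
  | nil => simp [ksum]
  | cons s w ih =>
    rw [wv_cons, map_mul, ih hw.tail, ksum_cons]
    rcases lt_or_eq_of_le hw.head.1 with h | h
    · rw [if_neg h.ne, nx_lt φ x h, chi_of_zpow, List.nil_append, one_mul]
    · rw [if_pos h, h, nx_self, chi_y_zpow, iv_append hw.head.2.2 (ksum_ok hw.tail).2, ofAdd_add]

/-- membership of a word in the cyclic group of the new letter -/
theorem mem_zpowers_y_iff {b : ℤ} {T : Tab} {e : ℕ → ℤ} {k : ℕ} {x : ℕ → G} {w : Word}
    (hT : Model b T e) (hw : WOk b T e k w) :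
    Below T.length (ksum k w) ∧ IsZ b e (ksum k w) ∧
    (wv b e (nx φ k x) w ∈ Subgroup.zpowers (t⁻¹ : HNNExtension G A B φ) ↔
      wv b e (nx φ k x) (w ++ [(k, negm (ksum k w))]) = 1) := by
  obtain ⟨h1, h2⟩ := ksum_ok (k := k) hw
  refine ⟨h1, h2, ?_⟩
  rw [wv_append, wv_cons, wv_nil, mul_one, nx_self, iv_negm h2, zpow_neg, mul_inv_eq_one,
    Subgroup.mem_zpowers_iff]
  constructor
  · rintro ⟨z, hz⟩
    have h3 := congrArg (chi φ) hz
    rw [chi_wv φ hw, chi_y_zpow] at h3
    have h4 : z = iv b e (ksum k w) := Multiplicative.ofAdd.injective h3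
    rw [← hz, h4]
  · intro h
    exact ⟨_, h.symm⟩

end Pool.Agent.OR1
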