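import Pool.Agent.OR1.Eval

/-!
# Correctness of the list of levels and of the sign test

PROOF of `sgnQ_spec`.  Let `C = capE T M`, `n ≤ T.length`.  By induction on `n`:
`O_n = (List.range n).foldl (addE q C T) []` satisfies `OrdOK q e (2 * C) O_n`, every `i < n` lies
in some level, and every index in a level is `< n`.  Step `n → n + 1` (`i = n`): all `T[k]`,
`k ≤ n`, refer to nodes `< n`, and the markings in `cmpE q T O_n k l g`, `k, l ≤ n`, `g ≤ C`, have
length `≤ 2 * sum + C ≤ 2 * C`; so by `evalO_spec` (with `W = 2 * C`) `cmpE` gives the sign of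
`e k - e l - g` (for `g > 0` one needs that node `0` lies in a level, so treat `n = 0` separately:
there `O = []`, `T[0] = []`, the new list has one level `[0]`; only `g` of the last level is
computed with a wrong value, and the gap of the last level is irrelevant).
`gapE = min (e k - e l) C` when `e k > e l` (the filtered list is an initial segment of the range).
`2 * C < q ^ C` as `C ≥ 3`.  `insE` keeps the order: above / equal / below.
Finally `evalO_spec` for `M` with `W = 2 * C ≥ M.length`.
-/

namespace Pool.Agent.OR1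

open Pool.Agent.Lib.PT

/-- sorted levels -/
def SL (e : ℕ → ℤ) (L : List (List ℕ)) : Prop :=
  (∀ l ∈ L, l ≠ [] ∧ ∀ i ∈ l, e i = e (l.headD 0)) ∧
    L.Pairwise fun l l' => e (l'.headD 0) < e (l.headD 0)

theorem OrdOK.sl {q : ℕ} {e : ℕ → ℤ} {W : ℕ} : ∀ {O : Ord}, OrdOK q e W O →
    SL e (O.map Prod.fst) := by
  intro O
  induction O with
  | nil => intro _; simp [SL]
  | cons a O ih =>
    obtain ⟨l, g⟩ := a
    intro h
    obtain ⟨h1, h2, h3, h4⟩ := h
    have hI := ih h3
    refine ⟨?_, ?_⟩
    · intro l' hl'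
      rw [List.map_cons, List.mem_cons] at hl'
      rcases hl' with rfl | hl'
      · exact ⟨h1, h2⟩
      · exact hI.1 l' hl'
    · rw [List.map_cons, List.pairwise_cons]
      refine ⟨?_, hI.2⟩
      intro l' hl'
      rcases hL : O.map Prod.fst with _ | ⟨a, t⟩
      · rw [hL] at hl'
        simp at hl'
      · rw [hL] at hl' hI h4
        have ha := (h4 a (by simp)).1
        rcases List.mem_cons.1 hl' with rfl | hl''
        · exact ha
        · exact ((List.pairwise_cons.1 hI.2).1 l' hl'').trans ha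

theorem ordOK_zip {q : ℕ} {e : ℕ → ℤ} {W : ℕ} (f : List ℕ → List ℕ → ℕ) :
    ∀ L : List (List ℕ), SL e L →
      (∀ l ∈ L, ∀ l' ∈ L, e (l'.headD 0) < e (l.headD 0) →
        ((f l l' : ℤ) = e (l.headD 0) - e (l'.headD 0) ∨
          ((f l l' : ℤ) ≤ e (l.headD 0) - e (l'.headD 0) ∧ W < q ^ f l l'))) →
      OrdOK q e W ((L.zip (L.tail ++ [[]])).map fun p => (p.1, f p.1 p.2)) := by
  intro L
  induction L with
  | nil => intro _ _; simp [OrdOK]
  | cons a t ih =>
    intro hL hf
    have ht : SL e t := ⟨fun l hl => hL.1 l (List.mem_cons_of_mem _ hl),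
      (List.pairwise_cons.1 hL.2).2⟩
    have hI := ih ht fun l hl l' hl' h =>
      hf l (List.mem_cons_of_mem _ hl) l' (List.mem_cons_of_mem _ hl') h
    have ha := hL.1 a List.mem_cons_self
    rcases t with _ | ⟨b, t⟩
    · simp only [List.tail_cons, List.nil_append, List.zip_cons_cons, List.zip_nil_right,
        List.map_cons, List.map_nil]
      refine ⟨ha.1, ha.2, trivial, ?_⟩
      intro l' hl'
      simp at hl'
    · have hab : e (b.headD 0) < e (a.headD 0) :=
        (List.pairwise_cons.1 hL.2).1 b List.mem_cons_self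
      simp only [List.tail_cons, List.cons_append, List.zip_cons_cons, List.map_cons] at hI ⊢
      refine ⟨ha.1, ha.2, ?_, ?_⟩
      · rcases t with _ | ⟨c, t⟩
        · simpa using hI
        · simpa using hI
      · intro l' hl'
        have hb : l' = b := by
          rcases t with _ | ⟨c, t⟩ <;> simpa [eq_comm] using hl'
        subst hb
        exact ⟨hab, hf a List.mem_cons_self l' (by simp) hab⟩

theorem map_fst_addE {q C : ℕ} {T : Tab} {O : Ord} {i : ℕ} :
    (addE q C T O i).map Prod.fst = insE q T O i := by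
  unfold addE
  rw [List.map_map]
  have : (Prod.fst ∘ fun p : List ℕ × List ℕ =>
      (p.1, gapE q C T O (p.1.headD 0) (p.2.headD 0))) = Prod.fst := rfl
  rw [this]
  apply List.map_fst_zip
  simp only [List.length_append, List.length_tail, List.length_cons, List.length_nil]
  omega

theorem len_getD_le (T : Tab) (k : ℕ) : (T.getD k []).length ≤ (T.map List.length).sum := by
  rcases Nat.lt_or_ge k T.length with hk | hk
  · have hm : (T.getD k []).length ∈ T.map List.length := by
      rw [List.mem_map]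
      refine ⟨T.getD k [], ?_, rfl⟩
      rw [List.getD_eq_getElem?_getD, List.getElem?_eq_getElem hk]
      exact List.getElem_mem hk
    exact List.single_le_sum (fun x _ => Nat.zero_le x) _ hm
  · rw [List.getD_eq_getElem?_getD, List.getElem?_eq_none hk]
    simp

/-- the invariant of the construction -/
structure BInv (q : ℕ) (e : ℕ → ℤ) (C n : ℕ) (O : Ord) : Prop where
  ok : OrdOK q e (2 * C) O
  cov : ∀ i < n, ∃ lv ∈ O, i ∈ lv.1
  lt : ∀ lv ∈ O, ∀ i ∈ lv.1, i < n

theorem cmpE_spec {q : ℕ} (hq : 2 ≤ q) {T : Tab} {e : ℕ → ℤ} (h : Model q T e) {C n : ℕ} {O : Ord}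
    (hI : BInv q e C n O) (hn : n < T.length) (h0 : 0 < n)
    (hC : 2 * (T.map List.length).sum ≤ C) {k l g : ℕ} (hk : k ≤ n) (hl : l ≤ n) (hg : g ≤ C) :
    (cmpE q T O k l g).1 = decide ((g : ℤ) < e k - e l) ∧
      (cmpE q T O k l g).2 = decide (e k - e l < g) := by
  have hkT : k < T.length := lt_of_le_of_lt hk hn
  have hlT : l < T.length := lt_of_le_of_lt hl hn
  have hB : Below n (T.getD k [] ++ negm (T.getD l []) ++ List.replicate g (false, 0)) :=
    (((h.below hkT).mono hk).append ((h.below hlT).mono hl).negm).append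
      (Below.replicate (p := (false, 0)) h0 g)
  have hW : (T.getD k [] ++ negm (T.getD l []) ++ List.replicate g (false, 0)).length ≤ 2 * C := by
    have h1 := len_getD_le T k
    have h2 := len_getD_le T l
    rw [List.length_append, List.length_append, length_negm, List.length_replicate]
    omega
  have hv : mv q e (T.getD k [] ++ negm (T.getD l []) ++ List.replicate g (false, 0)) =
      ((e k - e l - g : ℤ) : ℚ) := by
    rw [mv_append, mv_append, mv_negm, h.val hkT, h.val hlT, mv_replicate h]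
    push_cast
    simp
    ring
  have hE := evalO_spec hq hI.ok hI.cov hB hW
  rw [hv] at hE
  refine ⟨hE.1.trans ?_, hE.2.trans ?_⟩
  · congr 1
    rw [eq_iff_iff]
    constructor
    · intro hh
      have : (0 : ℤ) < e k - e l - g := by exact_mod_cast hh
      linarith
    · intro hh
      have : (0 : ℤ) < e k - e l - g := by linarith
      exact_mod_cast this
  · congr 1
    rw [eq_iff_iff]
    constructor
    · intro hh
      have : e k - e l - g < (0 : ℤ) := by exact_mod_cast hh
      linarith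
    · intro hh
      have : e k - e l - g < (0 : ℤ) := by linarith
      exact_mod_cast this

theorem filter_range_lt (C d : ℕ) :
    ((List.range C).filter fun g => decide (g < d)).length = min d C := by
  induction C with
  | zero => simp
  | succ C ih =>
    rw [List.range_succ, List.filter_append, List.length_append, ih]
    by_cases hd : C < d
    · simp [hd]
      omega
    · simp [hd]
      omega

theorem two_mul_lt_pow {q C : ℕ} (hq : 2 ≤ q) (hC : 3 ≤ C) : 2 * C < q ^ C := by
  have h1 : 2 * C < 2 ^ C := by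
    induction C, hC using Nat.le_induction with
    | base => norm_num
    | succ n hn ih =>
      rw [pow_succ]
      omega
  exact h1.trans_le (Nat.pow_le_pow_left hq C)

theorem gapE_spec {q : ℕ} (hq : 2 ≤ q) {T : Tab} {e : ℕ → ℤ} (h : Model q T e) {C n : ℕ} {O : Ord}
    (hI : BInv q e C n O) (hn : n < T.length) (h0 : 0 < n)
    (hC : 2 * (T.map List.length).sum ≤ C) (hC3 : 3 ≤ C) {k l : ℕ} (hk : k ≤ n) (hl : l ≤ n)
    (hkl : e l < e k) :
    (gapE q C T O k l : ℤ) = e k - e l ∨
      ((gapE q C T O k l : ℤ) ≤ e k - e l ∧ 2 * C < q ^ gapE q C T O k l) := by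
  obtain ⟨d, hd⟩ : ∃ d : ℕ, e k - e l = d := ⟨(e k - e l).toNat, by
    rw [Int.toNat_of_nonneg (by linarith)]⟩
  have hg : gapE q C T O k l = min d C := by
    unfold gapE
    rw [← filter_range_lt]
    congr 1
    apply List.filter_congr
    intro g hg
    rw [List.mem_range] at hg
    have hs := (cmpE_spec hq h hI hn h0 hC hk hl (g := g + 1) (by omega)).2
    rw [hs, hd]
    by_cases hgd : g < d
    · have : ¬ ((d : ℤ) < ((g + 1 : ℕ) : ℤ)) := by
        push_cast
        omega
      simp [hgd] <;> omega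
    · have : ((d : ℤ) < ((g + 1 : ℕ) : ℤ)) := by
        push_cast
        omega
      simp [hgd] <;> omega
  rw [hg, hd]
  rcases Nat.le_total d C with hdc | hdc
  · left
    rw [min_eq_left hdc]
  · right
    rw [min_eq_right hdc]
    exact ⟨by exact_mod_cast hdc, two_mul_lt_pow hq hC3⟩

theorem insE_spec {q : ℕ} (hq : 2 ≤ q) {T : Tab} {e : ℕ → ℤ} (h : Model q T e) {C n : ℕ} {O : Ord}
    (hI : BInv q e C n O) (hn : n < T.length) (h0 : 0 < n)
    (hC : 2 * (T.map List.length).sum ≤ C) :
    SL e (insE q T O n) ∧ (∀ i < n + 1, ∃ l ∈ insE q T O n, i ∈ l) ∧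
      (∀ l ∈ insE q T O n, ∀ i ∈ l, i < n + 1) := by
  have hS := hI.ok.sl
  have hmemO : ∀ lv ∈ O, lv.1 ≠ [] ∧ (∀ i ∈ lv.1, e i = e (lv.1.headD 0)) := fun lv hlv =>
    hS.1 lv.1 (List.mem_map_of_mem hlv)
  have hhead : ∀ l : List ℕ, l ≠ [] → l.headD 0 ∈ l := by
    intro l hl
    rcases l with _ | ⟨a, l⟩
    · exact absurd rfl hl
    · simp
  have hcmp : ∀ lv ∈ O, (cmpE q T O n (lv.1.headD 0) 0).1 = decide (e (lv.1.headD 0) < e n) ∧
      (cmpE q T O n (lv.1.headD 0) 0).2 = decide (e n < e (lv.1.headD 0)) := by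
    intro lv hlv
    have hlt := hI.lt lv hlv _ (hhead _ (hmemO lv hlv).1)
    have hs := cmpE_spec hq h hI hn h0 hC (k := n) (l := lv.1.headD 0) (g := 0) le_rfl hlt.le
      (Nat.zero_le _)
    rw [hs.1, hs.2]
    constructor
    · congr 1
      rw [eq_iff_iff]
      constructor <;> intro hh <;> push_cast at * <;> linarith
    · congr 1
      rw [eq_iff_iff]
      constructor <;> intro hh <;> push_cast at * <;> linarith
  have hA : ∀ l, l ∈ (O.filter fun lv => (cmpE q T O n (lv.1.headD 0) 0).2).map Prod.fst ↔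
      ∃ lv ∈ O, e n < e (lv.1.headD 0) ∧ lv.1 = l := by
    intro l
    simp only [List.mem_map, List.mem_filter]
    constructor
    · rintro ⟨lv, ⟨h1, h2⟩, h3⟩
      rw [(hcmp lv h1).2, decide_eq_true_iff] at h2
      exact ⟨lv, h1, h2, h3⟩
    · rintro ⟨lv, h1, h2, h3⟩
      refine ⟨lv, ⟨h1, ?_⟩, h3⟩
      rw [(hcmp lv h1).2, decide_eq_true_iff]
      exact h2
  have hD : ∀ l, l ∈ (O.filter fun lv => (cmpE q T O n (lv.1.headD 0) 0).1).map Prod.fst ↔
      ∃ lv ∈ O, e (lv.1.headD 0) < e n ∧ lv.1 = l := by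
    intro l
    simp only [List.mem_map, List.mem_filter]
    constructor
    · rintro ⟨lv, ⟨h1, h2⟩, h3⟩
      rw [(hcmp lv h1).1, decide_eq_true_iff] at h2
      exact ⟨lv, h1, h2, h3⟩
    · rintro ⟨lv, h1, h2, h3⟩
      refine ⟨lv, ⟨h1, ?_⟩, h3⟩
      rw [(hcmp lv h1).1, decide_eq_true_iff]
      exact h2
  have hB : ∀ i, i ∈ (O.filter fun lv => !(cmpE q T O n (lv.1.headD 0) 0).1 &&
      !(cmpE q T O n (lv.1.headD 0) 0).2).flatMap Prod.fst ↔
      ∃ lv ∈ O, e (lv.1.headD 0) = e n ∧ i ∈ lv.1 := by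
    intro i
    simp only [List.mem_flatMap, List.mem_filter]
    constructor
    · rintro ⟨lv, ⟨h1, h2⟩, h3⟩
      rw [(hcmp lv h1).1, (hcmp lv h1).2] at h2
      simp only [Bool.and_eq_true, Bool.not_eq_true', decide_eq_false_iff_not, not_lt] at h2
      exact ⟨lv, h1, le_antisymm h2.2 h2.1, h3⟩
    · rintro ⟨lv, h1, h2, h3⟩
      refine ⟨lv, ⟨h1, ?_⟩, h3⟩
      rw [(hcmp lv h1).1, (hcmp lv h1).2, h2]
      simp
  have hpw : ∀ P : List ℕ × ℕ → Bool, ((O.filter P).map Prod.fst).Pairwise
      fun l l' => e (l'.headD 0) < e (l.headD 0) := by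
    intro P
    exact hS.2.sublist (List.filter_sublist.map Prod.fst)
  refine ⟨⟨?_, ?_⟩, ?_, ?_⟩
  · intro l hl
    unfold insE at hl
    rw [List.mem_append, List.mem_append, hA, hD, List.mem_singleton] at hl
    rcases hl with (⟨lv, h1, _, rfl⟩ | rfl) | ⟨lv, h1, _, rfl⟩
    · exact hmemO lv h1
    · refine ⟨by simp, ?_⟩
      intro i hi
      rw [List.mem_cons, hB] at hi
      simp only [List.headD_cons]
      rcases hi with rfl | ⟨lv, h1, h2, h3⟩
      · rfl
      · rw [(hmemO lv h1).2 i h3, h2]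
    · exact hmemO lv h1
  · unfold insE
    rw [List.pairwise_append, List.pairwise_append]
    refine ⟨⟨hpw _, List.pairwise_singleton _ _, ?_⟩, hpw _, ?_⟩
    · intro l hl l' hl'
      rw [hA] at hl
      rw [List.mem_singleton] at hl'
      obtain ⟨lv, h1, h2, rfl⟩ := hl
      subst hl'
      simpa using h2
    · intro l hl l' hl'
      rw [List.mem_append, hA, List.mem_singleton] at hl
      rw [hD] at hl'
      obtain ⟨lv', h1', h2', rfl⟩ := hl'
      rcases hl with ⟨lv, h1, h2, rfl⟩ | rfl
      · exact h2'.trans h2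
      · simpa using h2'
  · intro i hi
    rcases Nat.lt_succ_iff_lt_or_eq.1 hi with hi | rfl
    · obtain ⟨lv, h1, h2⟩ := hI.cov i hi
      unfold insE
      rcases lt_trichotomy (e n) (e (lv.1.headD 0)) with hlt | heq | hgt
      · exact ⟨lv.1, by
          rw [List.mem_append, List.mem_append, hA]
          exact Or.inl (Or.inl ⟨lv, h1, hlt, rfl⟩), h2⟩
      · refine ⟨_, List.mem_append_left _ (List.mem_append_right _ (List.mem_singleton_self _)), ?_⟩
        rw [List.mem_cons, hB]
        exact Or.inr ⟨lv, h1, heq.symm, h2⟩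
      · exact ⟨lv.1, by
          rw [List.mem_append, hD]
          exact Or.inr ⟨lv, h1, hgt, rfl⟩, h2⟩
    · unfold insE
      exact ⟨_, List.mem_append_left _ (List.mem_append_right _ (List.mem_singleton_self _)),
        List.mem_cons_self⟩
  · intro l hl i hi
    unfold insE at hl
    rw [List.mem_append, List.mem_append, hA, hD, List.mem_singleton] at hl
    rcases hl with (⟨lv, h1, _, rfl⟩ | rfl) | ⟨lv, h1, _, rfl⟩
    · exact (hI.lt lv h1 i hi).trans (Nat.lt_succ_self n)
    · rw [List.mem_cons, hB] at hi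
      rcases hi with rfl | ⟨lv, h1, _, h3⟩
      · exact Nat.lt_succ_self _
      · exact (hI.lt lv h1 i h3).trans (Nat.lt_succ_self n)
    · exact (hI.lt lv h1 i hi).trans (Nat.lt_succ_self n)

theorem addE_inv {q : ℕ} (hq : 2 ≤ q) {T : Tab} {e : ℕ → ℤ} (h : Model q T e) {C n : ℕ} {O : Ord}
    (hI : BInv q e C n O) (hn : n < T.length) (h0 : 0 < n)
    (hC : 2 * (T.map List.length).sum ≤ C) (hC3 : 3 ≤ C) :
    BInv q e C (n + 1) (addE q C T O n) := by
  obtain ⟨hS, hcov, hlt⟩ := insE_spec hq h hI hn h0 hC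
  have hmem : ∀ l, l ∈ insE q T O n ↔ ∃ lv ∈ addE q C T O n, lv.1 = l := by
    intro l
    rw [← map_fst_addE (C := C), List.mem_map]
  have hhead : ∀ l ∈ insE q T O n, l.headD 0 ≤ n := by
    intro l hl
    have h1 := (hS.1 l hl).1
    rcases l with _ | ⟨a, l⟩
    · exact absurd rfl h1
    · have := hlt _ hl a List.mem_cons_self
      simp only [List.headD_cons]
      omega
  refine ⟨?_, ?_, ?_⟩
  · exact ordOK_zip (fun l l' => gapE q C T O (l.headD 0) (l'.headD 0)) _ hS
      fun l hl l' hl' hll => gapE_spec hq h hI hn h0 hC hC3 (hhead l hl) (hhead l' hl') hll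
  · intro i hi
    obtain ⟨l, hl, hil⟩ := hcov i hi
    obtain ⟨lv, h1, rfl⟩ := (hmem l).1 hl
    exact ⟨lv, h1, hil⟩
  · intro lv hlv i hi
    exact hlt lv.1 ((hmem _).2 ⟨lv, hlv, rfl⟩) i hi

theorem build_inv {q : ℕ} (hq : 2 ≤ q) {T : Tab} {e : ℕ → ℤ} (h : Model q T e) {C : ℕ}
    (hC : 2 * (T.map List.length).sum ≤ C) (hC3 : 3 ≤ C) :
    ∀ n ≤ T.length, BInv q e C n ((List.range n).foldl (addE q C T) []) := by
  intro n
  induction n with
  | zero =>
    intro _
    exact ⟨trivial, fun i hi => absurd hi (Nat.not_lt_zero i), fun lv hlv => by simp at hlv⟩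
  | succ n ih =>
    intro hn
    rw [List.range_succ, List.foldl_append, List.foldl_cons, List.foldl_nil]
    rcases Nat.eq_zero_or_pos n with rfl | h0
    · have hA : ∃ g, addE q C T [] 0 = [([0], g)] := ⟨gapE q C T [] 0 0, by simp [addE, insE]⟩
      obtain ⟨g, hg⟩ := hA
      rw [List.range_zero, List.foldl_nil, hg]
      refine ⟨⟨by simp, ?_, trivial, ?_⟩, ?_, ?_⟩
      · intro i hi
        rw [List.mem_singleton] at hi
        subst hi
        rfl
      · intro l' hl'
        simp at hl'
      · intro i hi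
        exact ⟨([0], g), by simp, by simp; omega⟩
      · intro lv hlv i hi
        rw [List.mem_singleton] at hlv
        subst hlv
        rw [List.mem_singleton] at hi
        omega
    · exact addE_inv hq h (ih (by omega)) (by omega) h0 hC hC3

theorem sgnQ_spec {q : ℕ} (hq : 2 ≤ q) {T : Tab} {e : ℕ → ℤ} {M : Mark} (h : Model q T e)
    (hM : Below T.length M) :
    (sgnQ q T M).1 = decide (0 < mv q e M) ∧ (sgnQ q T M).2 = decide (mv q e M < 0) := by
  have hI := build_inv hq h (C := capE T M) (by unfold capE; omega) (by unfold capE; omega)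
    T.length le_rfl
  exact evalO_spec hq hI.ok hI.cov hM (by unfold capE; omega)

end Pool.Agent.OR1
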