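import Mathlib
import Pool.Agent.Lib.PolyTime.Bin

/-!
# Project OR1: the word problem of iterated Baumslag-Gersten one-relator groups

Definitions: numbers (tables and markings), words with compressed exponents, the algorithm.

A *table* `T` is a list of *markings*; node `i` of the table stands for the number `b ^ e i`, where
the integer `e i` is the value of the `i`-th marking, and the value of a marking is the signed sum
of the nodes to which it refers.
-/

namespace Pool.Agent.OR1

open Pool.Agent.Lib.PT

/-! ### Numbers -/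

/-- a marking: signed references to nodes (`true` = plus) -/
abbrev Mark := List (Bool × ℕ)

/-- a table of nodes -/
abbrev Tab := List Mark

/-- sign -/
def sg (s : Bool) : ℚ := bif s then 1 else -1

/-- value of a marking; `e i` is the exponent of node `i` -/
def mv (b : ℤ) (e : ℕ → ℤ) (M : Mark) : ℚ := (M.map fun p => sg p.1 * (b : ℚ) ^ e p.2).sum

/-- all references are `< n` -/
def Below (n : ℕ) (M : Mark) : Prop := ∀ p ∈ M, p.2 < n

/-- the value is an integer -/
def IsZ (b : ℤ) (e : ℕ → ℤ) (M : Mark) : Prop := ∃ z : ℤ, mv b e M = z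

/-- the integer value -/
def iv (b : ℤ) (e : ℕ → ℤ) (M : Mark) : ℤ := ⌊mv b e M⌋

/-- `e` gives the exponents of the nodes of the table `T`; node `0` is the number `1` -/
structure Model (b : ℤ) (T : Tab) (e : ℕ → ℤ) : Prop where
  zero : T[0]? = some []
  ok : ∀ i M, T[i]? = some M → Below i M ∧ mv b e M = e i

/-- `(T', e')` extends `(T, e)` -/
structure Ext (b : ℤ) (T : Tab) (e : ℕ → ℤ) (T' : Tab) (e' : ℕ → ℤ) : Prop where
  model : Model b T' e'
  pre : T <+: T'
  agree : ∀ i < T.length, e' i = e i

/-- negation -/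
def negm (M : Mark) : Mark := M.map fun p => (!p.1, p.2)

/-- `M` if `s`, otherwise `-M` -/
def smul (s : Bool) (M : Mark) : Mark := bif s then M else negm M

/-- table after the operation `r, m ↦ r * b ^ (-m)` -/
def scaleTab (T : Tab) (r m : Mark) : Tab := T ++ r.map fun p => T.getD p.2 [] ++ negm m

/-- marking of `r * b ^ (-m)` in `scaleTab T r m` -/
def scaleMark (T : Tab) (r : Mark) : Mark :=
  (r.zip (List.range r.length)).map fun p => (p.1.1, T.length + p.2)

/-- a number system: base `b`, a sign test and a test for integrality -/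
structure NumSys where
  b : ℤ
  hb : b ≠ 0
  /-- `(value > 0, value < 0)` -/
  sgn : Tab → Mark → Bool × Bool
  isInt : Tab → Mark → Bool
  sgn_spec : ∀ T e M, Model b T e → Below T.length M →
    (sgn T M).1 = decide (0 < mv b e M) ∧ (sgn T M).2 = decide (mv b e M < 0)
  isInt_spec : ∀ T e M, Model b T e → Below T.length M → (isInt T M = true ↔ IsZ b e M)
  sgn_poly : PolyTime (fun p : Tab × Mark => sgn p.1 p.2)
  isInt_poly : PolyTime (fun p : Tab × Mark => isInt p.1 p.2)

/-- zero test -/
def NumSys.isZ (S : NumSys) (T : Tab) (M : Mark) : Bool := !(S.sgn T M).1 && !(S.sgn T M).2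

/-! ### Words -/

/-- words `x_{i₁} ^ M₁ x_{i₂} ^ M₂ ...` -/
abbrev Word := List (ℕ × Mark)

/-- total weight -/
def wt (w : Word) : ℕ := (w.map fun s => s.2.length).sum

/-- the word is meaningful in the group with letters `x_0, ..., x_k` -/
def WOk (b : ℤ) (T : Tab) (e : ℕ → ℤ) (k : ℕ) (w : Word) : Prop :=
  ∀ s ∈ w, s.1 ≤ k ∧ Below T.length s.2 ∧ IsZ b e s.2

/-- value of a word in a group -/
def wv {G : Type*} [Group G] (b : ℤ) (e : ℕ → ℤ) (x : ℕ → G) (w : Word) : G :=
  (w.map fun s => x s.1 ^ iv b e s.2).prod

/-! ### The base group `⟨a, t | t⁻¹ a t = a ^ b⟩` -/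

/-- one step of the evaluation: state `(T, r, m)` stands for `a ^ r t ^ m` -/
def bstep (st : Tab × Mark × Mark) (s : ℕ × Mark) : Tab × Mark × Mark :=
  bif s.1 == 0 then
    (scaleTab st.1 s.2 st.2.2, st.2.1 ++ scaleMark st.1 s.2, st.2.2)
  else (st.1, st.2.1, st.2.2 ++ s.2)

/-- evaluation of a word -/
def beval (T : Tab) (w : Word) : Tab × Mark × Mark := w.foldl bstep (T, [], [])

/-- membership in the cyclic subgroup generated by the letter `c` (`0`: `a`, otherwise `t`);
the answer is the exponent (a list with one element) or `[]` -/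
def mem1 (S : NumSys) (T : Tab) (w : Word) (c : ℕ) : Tab × List Mark :=
  let st := beval T w
  (st.1, bif c == 0 then (bif S.isZ st.1 st.2.2 && S.isInt st.1 st.2.1 then [st.2.1] else [])
    else (bif S.isZ st.1 st.2.1 then [st.2.2] else []))

/-! ### One more letter -/

/-- description of a new letter `y`: `none`: free letter; `some (u, v, s)`:
`y⁻¹ x_u y = x_v ^ (± 1)` (plus if `s`) -/
abbrev Lett := Option (ℕ × ℕ × Bool)

/-- test for the associated subgroups: `a = true` : is the word in `⟨x_u⟩`, then the answer is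
`(word = 1?, the word ± x_v ^ exponent)`; `a = false`: the same with `x_v`, `x_u` exchanged -/
def assoc (S : NumSys) (mem : Tab → Word → ℕ → Tab × List Mark) (d : Lett) (a : Bool) (T : Tab)
    (w : Word) : Tab × List (Bool × Word) :=
  match d with
  | none =>
    let r := mem T w 0
    (r.1, bif !r.2.isEmpty && S.isZ r.1 (r.2.headD []) then [(true, [])] else [])
  | some (u, v, s) =>
    let r := mem T w (bif a then u else v)
    (r.1, r.2.map fun M => (S.isZ r.1 M, [(bif a then v else u, smul s M)]))

/-- state of the reduction: `(T, stack, current word, pending power of the letter, input)`; the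
stack `[(g_{s-1}, N_s), ..., (g_0, N_1)]` stands for `g_0 y ^ N_1 g_1 y ^ N_2 ... g_{s-1} y ^ N_s` -/
abbrev RSt := Tab × List (Word × Mark) × Word × Mark × Word

/-- one step of the reduction; `k` is the index of the letter `y` -/
def redStep (S : NumSys) (k : ℕ) (τ : Bool → Tab → Word → Tab × List (Bool × Word))
    (st : RSt) : RSt :=
  let T := st.1
  let stk := st.2.1
  let cur := st.2.2.1
  let P := st.2.2.2.1
  let inp := st.2.2.2.2
  bif S.isZ T P then
    bif inp.isEmpty then (T, stk, cur, P, inp)
    else
      bif (inp.headD (0, [])).1 == k then (T, stk, cur, (inp.headD (0, [])).2, inp.tail)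
      else (T, stk, cur ++ [inp.headD (0, [])], [], inp.tail)
  else
    bif stk.isEmpty then (T, [(cur, P)], [], [], inp)
    else
      let g := (stk.headD ([], [])).1
      let N := (stk.headD ([], [])).2
      let dn : Bool := (S.sgn T N).2 && (S.sgn T P).1
      let up : Bool := (S.sgn T N).1 && (S.sgn T P).2
      bif dn || up then
        let r := τ dn T cur
        bif r.2.isEmpty then (r.1, (cur, P) :: stk, [], [], inp)
        else
          bif (r.2.headD (true, [])).1 then (r.1, stk.tail, g, N ++ P, inp)
          else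
            let N1 := N ++ [(dn, 0)]
            let P1 := P ++ [(!dn, 0)]
            let y := (r.2.headD (true, [])).2
            bif S.isZ r.1 N1 then (r.1, stk.tail, g ++ y, P1, inp)
            else bif S.isZ r.1 P1 then (r.1, (g, N1) :: stk.tail, y, [], inp)
            else (r.1, (y, P1) :: (g, N1) :: stk.tail, [], [], inp)
      else (T, (cur, P) :: stk, [], [], inp)

/-- the reduction -/
def red (S : NumSys) (k : ℕ) (τ : Bool → Tab → Word → Tab × List (Bool × Word)) (T : Tab)
    (w : Word) : RSt :=
  (redStep S k τ)^[3 * w.length + 1] (T, [], [], [], w)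

/-- exponent sum of the letter `k` -/
def ksum (k : ℕ) (w : Word) : Mark := (w.filter fun s => s.1 == k).flatMap fun s => s.2

/-- membership in `⟨x_c⟩` in the extended group with new letter `k` -/
def memS (S : NumSys) (k : ℕ) (τ : Bool → Tab → Word → Tab × List (Bool × Word))
    (mem : Tab → Word → ℕ → Tab × List Mark) (T : Tab) (w : Word) (c : ℕ) : Tab × List Mark :=
  let r := red S k τ T (bif c == k then w ++ [(k, negm (ksum k w))] else w)
  bif !r.2.1.isEmpty then (r.1, [])
  else
    let o := mem r.1 r.2.2.1 (bif c == k then 0 else c)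
    bif c == k then
      (o.1, bif !o.2.isEmpty && S.isZ o.1 (o.2.headD []) then [ksum k w] else [])
    else o

/-- membership test in the group with the letters described by `D` (last letter first) -/
def memL (S : NumSys) : List Lett → Tab → Word → ℕ → Tab × List Mark
  | [] => mem1 S
  | d :: D => memS S (D.length + 2) (assoc S (memL S D) d) (memL S D)

/-- the description is meaningful -/
def DOk : List Lett → Prop
  | [] => True
  | none :: D => DOk D
  | some (u, v, _) :: D => u ≠ v ∧ u < D.length + 2 ∧ v < D.length + 2 ∧ DOk D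

/-! ### Specification -/

/-- `x 0, ..., x (k - 1)` have infinite order and generate cyclic groups with trivial
intersections -/
structure Lev {G : Type*} [Group G] (k : ℕ) (x : ℕ → G) : Prop where
  inf : ∀ i < k, ∀ z : ℤ, x i ^ z = 1 → z = 0
  triv : ∀ i < k, ∀ j < k, i ≠ j → ∀ a c : ℤ, x i ^ a = x j ^ c → a = 0

/-- correctness of a membership test for the letters `x 0, ..., x (k - 1)` -/
def MemSpec (b : ℤ) {G : Type*} [Group G] (k : ℕ) (x : ℕ → G)
    (mem : Tab → Word → ℕ → Tab × List Mark) : Prop :=
  ∀ T e w c, Model b T e → WOk b T e (k - 1) w → c < k →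
    ∃ e', Ext b T e (mem T w c).1 e' ∧
      (((mem T w c).2 = [] ∧ wv b e x w ∉ Subgroup.zpowers (x c)) ∨
      ∃ M, (mem T w c).2 = [M] ∧ Below (mem T w c).1.length M ∧ IsZ b e' M ∧
        wv b e x w = x c ^ iv b e' M)

/-- correctness of the tests for the associated subgroups `A` and `B`, `φ : A ≃* B` -/
def TauSpec (b : ℤ) {G : Type*} [Group G] (k : ℕ) (x : ℕ → G) (A B : Subgroup G) (φ : A ≃* B)
    (τ : Bool → Tab → Word → Tab × List (Bool × Word)) : Prop :=
  ∀ T e w, Model b T e → WOk b T e (k - 1) w →
    (∃ e', Ext b T e (τ true T w).1 e' ∧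
      (((τ true T w).2 = [] ∧ wv b e x w ∉ A) ∨
      ∃ z w', (τ true T w).2 = [(z, w')] ∧ WOk b (τ true T w).1 e' (k - 1) w' ∧
        ∃ h : wv b e x w ∈ A, wv b e' x w' = φ ⟨_, h⟩ ∧ (z = true ↔ wv b e x w = 1))) ∧
    (∃ e', Ext b T e (τ false T w).1 e' ∧
      (((τ false T w).2 = [] ∧ wv b e x w ∉ B) ∨
      ∃ z w', (τ false T w).2 = [(z, w')] ∧ WOk b (τ false T w).1 e' (k - 1) w' ∧
        ∃ h : wv b e x w ∈ B, wv b e' x w' = φ.symm ⟨_, h⟩ ∧ (z = true ↔ wv b e x w = 1)))

end Pool.Agent.OR1
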