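import Pool.Agent.OR1.Ord

/-!
# Correctness of the evaluation

PROOF.  Horner's rule from the top level down.  Write `w_l` for the number of items of `M` in the
level `l` (every item lies in exactly one level: in some level by `hc`, and the exponents of
different levels are different).  State `(p, n)` after the levels above the current one, one of
`p, n` is zero; put `x = p - n ∈ ℤ`, and let `a ∈ ℤ` be the true partial sum in units of the
current level (so the value of `M` is `(a * q ^ e_top + sum of the remaining items)` with `e_top`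
the exponent of the next level to be processed), `R` = number of items of `M` in the remaining
levels.  Invariant: `x = a` or (`R < |x|`, `R < |a|`, same sign).
Step: `x' = ` (x + c) * q ^ g cut at `cap = M.length + 1` where `|c| ≤ w_l`, `R' = R - w_l`,
`a' = (a + c) * q ^ (true gap)`.  If the gap is cut then `W < q ^ g` and `M.length ≤ W`, so
`x + c = 0` or the cut product is `cap`; note `cap = M.length + 1 > R'`.
At the end `R = 0` and the sign of `x` is the sign of `a`.

It is convenient to prove first, by induction on the list of levels `O`, for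
`run O (p, n) = O.foldl (evStep q cap M) (p, n)` the statement above, where the remaining value is
`(O.map fun lv => (cnt M lv.1 true - cnt M lv.1 false) * q ^ e (lv.1.headD 0)).sum`, and then to
show that `mv q e M` is this sum for the whole list (induction on `M`).
-/

namespace Pool.Agent.OR1

open Pool.Agent.Lib.PT

private theorem Eval_memN_iff (i : ℕ) (l : List ℕ) : memN i l = true ↔ i ∈ l := by
  simp [memN]

private theorem Eval_cnt_cons (p : Bool × ℕ) (M : Mark) (l : List ℕ) (s : Bool) :
    cnt (p :: M) l s = (if p.1 = s ∧ p.2 ∈ l then 1 else 0) + cnt M l s := by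
  unfold cnt
  rw [List.filter_cons]
  by_cases h : p.1 = s ∧ p.2 ∈ l
  · have h1 : ((p.1 == s) && memN p.2 l) = true := by
      simp [h.1, (Eval_memN_iff _ _).2 h.2]
    rw [if_pos h1, if_pos h, List.length_cons, add_comm]
  · have h1 : ¬ ((p.1 == s) && memN p.2 l) = true := by
      intro h2
      rw [Bool.and_eq_true, beq_iff_eq, Eval_memN_iff] at h2
      exact h h2
    rw [if_neg h1, if_neg h, zero_add]

private theorem Eval_lt_head {q : ℕ} {e : ℕ → ℤ} {W : ℕ} : ∀ (O : Ord) (l : List ℕ) (g : ℕ),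
    OrdOK q e W ((l, g) :: O) → ∀ lv ∈ O, e (lv.1.headD 0) < e (l.headD 0)
  | [], _, _, _, lv, hlv => by simp at hlv
  | (l', g') :: O, l, g, h, lv, hlv => by
    have h1 : e (l'.headD 0) < e (l.headD 0) := (h.2.2.2 l' (by simp)).1
    rcases List.mem_cons.1 hlv with h2 | h2
    · rw [h2]; exact h1
    · exact (Eval_lt_head O l' g' h.2.2.1 lv h2).trans h1

/-- sum over the levels containing `i` -/
private theorem Eval_sum_level {β : Type*} [AddCommMonoid β] (F : ℤ → β) {q : ℕ} {e : ℕ → ℤ}
    {W : ℕ} (i : ℕ) : ∀ (O : Ord), OrdOK q e W O →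
    ((O.map fun lv => if i ∈ lv.1 then F (e (lv.1.headD 0)) else 0).sum =
      if ∃ lv ∈ O, i ∈ lv.1 then F (e i) else 0)
  | [], _ => by simp
  | (l, g) :: O, h => by
    rw [List.map_cons, List.sum_cons, Eval_sum_level F i O h.2.2.1]
    by_cases hi : i ∈ l
    · have hne : ¬ ∃ lv ∈ O, i ∈ lv.1 := by
        rintro ⟨lv, hlv, hil⟩
        have h1 := Eval_lt_head O l g h lv hlv
        have h2 : e i = e (l.headD 0) := h.2.1 i hi
        have h3 : e i = e (lv.1.headD 0) := by
          clear h1
          have : ∀ (O : Ord), OrdOK q e W O → ∀ lv ∈ O, ∀ j ∈ lv.1, e j = e (lv.1.headD 0) := by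
            intro O
            induction O with
            | nil => intro _ lv hlv; simp at hlv
            | cons a O ih =>
              intro h lv hlv j hj
              rcases List.mem_cons.1 hlv with h4 | h4
              · subst h4; exact h.2.1 j hj
              · exact ih h.2.2.1 lv h4 j hj
          exact this O h.2.2.1 lv hlv i hil
        omega
      rw [if_pos hi, if_neg hne, if_pos ⟨(l, g), List.mem_cons_self, hi⟩, add_zero,
        h.2.1 i hi]
    · rw [if_neg hi, zero_add]
      congr 1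
      rw [eq_iff_iff]
      constructor
      · rintro ⟨lv, hlv, hil⟩
        exact ⟨lv, List.mem_cons_of_mem _ hlv, hil⟩
      · rintro ⟨lv, hlv, hil⟩
        rcases List.mem_cons.1 hlv with h4 | h4
        · subst h4; exact absurd hil hi
        · exact ⟨lv, h4, hil⟩

/-- number of items in the levels -/
private def Eval_tot (M : Mark) (O : Ord) : ℕ :=
  (O.map fun lv => cnt M lv.1 true + cnt M lv.1 false).sum

/-- value of the items in the levels -/
private def Eval_rem (q : ℕ) (e : ℕ → ℤ) (M : Mark) (O : Ord) : ℚ :=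
  (O.map fun lv => ((cnt M lv.1 true : ℚ) - cnt M lv.1 false) *
    (q : ℚ) ^ e (lv.1.headD 0)).sum

private theorem Eval_tot_le {q : ℕ} {e : ℕ → ℤ} {W : ℕ} {O : Ord} (h : OrdOK q e W O) :
    ∀ M : Mark, Eval_tot M O ≤ M.length
  | [] => by simp [Eval_tot, cnt]
  | p :: M => by
    have h1 : Eval_tot (p :: M) O =
        (O.map fun lv => if p.2 ∈ lv.1 then 1 else 0).sum + Eval_tot M O := by
      unfold Eval_tot
      rw [← List.sum_map_add]
      congr 1
      apply List.map_congr_left
      intro lv _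
      rw [Eval_cnt_cons, Eval_cnt_cons]
      rcases p with ⟨s, i⟩
      cases s <;> by_cases hi : i ∈ lv.1 <;> simp [hi] <;> ring
    have h2 := Eval_sum_level (fun _ => (1 : ℕ)) p.2 O h
    rw [h1, h2, List.length_cons]
    have h3 := Eval_tot_le h M
    split_ifs <;> omega

private theorem Eval_rem_eq {q : ℕ} {e : ℕ → ℤ} {W n : ℕ} {O : Ord} (h : OrdOK q e W O)
    (hc : ∀ i < n, ∃ lv ∈ O, i ∈ lv.1) :
    ∀ M : Mark, Below n M → mv q e M = Eval_rem q e M O
  | [], _ => by simp [Eval_rem, cnt]
  | p :: M, hM => by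
    have h1 : Eval_rem q e (p :: M) O =
        (O.map fun lv => if p.2 ∈ lv.1 then sg p.1 * (q : ℚ) ^ e (lv.1.headD 0) else 0).sum +
          Eval_rem q e M O := by
      unfold Eval_rem
      rw [← List.sum_map_add]
      congr 1
      apply List.map_congr_left
      intro lv _
      rw [Eval_cnt_cons, Eval_cnt_cons]
      rcases p with ⟨s, i⟩
      cases s <;> by_cases hi : i ∈ lv.1 <;> simp [hi] <;> ring
    have h2 := Eval_sum_level (fun z => sg p.1 * (q : ℚ) ^ z) p.2 O h
    have h3 : Below n M := fun r hr => hM r (List.mem_cons_of_mem _ hr)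
    have h4 := hc p.2 (hM p List.mem_cons_self)
    rw [h1, h2, if_pos h4, mv_cons, Eval_rem_eq h hc M h3]
    push_cast
    rfl

private theorem Eval_mulCap {q cap : ℕ} (hq : 2 ≤ q) (hcap : 0 < cap) : ∀ (g x : ℕ),
    0 < x → mulCap q cap g x = x * q ^ g ∨
      (mulCap q cap g x = cap ∧ cap ≤ x * q ^ g)
  | 0, x, _ => by simp [mulCap]
  | g + 1, x, hx => by
    have hs : mulCap q cap (g + 1) x = min (mulCap q cap g x * q) cap := by
      unfold mulCap
      rw [Function.iterate_succ_apply']
    rw [hs]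
    have hp : x * q ^ (g + 1) = x * q ^ g * q := by ring
    rcases Eval_mulCap hq hcap g x hx with h | ⟨h, h2⟩
    · rw [h, hp]
      rcases le_total (x * q ^ g * q) cap with h3 | h3
      · left; exact min_eq_left h3
      · right; exact ⟨min_eq_right h3, h3⟩
    · right
      rw [h, hp]
      constructor
      · apply min_eq_right
        nlinarith
      · nlinarith

private theorem Eval_mulCap_zero {q cap : ℕ} : ∀ (g : ℕ), mulCap q cap g 0 = 0
  | 0 => rfl
  | g + 1 => by
    have hs : mulCap q cap (g + 1) 0 = min (mulCap q cap g 0 * q) cap := by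
      unfold mulCap
      rw [Function.iterate_succ_apply']
    rw [hs, Eval_mulCap_zero g]
    simp

/-- the signed version of `mulCap` -/
private def Eval_sm (q cap g : ℕ) (y : ℤ) : ℤ :=
  (mulCap q cap g y.toNat : ℤ) - mulCap q cap g (-y).toNat

private theorem Eval_sm_spec {q cap g : ℕ} (hq : 2 ≤ q) (hcap : 0 < cap) (y : ℤ) :
    Eval_sm q cap g y = y * q ^ g ∨
      (|Eval_sm q cap g y| = cap ∧ (cap : ℤ) ≤ |y * q ^ g| ∧ 0 < Eval_sm q cap g y * y) := by
  unfold Eval_sm
  rcases lt_trichotomy y 0 with hy | hy | hy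
  · obtain ⟨k, hk⟩ : ∃ k : ℕ, -y = k := ⟨(-y).toNat, by omega⟩
    have hk0 : 0 < k := by omega
    have h1 : y.toNat = 0 := by omega
    have h2 : (-y).toNat = k := by omega
    have hyk : y = -(k : ℤ) := by omega
    rw [h1, h2, Eval_mulCap_zero]
    rcases Eval_mulCap hq hcap g k hk0 with h | ⟨h, h3⟩
    · left; rw [h, hyk]; push_cast; ring
    · right
      rw [h, hyk]
      refine ⟨?_, ?_, ?_⟩
      · simp
      · rw [neg_mul, abs_neg, abs_of_nonneg (by positivity)]
        exact_mod_cast h3
      · have : (0 : ℤ) < cap := by exact_mod_cast hcap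
        have hk' : (0 : ℤ) < k := by exact_mod_cast hk0
        have : (0 : ℤ) < cap * k := mul_pos this hk'
        push_cast
        nlinarith
  · left; subst hy; simp
  · obtain ⟨k, hk⟩ : ∃ k : ℕ, y = k := ⟨y.toNat, by omega⟩
    have hk0 : 0 < k := by omega
    have h1 : y.toNat = k := by omega
    have h2 : (-y).toNat = 0 := by omega
    rw [h1, h2, Eval_mulCap_zero, hk]
    rcases Eval_mulCap hq hcap g k hk0 with h | ⟨h, h3⟩
    · left; rw [h]; push_cast; ring
    · right
      rw [h]
      refine ⟨?_, ?_, ?_⟩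
      · simp
      · rw [abs_of_nonneg (by positivity)]
        exact_mod_cast h3
      · have : (0 : ℤ) < cap := by exact_mod_cast hcap
        have hk' : (0 : ℤ) < k := by exact_mod_cast hk0
        have : (0 : ℤ) < cap * k := mul_pos this hk'
        push_cast
        nlinarith

/-- the invariant -/
private def Eval_Inv (x a : ℤ) (R : ℕ) : Prop :=
  x = a ∨ ((R : ℤ) < |x| ∧ (R : ℤ) < |a| ∧ 0 < x * a)

private theorem Eval_Inv_add {x a : ℤ} {R w : ℕ} (h : Eval_Inv x a (w + R)) {c : ℤ}
    (hc : |c| ≤ w) : Eval_Inv (x + c) (a + c) R := by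
  rcases h with h | ⟨h1, h2, h3⟩
  · left; rw [h]
  · right
    rw [abs_le] at hc
    push_cast at h1 h2
    rcases mul_pos_iff.1 h3 with ⟨hx, ha⟩ | ⟨hx, ha⟩
    · rw [abs_of_pos hx] at h1
      rw [abs_of_pos ha] at h2
      have h4 : (R : ℤ) < x + c := by omega
      have h5 : (R : ℤ) < a + c := by omega
      have h6 : 0 < x + c := by omega
      have h7 : 0 < a + c := by omega
      exact ⟨by rwa [abs_of_pos h6], by rwa [abs_of_pos h7], mul_pos h6 h7⟩
    · rw [abs_of_neg hx] at h1
      rw [abs_of_neg ha] at h2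
      have h4 : (R : ℤ) < -(x + c) := by omega
      have h5 : (R : ℤ) < -(a + c) := by omega
      have h6 : x + c < 0 := by omega
      have h7 : a + c < 0 := by omega
      exact ⟨by rwa [abs_of_neg h6], by rwa [abs_of_neg h7], mul_pos_of_neg_of_neg h6 h7⟩

private theorem Eval_Inv_mul {q cap g d : ℕ} (hq : 2 ≤ q) {y b : ℤ} {R : ℕ}
    (h : Eval_Inv y b R) (hcap : R < cap) (hg : g = d ∨ (g ≤ d ∧ R < q ^ g)) :
    Eval_Inv (Eval_sm q cap g y) (b * q ^ d) R := by
  have hcap0 : 0 < cap := by omega
  have hqd : ∀ k : ℕ, (1 : ℤ) ≤ (q : ℤ) ^ k := fun k => one_le_pow₀ (by omega)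
  have hq0 : ∀ k : ℕ, (0 : ℤ) < (q : ℤ) ^ k := fun k => lt_of_lt_of_le one_pos (hqd k)
  by_cases hy : y = 0
  · have hb : b = 0 := by
      rcases h with h | ⟨h1, _, _⟩
      · omega
      · rw [hy, abs_zero] at h1
        omega
    left
    rw [hy, hb]
    unfold Eval_sm
    simp [Eval_mulCap_zero]
  have hb : b ≠ 0 := by
    rcases h with h | ⟨_, h1, _⟩
    · omega
    · rintro rfl
      rw [abs_zero] at h1
      omega
  have hyb : 0 < y * b := by
    rcases h with h | ⟨_, _, h1⟩
    · rw [h]; exact mul_self_pos.2 hb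
    · exact h1
  -- sign of the result
  have hsgn : 0 < Eval_sm q cap g y * (b * q ^ d) := by
    rcases Eval_sm_spec (g := g) hq hcap0 y with h1 | ⟨_, _, h1⟩
    · rw [h1]
      have := mul_pos hyb (mul_pos (hq0 g) (hq0 d))
      nlinarith
    · have h2 : 0 < Eval_sm q cap g y * b := by
        rcases mul_pos_iff.1 h1 with ⟨h3, h4⟩ | ⟨h3, h4⟩
        · have : 0 < b := (mul_pos_iff_of_pos_left h4).1 hyb
          exact mul_pos h3 this
        · have : b < 0 := by nlinarith
          exact mul_pos_of_neg_of_neg h3 this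
      have := mul_pos h2 (hq0 d)
      nlinarith
  have habsb : |b * (q : ℤ) ^ d| = |b| * (q : ℤ) ^ d := by
    rw [abs_mul, abs_of_pos (hq0 d)]
  have habsy : |y * (q : ℤ) ^ g| = |y| * (q : ℤ) ^ g := by
    rw [abs_mul, abs_of_pos (hq0 g)]
  have hb1 : 1 ≤ |b| := Int.one_le_abs hb
  have hy1 : 1 ≤ |y| := Int.one_le_abs hy
  rcases hg with hg | ⟨hg, hR⟩
  · subst hg
    rcases h with h | ⟨h1, h2, _⟩
    · subst h
      rcases Eval_sm_spec (g := g) hq hcap0 y with h1 | ⟨h1, h2, _⟩
      · left; exact h1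
      · right
        refine ⟨?_, ?_, hsgn⟩
        · rw [h1]; exact_mod_cast hcap
        · exact lt_of_lt_of_le (by exact_mod_cast hcap) h2
    · right
      refine ⟨?_, ?_, hsgn⟩
      · rcases Eval_sm_spec (g := g) hq hcap0 y with h3 | ⟨h3, _, _⟩
        · rw [h3, habsy]
          have := hqd g
          nlinarith
        · rw [h3]; exact_mod_cast hcap
      · rw [habsb]
        have := hqd g
        nlinarith
  · right
    have hR' : (R : ℤ) < (q : ℤ) ^ g := by exact_mod_cast hR
    have hgd : (q : ℤ) ^ g ≤ (q : ℤ) ^ d := pow_le_pow_right₀ (by omega) hg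
    refine ⟨?_, ?_, hsgn⟩
    · rcases Eval_sm_spec (g := g) hq hcap0 y with h3 | ⟨h3, _, _⟩
      · rw [h3, habsy]
        have := hq0 g
        nlinarith
      · rw [h3]; exact_mod_cast hcap
    · rw [habsb]
      have := hq0 d
      nlinarith

private theorem Eval_step {q cap : ℕ} {M : Mark} {lv : List ℕ × ℕ} {p n : ℕ} {x : ℤ}
    (hx : (p : ℤ) - n = x) :
    ∀ y : ℤ, x + ((cnt M lv.1 true : ℤ) - cnt M lv.1 false) = y →
    evStep q cap M (p, n) lv = (mulCap q cap lv.2 y.toNat, mulCap q cap lv.2 (-y).toNat) := by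
  intro y hy
  unfold evStep
  have h1 : (p + cnt M lv.1 true) - (n + cnt M lv.1 false) = y.toNat := by omega
  have h2 : (n + cnt M lv.1 false) - (p + cnt M lv.1 true) = (-y).toNat := by omega
  simp only [h1, h2]

private theorem Eval_pos_toNat {q cap g : ℕ} (hq : 2 ≤ q) (hcap : 0 < cap) (z : ℤ) :
    0 < mulCap q cap g z.toNat ↔ 0 < z := by
  constructor
  · intro h
    by_contra h1
    have : z.toNat = 0 := by omega
    rw [this, Eval_mulCap_zero] at h
    omega
  · intro h
    have hz : 0 < z.toNat := by omega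
    rcases Eval_mulCap hq hcap g z.toNat hz with h1 | ⟨h1, _⟩
    · rw [h1]
      have : 0 < q ^ g := Nat.pow_pos (by omega)
      positivity
    · rw [h1]; exact hcap

private theorem Eval_abs_cnt (a c : ℕ) : |(a : ℤ) - c| ≤ ((a + c : ℕ) : ℤ) := by
  rw [abs_le]
  push_cast
  omega

private theorem Eval_run {q : ℕ} (hq : 2 ≤ q) {e : ℕ → ℤ} {W : ℕ} {M : Mark}
    (hW : M.length ≤ W) : ∀ (O : Ord) (l : List ℕ) (g : ℕ), OrdOK q e W ((l, g) :: O) →
    ∀ (p n : ℕ) (x a : ℤ), (p : ℤ) - n = x → Eval_Inv x a (Eval_tot M ((l, g) :: O)) →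
    (0 < (((l, g) :: O).foldl (evStep q (M.length + 1) M) (p, n)).1 ↔
      0 < (a : ℚ) * (q : ℚ) ^ e (l.headD 0) + Eval_rem q e M ((l, g) :: O)) ∧
    (0 < (((l, g) :: O).foldl (evStep q (M.length + 1) M) (p, n)).2 ↔
      (a : ℚ) * (q : ℚ) ^ e (l.headD 0) + Eval_rem q e M ((l, g) :: O) < 0) := by
  have hcap0 : 0 < M.length + 1 := by omega
  have hqQ : (0 : ℚ) < q := by exact_mod_cast (by omega : 0 < q)
  intro O
  induction O with
  | nil =>
    intro l g hO p n x a hx hI
    have hI1 : Eval_Inv x a (cnt M l true + cnt M l false + 0) := by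
      simpa [Eval_tot] using hI
    have hI2 := Eval_Inv_add (c := (cnt M l true : ℤ) - cnt M l false) hI1
      (Eval_abs_cnt _ _)
    rw [List.foldl_cons, List.foldl_nil, Eval_step hx _ rfl]
    set y : ℤ := x + ((cnt M l true : ℤ) - cnt M l false) with hy
    set b : ℤ := a + ((cnt M l true : ℤ) - cnt M l false) with hb
    have hE : (0 : ℚ) < (q : ℚ) ^ e (l.headD 0) := zpow_pos hqQ _
    have hval : (a : ℚ) * (q : ℚ) ^ e (l.headD 0) + Eval_rem q e M [(l, g)] =
        (b : ℚ) * (q : ℚ) ^ e (l.headD 0) := by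
      simp only [Eval_rem, List.map_cons, List.map_nil, List.sum_cons, List.sum_nil]
      rw [hb]
      push_cast
      ring
    have hs : (0 < y ↔ 0 < b) ∧ (y < 0 ↔ b < 0) := by
      rcases hI2 with h | ⟨h1, h2, h3⟩
      · rw [h]; exact ⟨Iff.rfl, Iff.rfl⟩
      · rcases mul_pos_iff.1 h3 with ⟨h4, h5⟩ | ⟨h4, h5⟩
        · constructor <;> constructor <;> intro <;> omega
        · constructor <;> constructor <;> intro <;> omega
    rw [hval]
    constructor
    · rw [Eval_pos_toNat hq hcap0, hs.1, mul_pos_iff_of_pos_right hE]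
      exact_mod_cast Iff.rfl
    · rw [Eval_pos_toNat hq hcap0]
      have : (b : ℚ) * (q : ℚ) ^ e (l.headD 0) < 0 ↔ b < 0 := by
        rw [mul_neg_iff]
        constructor
        · rintro (⟨_, h⟩ | ⟨h, _⟩)
          · exact absurd h (not_lt.2 hE.le)
          · exact_mod_cast h
        · intro h
          right
          exact ⟨by exact_mod_cast h, hE⟩
      rw [this, ← hs.2]
      constructor <;> intro <;> omega
  | cons lv O ih =>
    intro l g hO p n x a hx hI
    obtain ⟨l', g'⟩ := lv
    have hO' : OrdOK q e W ((l', g') :: O) := hO.2.2.1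
    have hgap := hO.2.2.2 l' (by simp)
    have hI1 : Eval_Inv x a (cnt M l true + cnt M l false + Eval_tot M ((l', g') :: O)) := by
      simpa [Eval_tot] using hI
    have hI2 := Eval_Inv_add (c := (cnt M l true : ℤ) - cnt M l false) hI1
      (Eval_abs_cnt _ _)
    rw [List.foldl_cons, Eval_step hx _ rfl]
    set y : ℤ := x + ((cnt M l true : ℤ) - cnt M l false) with hy
    set b : ℤ := a + ((cnt M l true : ℤ) - cnt M l false) with hb
    obtain ⟨d, hd⟩ : ∃ d : ℕ, (d : ℤ) = e (l.headD 0) - e (l'.headD 0) :=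
      ⟨(e (l.headD 0) - e (l'.headD 0)).toNat, by omega⟩
    have htot : Eval_tot M ((l', g') :: O) ≤ M.length := Eval_tot_le hO' M
    have hg : g = d ∨ (g ≤ d ∧ Eval_tot M ((l', g') :: O) < q ^ g) := by
      rcases hgap.2 with h | ⟨h, h2⟩
      · left; omega
      · right; exact ⟨by omega, by omega⟩
    have hI3 := Eval_Inv_mul (cap := M.length + 1) hq hI2 (by omega) hg
    have key := ih l' g' hO' (mulCap q (M.length + 1) g y.toNat)
      (mulCap q (M.length + 1) g (-y).toNat) (Eval_sm q (M.length + 1) g y) (b * q ^ d)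
      rfl hI3
    have hval : (a : ℚ) * (q : ℚ) ^ e (l.headD 0) + Eval_rem q e M ((l, g) :: (l', g') :: O) =
        ((b * q ^ d : ℤ) : ℚ) * (q : ℚ) ^ e (l'.headD 0) + Eval_rem q e M ((l', g') :: O) := by
      have h1 : Eval_rem q e M ((l, g) :: (l', g') :: O) =
          ((cnt M l true : ℚ) - cnt M l false) * (q : ℚ) ^ e (l.headD 0) +
            Eval_rem q e M ((l', g') :: O) := by
        simp only [Eval_rem, List.map_cons, List.sum_cons]
      have h2 : (q : ℚ) ^ e (l.headD 0) = (q : ℚ) ^ d * (q : ℚ) ^ e (l'.headD 0) := by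
        rw [← zpow_natCast, ← zpow_add₀ hqQ.ne']
        congr 1
        omega
      rw [h1, hb, h2]
      push_cast
      ring
    rw [hval]
    exact key

theorem evalO_spec {q : ℕ} (hq : 2 ≤ q) {e : ℕ → ℤ} {W n : ℕ} {O : Ord} {M : Mark}
    (hO : OrdOK q e W O) (hc : ∀ i < n, ∃ lv ∈ O, i ∈ lv.1) (hM : Below n M)
    (hW : M.length ≤ W) :
    (evalO q O M).1 = decide (0 < mv q e M) ∧ (evalO q O M).2 = decide (mv q e M < 0) := by
  have hval := Eval_rem_eq hO hc M hM
  rcases O with _ | ⟨⟨l, g⟩, O⟩
  · have h0 : mv q e M = 0 := by rw [hval]; simp [Eval_rem]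
    rw [h0]
    simp [evalO]
  · have key := Eval_run hq hW O l g hO 0 0 0 0 (by simp) (Or.inl rfl)
    have h0 : ((0 : ℤ) : ℚ) * (q : ℚ) ^ e (l.headD 0) + Eval_rem q e M ((l, g) :: O) =
        mv q e M := by
      rw [hval]; simp
    rw [h0] at key
    unfold evalO
    constructor
    · exact decide_eq_decide.2 key.1
    · exact decide_eq_decide.2 key.2

end Pool.Agent.OR1
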