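import Pool.Agent.OR1.Grow

/-!
# Polynomial time of the membership tests

PROOF.  Closure lemmas of `Pool/Agent/Lib/PolyTime/Lib.lean` (`PolyTime.foldl` for `beval`,
`PolyTime.iterate` for `red`, with the size bounds from `Grow.lean`).  The size (`sz`) of a state
is bounded by a polynomial in `Z`, `stW`, `stL` when `BdS Z st` (`sz_le_of_length`, `sz_nat`), and
an input `(T, w)` satisfies `BdT Z T`, `BdW Z w`, `wt w ≤ Z`, `w.length ≤ Z` for
`Z = sz (T, w)`.
-/

namespace Pool.Agent.OR1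

open Pool.Agent.Lib.PT

/-- a membership test is computable in polynomial time -/
def PolyM (mem : Tab → Word → ℕ → Tab × List Mark) : Prop :=
  PolyTime (fun p : Tab × Word × ℕ => mem p.1 p.2.1 p.2.2)

/-- the tests for the associated subgroups are computable in polynomial time -/
def PolyT (τ : Bool → Tab → Word → Tab × List (Bool × Word)) : Prop :=
  PolyTime (fun p : Bool × Tab × Word => τ p.1 p.2.1 p.2.2)

/-! ### Sizes -/

theorem RedPoly_sz_mark {Y : ℕ} {M : Mark} (hl : M.length ≤ Y) (hb : BdM Y M) :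
    sz M ≤ Y * (2 * Y + 6) + 1 := by
  have h := sz_le_of_length (B := 2 * Y + 5) hl (by
    rintro ⟨s, i⟩ hp
    have h1 : i ≤ Y := hb _ hp
    have h2 := sz_bool_le s
    rw [sz_pair, sz_nat]
    omega)
  exact h

theorem RedPoly_sz_tab {Y : ℕ} {T : Tab} (h : BdT Y T) :
    sz T ≤ Y * (Y * (2 * Y + 6) + 2) + 1 :=
  sz_le_of_length (B := Y * (2 * Y + 6) + 1) h.1
    (fun M hM => RedPoly_sz_mark (h.2 M hM).1 (h.2 M hM).2)

theorem RedPoly_length_le_wt {w : Word} {s : ℕ × Mark} (hs : s ∈ w) : s.2.length ≤ wt w := by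
  induction w with
  | nil => simp at hs
  | cons r w ih =>
    rw [wt_cons]
    rcases List.mem_cons.1 hs with rfl | h
    · omega
    · have := ih h
      omega

theorem RedPoly_sz_word {Y : ℕ} {w : Word} (hl : w.length ≤ Y) (hw : wt w ≤ Y) (hb : BdW Y w) :
    sz w ≤ Y * (Y * (2 * Y + 6) + 2 * Y + 4) + 1 := by
  refine sz_le_of_length (B := Y * (2 * Y + 6) + 2 * Y + 3) hl ?_
  rintro ⟨i, M⟩ hs
  have h1 : i ≤ Y := (hb _ hs).1
  have h2 : M.length ≤ Y := (RedPoly_length_le_wt hs).trans hw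
  have h3 := RedPoly_sz_mark h2 (hb _ hs).2
  rw [sz_pair, sz_nat]
  omega

theorem RedPoly_stk {stk : List (Word × Mark)} {s : Word × Mark} (hs : s ∈ stk) :
    wt s.1 + s.2.length ≤ (stk.map fun s => wt s.1 + s.2.length).sum ∧
    s.1.length + 1 ≤ (stk.map fun s => s.1.length + 1).sum := by
  induction stk with
  | nil => simp at hs
  | cons r stk ih =>
    simp only [List.map_cons, List.sum_cons]
    rcases List.mem_cons.1 hs with rfl | h
    · omega
    · have := ih h
      omega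

theorem RedPoly_stk_length (stk : List (Word × Mark)) :
    stk.length ≤ (stk.map fun s => s.1.length + 1).sum := by
  induction stk with
  | nil => simp
  | cons r stk ih =>
    simp only [List.map_cons, List.sum_cons, List.length_cons]
    omega

theorem RedPoly_sz_state : ∃ P : Polynomial ℕ, ∀ (Y : ℕ) (st : RSt), BdS Y st → stW st ≤ Y →
    stL st ≤ Y → sz st ≤ P.eval Y := by
  obtain ⟨pM, hpM⟩ : ∃ p : Polynomial ℕ, ∀ x, p.eval x = x * (2 * x + 6) + 1 :=
    ⟨Polynomial.X * (2 * Polynomial.X + 6) + 1, fun x => by simp⟩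
  obtain ⟨pT, hpT⟩ : ∃ p : Polynomial ℕ, ∀ x, p.eval x = x * (x * (2 * x + 6) + 2) + 1 :=
    ⟨Polynomial.X * (Polynomial.X * (2 * Polynomial.X + 6) + 2) + 1, fun x => by simp⟩
  obtain ⟨pW, hpW⟩ : ∃ p : Polynomial ℕ, ∀ x, p.eval x =
      x * (x * (2 * x + 6) + 2 * x + 4) + 1 :=
    ⟨Polynomial.X * (Polynomial.X * (2 * Polynomial.X + 6) + 2 * Polynomial.X + 4) + 1,
      fun x => by simp⟩
  refine ⟨pT + Polynomial.X * (pW + pM + 2) + 2 * pW + pM + 6, ?_⟩
  rintro Y ⟨T, stk, cur, P, inp⟩ ⟨hT, hstk, hcur, hP, hinp⟩ hW hL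
  simp only at hT hstk hcur hP hinp
  simp only [stW, stL] at hW hL
  have h1 := RedPoly_sz_tab hT
  have h2 := RedPoly_sz_word (w := cur) (by omega) (by omega) hcur
  have h3 := RedPoly_sz_mark (M := P) (by omega) hP
  have h4 := RedPoly_sz_word (w := inp) (by omega) (by omega) hinp
  have h6 := RedPoly_stk_length stk
  have h5 : sz stk ≤ Y * ((pW.eval Y + pM.eval Y + 1) + 1) + 1 := by
    refine sz_le_of_length (by omega) ?_
    rintro ⟨g, N⟩ hs
    have h7 := RedPoly_stk hs
    simp only at h7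
    have h8 := RedPoly_sz_word (w := g) (Y := Y) (by omega) (by omega) (hstk _ hs).1
    have h9 := RedPoly_sz_mark (M := N) (Y := Y) (by omega) (hstk _ hs).2
    rw [← hpW] at h8
    rw [← hpM] at h9
    rw [sz_pair]
    omega
  rw [← hpT] at h1
  rw [← hpW] at h2 h4
  rw [← hpM] at h3
  have hev : (pT + Polynomial.X * (pW + pM + 2) + 2 * pW + pM + 6).eval Y =
      pT.eval Y + Y * (pW.eval Y + pM.eval Y + 2) + 2 * pW.eval Y + pM.eval Y + 6 := by
    simp
  rw [hev]
  have h10 : Y * ((pW.eval Y + pM.eval Y + 1) + 1) = Y * (pW.eval Y + pM.eval Y + 2) := by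
    rw [add_assoc (pW.eval Y + pM.eval Y) 1 1]
  simp only [sz_pair]
  omega

theorem RedPoly_bdM {M : Mark} {Z : ℕ} (h : sz M ≤ Z) : M.length ≤ Z ∧ BdM Z M := by
  refine ⟨((length_lt_sz M).le.trans h), ?_⟩
  rintro ⟨s, i⟩ hp
  have h1 := sz_mem_lt hp
  rw [sz_pair, sz_nat] at h1
  show i ≤ Z
  omega

theorem RedPoly_bdT {T : Tab} {Z : ℕ} (h : sz T ≤ Z) : BdT Z T := by
  refine ⟨((length_lt_sz T).le.trans h), ?_⟩
  intro M hM
  exact RedPoly_bdM ((sz_mem_lt hM).le.trans h)

theorem RedPoly_bdW {w : Word} {Z : ℕ} (h : sz w ≤ Z) : BdW Z w := by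
  rintro ⟨i, M⟩ hs
  have h1 := sz_mem_lt hs
  rw [sz_pair, sz_nat] at h1
  exact ⟨by show i ≤ Z; omega, (RedPoly_bdM (show sz M ≤ Z by omega)).2⟩

theorem RedPoly_wt (w : Word) : wt w ≤ sz w := by
  induction w with
  | nil => simp
  | cons s w ih =>
    obtain ⟨i, M⟩ := s
    have h1 := (length_lt_sz M).le
    rw [wt_cons, sz_list_cons, sz_pair]
    simp only
    omega

/-! ### Elementary operations -/

theorem poly_isZ (S : NumSys) {α : Type*} [Enc α] {T : α → Tab} {M : α → Mark}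
    (hT : PolyTime T) (hM : PolyTime M) : PolyTime (fun a => S.isZ (T a) (M a)) := by
  have h : PolyTime (fun a => S.sgn (T a) (M a)) :=
    PolyTime.comp₂ (g := S.sgn) S.sgn_poly hT hM
  exact (h.fst.not).and (h.snd.not)

theorem RedPoly_isInt (S : NumSys) {α : Type*} [Enc α] {T : α → Tab} {M : α → Mark}
    (hT : PolyTime T) (hM : PolyTime M) : PolyTime (fun a => S.isInt (T a) (M a)) :=
  PolyTime.comp₂ (g := S.isInt) S.isInt_poly hT hM

theorem RedPoly_negm {α : Type*} [Enc α] {M : α → Mark} (hM : PolyTime M) :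
    PolyTime (fun a => negm (M a)) :=
  PolyTime.map (f := fun (_ : α) (p : Bool × ℕ) => (!p.1, p.2)) hM
    (PolyTime.id.snd.fst.not.pair PolyTime.id.snd.snd)

theorem RedPoly_beq {α : Type*} [Enc α] {f g : α → ℕ} (hf : PolyTime f) (hg : PolyTime g) :
    PolyTime (fun a => f a == g a) :=
  (hf.eqNat hg).congr fun a => by
    rw [Bool.eq_iff_iff]
    simp

theorem RedPoly_scaleTab {α : Type*} [Enc α] {T : α → Tab} {r m : α → Mark}
    (hT : PolyTime T) (hr : PolyTime r) (hm : PolyTime m) :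
    PolyTime (fun a => scaleTab (T a) (r a) (m a)) := by
  refine hT.append (PolyTime.map (f := fun (a : α) (p : Bool × ℕ) =>
    (T a).getD p.2 [] ++ negm (m a)) hr ?_)
  exact ((hT.comp PolyTime.id.fst).getD PolyTime.id.snd.snd (PolyTime.const [])).append
    (RedPoly_negm (hm.comp PolyTime.id.fst))

theorem RedPoly_scaleMark {α : Type*} [Enc α] {T : α → Tab} {r : α → Mark}
    (hT : PolyTime T) (hr : PolyTime r) :
    PolyTime (fun a => scaleMark (T a) (r a)) := by
  refine PolyTime.map (f := fun (a : α) (p : (Bool × ℕ) × ℕ) =>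
    (p.1.1, (T a).length + p.2)) (hr.zip hr.length.range) ?_
  exact PolyTime.id.snd.fst.fst.pair ((hT.comp PolyTime.id.fst).length.add PolyTime.id.snd.snd)

theorem RedPoly_bstep : PolyTime (fun q : (Tab × Mark × Mark) × (ℕ × Mark) =>
    bstep q.1 q.2) := by
  have hT : PolyTime (fun q : (Tab × Mark × Mark) × (ℕ × Mark) => q.1.1) := PolyTime.id.fst.fst
  have hr : PolyTime (fun q : (Tab × Mark × Mark) × (ℕ × Mark) => q.1.2.1) :=
    PolyTime.id.fst.snd.fst
  have hm : PolyTime (fun q : (Tab × Mark × Mark) × (ℕ × Mark) => q.1.2.2) :=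
    PolyTime.id.fst.snd.snd
  have hi : PolyTime (fun q : (Tab × Mark × Mark) × (ℕ × Mark) => q.2.1) := PolyTime.id.snd.fst
  have hM : PolyTime (fun q : (Tab × Mark × Mark) × (ℕ × Mark) => q.2.2) := PolyTime.id.snd.snd
  exact (RedPoly_beq hi (PolyTime.const 0)).cond
    ((RedPoly_scaleTab hT hM hm).pair ((hr.append (RedPoly_scaleMark hT hM)).pair hm))
    (hT.pair (hr.pair (hm.append hM)))

theorem RedPoly_beval {α : Type*} [Enc α] {T : α → Tab} {w : α → Word}
    (hT : PolyTime T) (hw : PolyTime w) : PolyTime (fun a => beval (T a) (w a)) := by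
  refine PolyTime.comp₂ (g := beval) ?_ hT hw
  refine PolyTime.foldl (α := Tab × Word) (l := fun p => p.2)
    (b := fun p => ((p.1, [], []) : Tab × Mark × Mark))
    (f := fun _ => bstep) PolyTime.id.snd
    (PolyTime.id.fst.pair ((PolyTime.const []).pair (PolyTime.const [])))
    (RedPoly_bstep.comp PolyTime.id.snd) ?_
  obtain ⟨pM, hpM⟩ : ∃ p : Polynomial ℕ, ∀ x, p.eval x = x * (2 * x + 6) + 1 :=
    ⟨Polynomial.X * (2 * Polynomial.X + 6) + 1, fun x => by simp⟩
  obtain ⟨pT, hpT⟩ : ∃ p : Polynomial ℕ, ∀ x, p.eval x = x * (x * (2 * x + 6) + 2) + 1 :=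
    ⟨Polynomial.X * (Polynomial.X * (2 * Polynomial.X + 6) + 2) + 1, fun x => by simp⟩
  refine ⟨(pT + 2 * pM + 2).comp (2 * Polynomial.X + Polynomial.X ^ 2), ?_⟩
  rintro ⟨T, w⟩ i hi
  obtain ⟨Z, hZ⟩ : ∃ Z, Z = sz (T, w) := ⟨_, rfl⟩
  have hev : ((pT + 2 * pM + 2).comp (2 * Polynomial.X + Polynomial.X ^ 2)).eval Z =
      pT.eval (2 * Z + Z ^ 2) + 2 * pM.eval (2 * Z + Z ^ 2) + 2 := by
    simp [Polynomial.eval_comp]
  rw [← hZ, hev]
  rw [sz_pair] at hZ
  show sz ((w.take i).foldl bstep (T, [], [])) ≤ _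
  have hw1 : sz (w.take i) ≤ sz w := sz_take_le w i
  have hwt := RedPoly_wt (w.take i)
  have hT := RedPoly_bdT (T := T) (Z := Z) (by omega)
  have hW := RedPoly_bdW (w := w.take i) (Z := Z) (by omega)
  have hlen := (length_lt_sz (w.take i)).le
  have h := Grow_beval (w.take i) T [] [] Z Z 0 0 (by omega) hW (by simpa using hT.1)
    (by simpa using hT.2) (by simp) Grow_bdM_nil Grow_bdM_nil
  obtain ⟨Y, hY⟩ : ∃ Y, Y = 2 * Z + Z ^ 2 := ⟨_, rfl⟩
  rw [← hY]
  have hmul : (0 + (w.take i).length) * Z ≤ Z ^ 2 := by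
    rw [zero_add, sq]
    exact Nat.mul_le_mul_right _ (by omega)
  generalize (w.take i).foldl bstep (T, [], []) = R at h
  obtain ⟨T', r', m'⟩ := R
  obtain ⟨h1, h2, h3, h4, h5⟩ := h
  simp only at h1 h2 h3 h4 h5
  have hT' : BdT Y T' := ⟨by omega, fun M hM => ⟨by have := (h2 M hM).1; omega,
    Grow_bdM_mono (h2 M hM).2 (by omega)⟩⟩
  have s1 := RedPoly_sz_tab hT'
  have s2 := RedPoly_sz_mark (M := r') (Y := Y) (by omega) (Grow_bdM_mono h4 (by omega))
  have s3 := RedPoly_sz_mark (M := m') (Y := Y) (by omega) (Grow_bdM_mono h5 (by omega))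
  rw [← hpT] at s1
  rw [← hpM] at s2 s3
  simp only [sz_pair]
  omega

theorem poly_mem1 (S : NumSys) : PolyM (mem1 S) := by
  have hT : PolyTime (fun p : Tab × Word × ℕ => p.1) := PolyTime.id.fst
  have hw : PolyTime (fun p : Tab × Word × ℕ => p.2.1) := PolyTime.id.snd.fst
  have hc : PolyTime (fun p : Tab × Word × ℕ => p.2.2) := PolyTime.id.snd.snd
  have hb := RedPoly_beval hT hw
  exact hb.fst.pair ((RedPoly_beq hc (PolyTime.const 0)).cond
    (((poly_isZ S hb.fst hb.snd.snd).and (RedPoly_isInt S hb.fst hb.snd.fst)).cond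
      (hb.snd.fst.cons (PolyTime.const [])) (PolyTime.const []))
    ((poly_isZ S hb.fst hb.snd.fst).cond
      (hb.snd.snd.cons (PolyTime.const [])) (PolyTime.const [])))

theorem poly_assoc (S : NumSys) {mem : Tab → Word → ℕ → Tab × List Mark} (d : Lett)
    (h : PolyM mem) : PolyT (assoc S mem d) := by
  have ha : PolyTime (fun p : Bool × Tab × Word => p.1) := PolyTime.id.fst
  have hT : PolyTime (fun p : Bool × Tab × Word => p.2.1) := PolyTime.id.snd.fst
  have hw : PolyTime (fun p : Bool × Tab × Word => p.2.2) := PolyTime.id.snd.snd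
  rcases d with _ | ⟨u, v, s⟩
  · have hr : PolyTime (fun p : Bool × Tab × Word => mem p.2.1 p.2.2 0) :=
      PolyTime.comp₃ (g := mem) h hT hw (PolyTime.const 0)
    exact hr.fst.pair (((hr.snd.isEmpty.not).and
      (poly_isZ S hr.fst (hr.snd.headD (PolyTime.const [])))).cond
      (PolyTime.const [(true, [])]) (PolyTime.const []))
  · have hr : PolyTime (fun p : Bool × Tab × Word => mem p.2.1 p.2.2 (bif p.1 then u else v)) :=
      PolyTime.comp₃ (g := mem) h hT hw (ha.cond (PolyTime.const u) (PolyTime.const v))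
    refine hr.fst.pair (PolyTime.map (f := fun (p : Bool × Tab × Word) (M : Mark) =>
      (S.isZ (mem p.2.1 p.2.2 (bif p.1 then u else v)).1 M,
        ([(bif p.1 then v else u, smul s M)] : Word))) hr.snd ?_)
    have hM : PolyTime (fun q : (Bool × Tab × Word) × Mark => smul s q.2) := by
      cases s
      · exact RedPoly_negm PolyTime.id.snd
      · exact PolyTime.id.snd
    exact (poly_isZ S (hr.fst.comp PolyTime.id.fst) PolyTime.id.snd).pair
      ((((ha.comp PolyTime.id.fst).cond (PolyTime.const v) (PolyTime.const u)).pair hM).cons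
        (PolyTime.const []))

theorem poly_redStep (S : NumSys) (k : ℕ) {τ : Bool → Tab → Word → Tab × List (Bool × Word)}
    (h : PolyT τ) : PolyTime (fun st : RSt => redStep S k τ st) := by
  have hT : PolyTime (fun st : RSt => st.1) := PolyTime.id.fst
  have hs : PolyTime (fun st : RSt => st.2.1) := PolyTime.id.snd.fst
  have hc : PolyTime (fun st : RSt => st.2.2.1) := PolyTime.id.snd.snd.fst
  have hP : PolyTime (fun st : RSt => st.2.2.2.1) := PolyTime.id.snd.snd.snd.fst
  have hi : PolyTime (fun st : RSt => st.2.2.2.2) := PolyTime.id.snd.snd.snd.snd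
  have hih : PolyTime (fun st : RSt => st.2.2.2.2.headD (0, [])) :=
    hi.headD (PolyTime.const (0, []))
  have hsh : PolyTime (fun st : RSt => st.2.1.headD ([], [])) :=
    hs.headD (PolyTime.const ([], []))
  have sN : PolyTime (fun st : RSt => S.sgn st.1 (st.2.1.headD ([], [])).2) :=
    PolyTime.comp₂ (g := S.sgn) S.sgn_poly hT hsh.snd
  have sP : PolyTime (fun st : RSt => S.sgn st.1 st.2.2.2.1) :=
    PolyTime.comp₂ (g := S.sgn) S.sgn_poly hT hP
  have dn := sN.snd.and sP.fst
  have up := sN.fst.and sP.snd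
  have hr : PolyTime (fun st : RSt => τ ((S.sgn st.1 (st.2.1.headD ([], [])).2).2 &&
      (S.sgn st.1 st.2.2.2.1).1) st.1 st.2.2.1) :=
    PolyTime.comp₃ (g := τ) h dn hT hc
  have hrh := hr.snd.headD (PolyTime.const ((true, []) : Bool × Word))
  have hN1 := hsh.snd.append ((dn.pair (PolyTime.const 0)).cons (PolyTime.const []))
  have hP1 := hP.append ((dn.not.pair (PolyTime.const 0)).cons (PolyTime.const []))
  have nilW : PolyTime (fun _ : RSt => ([] : Word)) := PolyTime.const []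
  have nilM : PolyTime (fun _ : RSt => ([] : Mark)) := PolyTime.const []
  have nilS : PolyTime (fun _ : RSt => ([] : List (Word × Mark))) := PolyTime.const []
  exact (poly_isZ S hT hP).cond
    (hi.isEmpty.cond (hT.pair (hs.pair (hc.pair (hP.pair hi))))
      ((RedPoly_beq hih.fst (PolyTime.const k)).cond
        (hT.pair (hs.pair (hc.pair (hih.snd.pair hi.tail))))
        (hT.pair (hs.pair ((hc.append (hih.cons nilW)).pair (nilM.pair hi.tail))))))
    (hs.isEmpty.cond
      (hT.pair (((hc.pair hP).cons nilS).pair (nilW.pair (nilM.pair hi))))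
      ((dn.or up).cond
        (hr.snd.isEmpty.cond
          (hr.fst.pair (((hc.pair hP).cons hs).pair (nilW.pair (nilM.pair hi))))
          (hrh.fst.cond
            (hr.fst.pair (hs.tail.pair (hsh.fst.pair ((hsh.snd.append hP).pair hi))))
            ((poly_isZ S hr.fst hN1).cond
              (hr.fst.pair (hs.tail.pair ((hsh.fst.append hrh.snd).pair (hP1.pair hi))))
              ((poly_isZ S hr.fst hP1).cond
                (hr.fst.pair (((hsh.fst.pair hN1).cons hs.tail).pair
                  (hrh.snd.pair (nilM.pair hi))))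
                (hr.fst.pair (((hrh.snd.pair hP1).cons ((hsh.fst.pair hN1).cons hs.tail)).pair
                  (nilW.pair (nilM.pair hi))))))))
        (hT.pair (((hc.pair hP).cons hs).pair (nilW.pair (nilM.pair hi))))))

theorem RedPoly_bdS_mono {Z Y : ℕ} {st : RSt} (h : BdS Z st) (hle : Z ≤ Y) : BdS Y st :=
  ⟨Grow_bdT_mono h.1 hle,
    fun s hs => ⟨Grow_bdW_mono (h.2.1 s hs).1 hle, Grow_bdM_mono (h.2.1 s hs).2 hle⟩,
    Grow_bdW_mono h.2.2.1 hle, Grow_bdM_mono h.2.2.2.1 hle, Grow_bdW_mono h.2.2.2.2 hle⟩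

theorem poly_red (S : NumSys) (k : ℕ) {τ : Bool → Tab → Word → Tab × List (Bool × Word)}
    (h : PolyT τ) (hg : ∃ P, GrowT τ P) :
    PolyTime (fun p : Tab × Word => red S k τ p.1 p.2) := by
  have hn : PolyTime (fun p : Tab × Word => 3 * p.2.length + 1) :=
    ((PolyTime.const 3).mul PolyTime.id.snd.length).succ
  refine PolyTime.iterate (α := Tab × Word) (n := fun p => 3 * p.2.length + 1)
    (b := fun p => ((p.1, [], [], [], p.2) : RSt)) (f := fun _ => redStep S k τ) hn
    (PolyTime.id.fst.pair ((PolyTime.const []).pair ((PolyTime.const []).pair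
      ((PolyTime.const []).pair PolyTime.id.snd))))
    ((poly_redStep S k h).comp PolyTime.id.snd) ?_
  obtain ⟨P, hP⟩ := growRed S k hg
  obtain ⟨Q, hQ⟩ := RedPoly_sz_state
  refine ⟨Q.comp (Polynomial.X + P.comp (2 * Polynomial.X)), ?_⟩
  rintro ⟨T, w⟩ i hi
  obtain ⟨Z, hZ⟩ : ∃ Z, Z = sz (T, w) := ⟨_, rfl⟩
  have hev : (Q.comp (Polynomial.X + P.comp (2 * Polynomial.X))).eval Z =
      Q.eval (Z + P.eval (2 * Z)) := by
    simp [Polynomial.eval_comp]
  rw [← hZ, hev]
  rw [sz_pair] at hZ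
  have hwt := RedPoly_wt w
  have hlen := (length_lt_sz w).le
  have q1 : P.eval (wt w + w.length) ≤ P.eval (2 * Z) := poly_mono P (by omega)
  have q2 : P.eval w.length ≤ P.eval (2 * Z) := poly_mono P (by omega)
  obtain ⟨h1, h2, h3⟩ := hP T w Z i (RedPoly_bdT (by omega)) (RedPoly_bdW (by omega)) hi
  show sz ((redStep S k τ)^[i] (T, [], [], [], w)) ≤ _
  exact hQ _ _ (RedPoly_bdS_mono h1 (by omega)) (by omega) (by omega)

theorem RedPoly_ksum (k : ℕ) {α : Type*} [Enc α] {w : α → Word} (hw : PolyTime w) :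
    PolyTime (fun a => ksum k (w a)) :=
  PolyTime.flatMap (f := fun (_ : α) (s : ℕ × Mark) => s.2)
    (PolyTime.filter (f := fun (_ : α) (s : ℕ × Mark) => s.1 == k) hw
      (RedPoly_beq PolyTime.id.snd.fst (PolyTime.const k))) PolyTime.id.snd.snd

theorem poly_memS (S : NumSys) (k : ℕ) {τ : Bool → Tab → Word → Tab × List (Bool × Word)}
    {mem : Tab → Word → ℕ → Tab × List Mark} (hm : PolyM mem) (hτ : PolyT τ)
    (hg : ∃ P, GrowT τ P) : PolyM (memS S k τ mem) := by
  have hT : PolyTime (fun p : Tab × Word × ℕ => p.1) := PolyTime.id.fst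
  have hw : PolyTime (fun p : Tab × Word × ℕ => p.2.1) := PolyTime.id.snd.fst
  have hc : PolyTime (fun p : Tab × Word × ℕ => p.2.2) := PolyTime.id.snd.snd
  have hck : PolyTime (fun p : Tab × Word × ℕ => p.2.2 == k) :=
    RedPoly_beq hc (PolyTime.const k)
  have hks := RedPoly_ksum k hw
  have hw' : PolyTime (fun p : Tab × Word × ℕ =>
      bif p.2.2 == k then p.2.1 ++ [(k, negm (ksum k p.2.1))] else p.2.1) :=
    hck.cond (hw.append (((PolyTime.const k).pair (RedPoly_negm hks)).cons (PolyTime.const [])))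
      hw
  have hr : PolyTime (fun p : Tab × Word × ℕ => red S k τ p.1
      (bif p.2.2 == k then p.2.1 ++ [(k, negm (ksum k p.2.1))] else p.2.1)) :=
    PolyTime.comp₂ (g := red S k τ) (poly_red S k hτ hg) hT hw'
  have ho : PolyTime (fun p : Tab × Word × ℕ => mem (red S k τ p.1
      (bif p.2.2 == k then p.2.1 ++ [(k, negm (ksum k p.2.1))] else p.2.1)).1 (red S k τ p.1
      (bif p.2.2 == k then p.2.1 ++ [(k, negm (ksum k p.2.1))] else p.2.1)).2.2.1
      (bif p.2.2 == k then 0 else p.2.2)) :=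
    PolyTime.comp₃ (g := mem) hm hr.fst hr.snd.snd.fst (hck.cond (PolyTime.const 0) hc)
  exact (hr.snd.fst.isEmpty.not).cond (hr.fst.pair (PolyTime.const []))
    (hck.cond
      (ho.fst.pair (((ho.snd.isEmpty.not).and
        (poly_isZ S ho.fst (ho.snd.headD (PolyTime.const [])))).cond
          (hks.cons (PolyTime.const [])) (PolyTime.const [])))
      ho)

theorem poly_memL (S : NumSys) (D : List Lett) : PolyM (memL S D) ∧ ∃ P, GrowM (memL S D) P := by
  induction D with
  | nil => exact ⟨poly_mem1 S, growM1 S⟩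
  | cons d D ih =>
    exact ⟨poly_memS S _ ih.1 (poly_assoc S d ih.1) (growAssoc S d ih.2),
      growS S _ ih.2 (growAssoc S d ih.2)⟩

end Pool.Agent.OR1
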