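import Pool.Agent.OR1.Tower
import Pool.Agent.OR1.RedPoly
import Pool.Agent.Lib.PolyTime.ToTM2

/-!
# The word problem in polynomial time
-/

namespace Pool.Agent.OR1

open Pool.Agent.Lib.PT

/-- code of a word over `x_0^±1, ..., x_{m-1}^±1` by bits: `x_i` is `1...10s` (`i` ones), `s` the
sign of the exponent -/
def code {m : ℕ} (w : List (Fin m × Bool)) : List Bool :=
  w.flatMap fun p => List.replicate p.1.val true ++ [false, p.2]

/-- decoding: state (number of ones, just read a zero?, word) -/
def dstep (L : List ℕ) (st : ℕ × Bool × Word) (c : Bool) : ℕ × Bool × Word :=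
  bif st.2.1 then (0, false, st.2.2 ++ [(L.getD st.1 0, [(c, 0)])])
  else bif c then (st.1 + 1, false, st.2.2) else (st.1, true, st.2.2)

/-- decoding with the list `L` of the numbers of the letters -/
def decode (L : List ℕ) (v : List Bool) : Word := (v.foldl (dstep L) (0, false, [])).2.2

/-- the decision algorithm -/
def decideW (S : NumSys) (D : List Lett) (L : List ℕ) (v : List Bool) : List Bool :=
  let r := memL S D [[]] (decode L v) 0
  [!r.2.isEmpty && S.isZ r.1 (r.2.headD [])]

theorem Final_getD_le_sum (L : List ℕ) (n : ℕ) : L.getD n 0 ≤ L.sum := by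
  rw [List.getD_eq_getElem?_getD]
  rcases lt_or_ge n L.length with h | h
  · rw [List.getElem?_eq_getElem h]
    exact List.single_le_sum (fun _ _ => Nat.zero_le _) _ (List.getElem_mem h)
  · rw [List.getElem?_eq_none h]
    exact Nat.zero_le _

theorem Final_poly_decode (L : List ℕ) : PolyTime (fun v : List Bool => decode L v) := by
  have hst : PolyTime (fun q : List Bool × (ℕ × Bool × Word) × Bool => dstep L q.2.1 q.2.2) := by
    have h1 : PolyTime (fun q : List Bool × (ℕ × Bool × Word) × Bool => q.2.1.1) :=
      PolyTime.id.snd.fst.fst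
    have h2 : PolyTime (fun q : List Bool × (ℕ × Bool × Word) × Bool => q.2.1.2.1) :=
      PolyTime.id.snd.fst.snd.fst
    have h3 : PolyTime (fun q : List Bool × (ℕ × Bool × Word) × Bool => q.2.1.2.2) :=
      PolyTime.id.snd.fst.snd.snd
    have h4 : PolyTime (fun q : List Bool × (ℕ × Bool × Word) × Bool => q.2.2) :=
      PolyTime.id.snd.snd
    unfold dstep
    exact PolyTime.cond h2
      ((PolyTime.const 0).pair ((PolyTime.const false).pair (h3.append
        (((PolyTime.getD (PolyTime.const L) h1 (PolyTime.const 0)).pair
          ((h4.pair (PolyTime.const 0)).cons (PolyTime.const []))).cons (PolyTime.const [])))))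
      (PolyTime.cond h4 (h1.succ.pair ((PolyTime.const false).pair h3))
        (h1.pair ((PolyTime.const true).pair h3)))
  have h := PolyTime.foldl_add (l := fun v : List Bool => v)
    (b := fun _ : List Bool => ((0, false, []) : ℕ × Bool × Word))
    (f := fun (_ : List Bool) st c => dstep L st c) PolyTime.id (PolyTime.const _) hst (by
      refine ⟨Polynomial.C (2 * L.sum + 30), fun a st c _ => ?_⟩
      rw [Polynomial.eval_C]
      obtain ⟨n, z, w⟩ := st
      have hL := Final_getD_le_sum L n
      have hc := sz_bool_le c
      have ha := sz_append w [(L.getD n 0, [(c, 0)])]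
      cases z
      · cases c
        · simp only [dstep, cond_false, sz_pair, sz_nat, sz_true, sz_false]
          omega
        · simp only [dstep, cond_false, cond_true, sz_pair, sz_nat, sz_false]
          omega
      · simp only [dstep, cond_true, sz_pair, sz_nat, sz_true, sz_false, sz_list_cons,
          sz_list_nil] at ha ⊢
        omega)
  exact h.snd.snd

theorem poly_decideW (S : NumSys) (D : List Lett) (L : List ℕ) :
    PolyTime (decideW S D L) := by
  have hr : PolyTime (fun v : List Bool => memL S D [[]] (decode L v) 0) :=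
    ((poly_memL S D).1).comp
      ((PolyTime.const [[]]).pair ((Final_poly_decode L).pair (PolyTime.const 0)))
  have h : PolyTime (fun v : List Bool =>
      [!(memL S D [[]] (decode L v) 0).2.isEmpty &&
        S.isZ (memL S D [[]] (decode L v) 0).1 ((memL S D [[]] (decode L v) 0).2.headD [])]) :=
    (PolyTime.and hr.snd.isEmpty.not (poly_isZ S hr.fst (hr.snd.headD (PolyTime.const [])))).cons
      (PolyTime.const [])
  exact h

theorem Final_foldl_replicate (L : List ℕ) (i : ℕ) : ∀ (n : ℕ) (W : Word),
    (List.replicate i true).foldl (dstep L) (n, false, W) = (n + i, false, W) := by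
  induction i with
  | zero => intro n W; rfl
  | succ i ih =>
    intro n W
    rw [List.replicate_succ, List.foldl_cons]
    have : dstep L (n, false, W) true = (n + 1, false, W) := rfl
    rw [this, ih]
    congr 1
    omega

theorem Final_decode_code {m : ℕ} (L : List ℕ) (w : List (Fin m × Bool)) :
    decode L (code w) = w.map fun p => (L.getD p.1.val 0, [(p.2, 0)]) := by
  have key : ∀ (w : List (Fin m × Bool)) (W : Word),
      (code w).foldl (dstep L) (0, false, W) =
        (0, false, W ++ w.map fun p => (L.getD p.1.val 0, [(p.2, 0)])) := by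
    intro w
    induction w with
    | nil => intro W; simp [code]
    | cons p w ih =>
      intro W
      have hc : code (p :: w) = (List.replicate p.1.val true ++ [false, p.2]) ++ code w := by
        simp [code]
      rw [hc, List.foldl_append, List.foldl_append, Final_foldl_replicate]
      have : [false, p.2].foldl (dstep L) (0 + p.1.val, false, W) =
          (0, false, W ++ [(L.getD p.1.val 0, [(p.2, 0)])]) := by
        simp [dstep]
      rw [this, ih]
      simp
  rw [decode, key]
  simp

theorem Final_wv {m : ℕ} {b : ℤ} {G : Type} [Group G] {x : ℕ → G} {R : Set (FreeGroup (Fin m))}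
    (Φ : PresentedGroup R ≃* G) {lam : Fin m → ℕ}
    (hΦ : ∀ z : Fin m, Φ (PresentedGroup.of z) = x (lam z)) (w : List (Fin m × Bool)) :
    wv b (fun _ => 0) x (w.map fun p => ((List.ofFn lam).getD p.1.val 0, [(p.2, 0)])) =
      Φ (PresentedGroup.mk R (FreeGroup.mk w)) := by
  have h1 : Φ (PresentedGroup.mk R (FreeGroup.mk w)) =
      FreeGroup.lift (fun z => x (lam z)) (FreeGroup.mk w) := by
    have : (Φ.toMonoidHom.comp (PresentedGroup.mk R)) = FreeGroup.lift (fun z => x (lam z)) := by
      ext z
      rw [FreeGroup.lift_apply_of]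
      exact hΦ z
    exact DFunLike.congr_fun this _
  rw [h1, FreeGroup.lift_mk, wv, List.map_map]
  congr 1
  apply List.map_congr_left
  intro p _
  have hL : (List.ofFn lam).getD p.1.val 0 = lam p.1 := by
    rw [List.getD_eq_getElem?_getD, List.getElem?_eq_getElem (by simp)]
    simp
  simp only [Function.comp, hL]
  rw [iv_unit (model_init (b := b))]
  cases p.2 <;> simp

theorem decideW_spec (S : NumSys) {m : ℕ} {r : FreeGroup (Fin m)} {D : List Lett}
    {lam : Fin m → ℕ} (h : Pack S {r} Set.univ D lam) (w : List (Fin m × Bool)) :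
    decideW S D (List.ofFn lam) (code w) = [true] ↔
      (PresentedGroup.mk ({r} : Set (FreeGroup (Fin m))) (FreeGroup.mk w)) = 1 := by
  obtain ⟨-, hlt, G, _, x, Φ, hΦ, hLev, hmem⟩ := h
  have hM : Model S.b [[]] (fun _ => 0) := model_init
  have hwv := Final_wv (b := S.b) Φ (fun z => hΦ z (Set.mem_univ z)) w
  have hok : WOk S.b [[]] (fun _ => 0) (D.length + 2 - 1)
      (w.map fun p => ((List.ofFn lam).getD p.1.val 0, [(p.2, 0)])) := by
    intro s hs
    obtain ⟨p, -, rfl⟩ := List.mem_map.1 hs
    refine ⟨?_, below_unit hM _, isZ_unit hM _⟩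
    have hL : (List.ofFn lam).getD p.1.val 0 = lam p.1 := by
      rw [List.getD_eq_getElem?_getD, List.getElem?_eq_getElem (by simp)]
      simp
    have := hlt p.1 (Set.mem_univ _)
    show (List.ofFn lam).getD p.1.val 0 ≤ D.length + 2 - 1
    rw [hL]
    omega
  obtain ⟨e', hE, hres⟩ := hmem [[]] (fun _ => 0) _ 0 hM hok (by omega)
  rw [← Final_decode_code (List.ofFn lam) w] at hwv hok hE hres
  have hone : (PresentedGroup.mk ({r} : Set (FreeGroup (Fin m))) (FreeGroup.mk w)) = 1 ↔
      wv S.b (fun _ => 0) x (decode (List.ofFn lam) (code w)) = 1 := by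
    rw [hwv, map_eq_one_iff Φ Φ.injective]
  rw [hone]
  rcases hres with ⟨h0, hn⟩ | ⟨M, h0, hB, hZ, hval⟩
  · have hd : decideW S D (List.ofFn lam) (code w) = [false] := by
      simp only [decideW, h0]
      rfl
    rw [hd]
    constructor
    · intro h; simp at h
    · intro h; exact absurd (h ▸ one_mem _) hn
  · have hd : decideW S D (List.ofFn lam) (code w) =
        [S.isZ (memL S D [[]] (decode (List.ofFn lam) (code w)) 0).1 M] := by
      simp only [decideW, h0]
      rfl
    rw [hd, hval]
    have h1 := S.isZ_iff' hE.model hB hZ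
    constructor
    · intro h
      have : S.isZ (memL S D [[]] (decode (List.ofFn lam) (code w)) 0).1 M = true := by
        simpa using h
      rw [h1.1 this, zpow_zero]
    · intro h
      rw [h1.2 (hLev.inf 0 (by omega) _ h)]

theorem main (S : NumSys) {m : ℕ} {r : FreeGroup (Fin m)} (hr : Rel S.b r) :
    ∃ f : List Bool → List Bool,
      Nonempty (Turing.TM2ComputableInPolyTime (fun x : List Bool => x)
        (fun x : List Bool => x) f) ∧
      ∀ w : List (Fin m × Bool), f (code w) = [true] ↔
        (PresentedGroup.mk ({r} : Set (FreeGroup (Fin m))) (FreeGroup.mk w)) = 1 := by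
  obtain ⟨D, lam, h⟩ := pack_rel S hr
  exact ⟨decideW S D (List.ofFn lam), ToTM2.polyTime_toTM2 _ (poly_decideW S D _),
    decideW_spec S h⟩

end Pool.Agent.OR1
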