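import Pool.Agent.OR1.Basic

/-!
# Growth bounds

All statements are about arbitrary (also senseless) inputs.

`GrowM mem P`: the table grows additively by `P (weight + length)` (number of nodes, lengths of
their markings and indices at the same time), the answer has weight `≤ wt w + P w.length`.

PROOF of `growRed`.  In every step the total weight (stack words, stack exponents, `cur`, `P`,
`inp`) grows by at most `2 + Q (length of cur)`, the total number of syllables (words of the
stack, `cur`, `inp`; plus `stk.length`) grows by at most `2`; there are `3 * w.length + 1` steps;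
so the total length is `≤ L := 7 * w.length + 2` and the total weight is
`≤ wt w + (3 * w.length + 1) * (2 + Q L)`; therefore the table grows by at most
`Q (that + L)` in every step.
-/

namespace Pool.Agent.OR1

open Pool.Agent.Lib.PT

/-- bound for the indices in a marking -/
def BdM (Z : ℕ) (M : Mark) : Prop := ∀ p ∈ M, p.2 ≤ Z

/-- bound for a table -/
def BdT (Z : ℕ) (T : Tab) : Prop := T.length ≤ Z ∧ ∀ M ∈ T, M.length ≤ Z ∧ BdM Z M

/-- bound for the indices in a word -/
def BdW (Z : ℕ) (w : Word) : Prop := ∀ s ∈ w, s.1 ≤ Z ∧ BdM Z s.2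

/-- growth bound for a membership test -/
def GrowM (mem : Tab → Word → ℕ → Tab × List Mark) (P : Polynomial ℕ) : Prop :=
  ∀ T w c Z, BdT Z T → BdW Z w →
    BdT (Z + P.eval (wt w + w.length)) (mem T w c).1 ∧ (mem T w c).2.length ≤ 1 ∧
    ∀ M ∈ (mem T w c).2, M.length ≤ wt w + P.eval w.length ∧
      BdM (Z + P.eval (wt w + w.length)) M

/-- growth bound for a test for the associated subgroups -/
def GrowT (τ : Bool → Tab → Word → Tab × List (Bool × Word)) (P : Polynomial ℕ) : Prop :=
  ∀ a T w Z, BdT Z T → BdW Z w →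
    BdT (Z + P.eval (wt w + w.length)) (τ a T w).1 ∧ (τ a T w).2.length ≤ 1 ∧
    ∀ r ∈ (τ a T w).2, wt r.2 ≤ wt w + P.eval w.length ∧ r.2.length ≤ 1 ∧
      BdW (Z + P.eval (wt w + w.length)) r.2

/-- total weight of a state -/
def stW (st : RSt) : ℕ :=
  (st.2.1.map fun s => wt s.1 + s.2.length).sum + wt st.2.2.1 + st.2.2.2.1.length +
    wt st.2.2.2.2

/-- total length of a state -/
def stL (st : RSt) : ℕ :=
  (st.2.1.map fun s => s.1.length + 1).sum + st.2.2.1.length + st.2.2.2.2.length

/-- index bound for a state -/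
def BdS (Z : ℕ) (st : RSt) : Prop :=
  BdT Z st.1 ∧ (∀ s ∈ st.2.1, BdW Z s.1 ∧ BdM Z s.2) ∧ BdW Z st.2.2.1 ∧ BdM Z st.2.2.2.1 ∧
    BdW Z st.2.2.2.2

/-! ### Auxiliary lemmas -/

theorem Grow_bdM_nil {Z : ℕ} : BdM Z [] := by
  intro p hp
  simp at hp

theorem Grow_bdM_append {Z : ℕ} {M N : Mark} (h1 : BdM Z M) (h2 : BdM Z N) : BdM Z (M ++ N) := by
  intro p hp
  rcases List.mem_append.1 hp with h | h
  · exact h1 p h
  · exact h2 p h

theorem Grow_bdM_mono {Z Y : ℕ} {M : Mark} (h : BdM Z M) (hZ : Z ≤ Y) : BdM Y M :=
  fun p hp => (h p hp).trans hZ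

theorem Grow_bdM_negm {Z : ℕ} {M : Mark} (h : BdM Z M) : BdM Z (negm M) := by
  intro p hp
  rw [negm, List.mem_map] at hp
  obtain ⟨r, hr, rfl⟩ := hp
  exact h r hr

theorem Grow_bdM_smul {Z : ℕ} {M : Mark} (s : Bool) (h : BdM Z M) : BdM Z (smul s M) := by
  cases s
  · exact Grow_bdM_negm h
  · exact h

theorem Grow_bdM_unit {Z : ℕ} (s : Bool) : BdM Z [(s, 0)] := by
  intro p hp
  rw [List.mem_singleton] at hp
  subst hp
  exact Nat.zero_le _

theorem Grow_bdT_mono {Z Y : ℕ} {T : Tab} (h : BdT Z T) (hZ : Z ≤ Y) : BdT Y T :=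
  ⟨h.1.trans hZ, fun M hM => ⟨((h.2 M hM).1).trans hZ, Grow_bdM_mono (h.2 M hM).2 hZ⟩⟩

theorem Grow_bdW_nil {Z : ℕ} : BdW Z [] := by
  intro p hp
  simp at hp

theorem Grow_bdW_append {Z : ℕ} {v w : Word} (h1 : BdW Z v) (h2 : BdW Z w) : BdW Z (v ++ w) := by
  intro p hp
  rcases List.mem_append.1 hp with h | h
  · exact h1 p h
  · exact h2 p h

theorem Grow_bdW_mono {Z Y : ℕ} {w : Word} (h : BdW Z w) (hZ : Z ≤ Y) : BdW Y w :=
  fun s hs => ⟨(h s hs).1.trans hZ, Grow_bdM_mono (h s hs).2 hZ⟩

theorem Grow_bdW_tail {Z : ℕ} {s : ℕ × Mark} {w : Word} (h : BdW Z (s :: w)) : BdW Z w :=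
  fun r hr => h r (List.mem_cons_of_mem _ hr)

theorem Grow_bdW_single {Z : ℕ} {i : ℕ} {M : Mark} (hi : i ≤ Z) (hM : BdM Z M) :
    BdW Z [(i, M)] := by
  intro s hs
  rw [List.mem_singleton] at hs
  subst hs
  exact ⟨hi, hM⟩

theorem Grow_getD {Z B : ℕ} {T : Tab} (h : ∀ M ∈ T, M.length ≤ B ∧ BdM Z M) (i : ℕ) :
    (T.getD i []).length ≤ B ∧ BdM Z (T.getD i []) := by
  by_cases hi : i < T.length
  · rw [List.getD_eq_getElem _ _ hi]
    exact h _ (List.getElem_mem hi)
  · rw [List.getD_eq_default _ _ (not_lt.1 hi)]
    exact ⟨Nat.zero_le _, Grow_bdM_nil⟩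

theorem Grow_beval (w : Word) : ∀ (T : Tab) (r m : Mark) (Z W j n : ℕ), j + wt w ≤ W →
    BdW Z w → T.length ≤ Z + j → (∀ M ∈ T, M.length ≤ Z + n * W ∧ BdM Z M) →
    r.length + m.length ≤ j → BdM (Z + W) r → BdM Z m →
    (w.foldl bstep (T, r, m)).1.length ≤ Z + (j + wt w) ∧
    (∀ M ∈ (w.foldl bstep (T, r, m)).1, M.length ≤ Z + (n + w.length) * W ∧ BdM Z M) ∧
    (w.foldl bstep (T, r, m)).2.1.length + (w.foldl bstep (T, r, m)).2.2.length ≤ j + wt w ∧
    BdM (Z + W) (w.foldl bstep (T, r, m)).2.1 ∧ BdM Z (w.foldl bstep (T, r, m)).2.2 := by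
  induction w with
  | nil =>
    intro T r m Z W j n hj hw hT hM hl hr hm
    simp only [List.foldl_nil, wt_nil, add_zero, List.length_nil]
    exact ⟨hT, hM, hl, hr, hm⟩
  | cons s w ih =>
    intro T r m Z W j n hj hw hT hM hl hr hm
    rw [wt_cons] at hj ⊢
    have hw' := Grow_bdW_tail hw
    have hs := hw s List.mem_cons_self
    rw [List.foldl_cons]
    have key : ∀ (T' : Tab) (r' m' : Mark), bstep (T, r, m) s = (T', r', m') →
        T'.length ≤ Z + (j + s.2.length) →
        (∀ M ∈ T', M.length ≤ Z + (n + 1) * W ∧ BdM Z M) →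
        r'.length + m'.length ≤ j + s.2.length → BdM (Z + W) r' → BdM Z m' →
        (w.foldl bstep (bstep (T, r, m) s)).1.length ≤ Z + (j + (s.2.length + wt w)) ∧
        (∀ M ∈ (w.foldl bstep (bstep (T, r, m) s)).1,
          M.length ≤ Z + (n + (s :: w).length) * W ∧ BdM Z M) ∧
        (w.foldl bstep (bstep (T, r, m) s)).2.1.length +
          (w.foldl bstep (bstep (T, r, m) s)).2.2.length ≤ j + (s.2.length + wt w) ∧
        BdM (Z + W) (w.foldl bstep (bstep (T, r, m) s)).2.1 ∧
        BdM Z (w.foldl bstep (bstep (T, r, m) s)).2.2 := by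
      intro T' r' m' he h1 h2 h3 h4 h5
      rw [he]
      have h := ih T' r' m' Z W (j + s.2.length) (n + 1) (by omega) hw' h1 h2 h3 h4 h5
      have e1 : j + s.2.length + wt w = j + (s.2.length + wt w) := by omega
      have e2 : n + 1 + w.length = n + (s :: w).length := by rw [List.length_cons]; omega
      rw [e1, e2] at h
      exact h
    by_cases h0 : (s.1 == 0) = true
    · apply key (scaleTab T s.2 m) (r ++ scaleMark T s.2) m
      · simp only [bstep, h0, cond_true]
      · rw [scaleTab, List.length_append, List.length_map]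
        omega
      · intro M hMm
        rw [scaleTab, List.mem_append] at hMm
        have hmul : Z + n * W ≤ Z + (n + 1) * W := by
          rw [add_mul, one_mul]; omega
        rcases hMm with h | h
        · exact ⟨(hM M h).1.trans hmul, (hM M h).2⟩
        · rw [List.mem_map] at h
          obtain ⟨p, hp, rfl⟩ := h
          have hg := Grow_getD hM p.2
          refine ⟨?_, Grow_bdM_append hg.2 (Grow_bdM_negm hm)⟩
          rw [List.length_append, length_negm, add_mul, one_mul]
          omega
      · rw [List.length_append, scaleMark, List.length_map, List.length_zip, List.length_range,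
          min_self]
        omega
      · apply Grow_bdM_append hr
        intro p hp
        rw [scaleMark, List.mem_map] at hp
        obtain ⟨q, hq, rfl⟩ := hp
        have := (List.of_mem_zip hq).2
        rw [List.mem_range] at this
        simp only
        omega
      · exact hm
    · apply key T r (m ++ s.2)
      · simp only [bstep, Bool.not_eq_true _ ▸ h0, cond_false]
      · omega
      · intro M hMm
        have hmul : Z + n * W ≤ Z + (n + 1) * W := by
          rw [add_mul, one_mul]; omega
        exact ⟨(hM M hMm).1.trans hmul, (hM M hMm).2⟩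
      · rw [List.length_append]
        omega
      · exact hr
      · exact Grow_bdM_append hm hs.2

theorem growM1 (S : NumSys) : ∃ P, GrowM (mem1 S) P := by
  refine ⟨Polynomial.X ^ 2, ?_⟩
  intro T w c Z hT hw
  have h := Grow_beval w T [] [] Z (wt w) 0 0 (by omega) hw (by simpa using hT.1)
    (by simpa using hT.2) (by simp) Grow_bdM_nil Grow_bdM_nil
  simp only [zero_add] at h
  obtain ⟨h1, h2, h3, h4, h5⟩ := h
  have hsq : ∀ x : ℕ, (Polynomial.X ^ 2 : Polynomial ℕ).eval x = x ^ 2 := by
    intro x; simp
  rw [hsq, hsq]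
  have e1 : wt w + w.length * wt w ≤ (wt w + w.length) ^ 2 := by
    nlinarith [Nat.zero_le (wt w), Nat.zero_le w.length, Nat.le_self_pow two_ne_zero (wt w),
      Nat.zero_le (w.length * wt w), Nat.zero_le (w.length ^ 2)]
  have e2 : wt w ≤ (wt w + w.length) ^ 2 := by
    have := Nat.zero_le (w.length * wt w)
    omega
  have e3 : w.length * wt w ≤ (wt w + w.length) ^ 2 := by omega
  refine ⟨⟨?_, fun M hM => ⟨?_, ?_⟩⟩, ?_, ?_⟩
  · show (w.foldl bstep (T, [], [])).1.length ≤ _
    omega
  · have := (h2 M hM).1
    omega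
  · exact Grow_bdM_mono (h2 M hM).2 (by omega)
  · show (bif c == 0 then _ else _ : List Mark).length ≤ 1
    cases (c == 0)
    · simp only [cond_false]
      cases S.isZ (beval T w).1 (beval T w).2.1
      · simp
      · simp
    · simp only [cond_true]
      cases (S.isZ (beval T w).1 (beval T w).2.2 && S.isInt (beval T w).1 (beval T w).2.1)
      · simp
      · simp
  · intro M hM
    have hM' : M = (beval T w).2.1 ∨ M = (beval T w).2.2 := by
      revert hM
      show M ∈ (bif c == 0 then _ else _ : List Mark) → _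
      cases (c == 0)
      · simp only [cond_false]
        cases S.isZ (beval T w).1 (beval T w).2.1
        · simp
        · simp only [cond_true, List.mem_singleton]
          exact fun h => Or.inr h
      · simp only [cond_true]
        cases (S.isZ (beval T w).1 (beval T w).2.2 && S.isInt (beval T w).1 (beval T w).2.1)
        · simp
        · simp only [cond_true, List.mem_singleton]
          exact fun h => Or.inl h
    rcases hM' with rfl | rfl
    · refine ⟨?_, Grow_bdM_mono h4 (by omega)⟩
      show (w.foldl bstep (T, [], [])).2.1.length ≤ _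
      omega
    · refine ⟨?_, Grow_bdM_mono h5 (by omega)⟩
      show (w.foldl bstep (T, [], [])).2.2.length ≤ _
      omega

theorem growAssoc (S : NumSys) {mem : Tab → Word → ℕ → Tab × List Mark} (d : Lett)
    (h : ∃ P, GrowM mem P) : ∃ P, GrowT (assoc S mem d) P := by
  obtain ⟨P, hP⟩ := h
  rcases d with _ | ⟨u, v, s⟩
  · refine ⟨P, ?_⟩
    intro a T w Z hT hw
    have h := hP T w 0 Z hT hw
    refine ⟨h.1, ?_, ?_⟩
    · show (bif _ then _ else _ : List (Bool × Word)).length ≤ 1
      cases (!(mem T w 0).2.isEmpty && S.isZ (mem T w 0).1 ((mem T w 0).2.headD []))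
      · simp
      · simp
    · show ∀ r ∈ (bif _ then _ else _ : List (Bool × Word)), _
      cases (!(mem T w 0).2.isEmpty && S.isZ (mem T w 0).1 ((mem T w 0).2.headD []))
      · simp
      · simp only [cond_true, List.mem_singleton]
        rintro r rfl
        exact ⟨Nat.zero_le _, Nat.zero_le _, Grow_bdW_nil⟩
  · refine ⟨P + Polynomial.C (u + v), ?_⟩
    intro a T w Z hT hw
    have h := hP T w (bif a then u else v) Z hT hw
    have hev : ∀ x : ℕ, (P + Polynomial.C (u + v)).eval x = P.eval x + (u + v) := by
      intro x; simp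
    rw [hev, hev]
    refine ⟨Grow_bdT_mono h.1 (by omega), ?_, ?_⟩
    · show (List.map _ (mem T w (bif a then u else v)).2).length ≤ 1
      rw [List.length_map]
      exact h.2.1
    · intro r hr
      have hr' : ∃ M ∈ (mem T w (bif a then u else v)).2,
          (S.isZ (mem T w (bif a then u else v)).1 M, [(bif a then v else u, smul s M)]) = r :=
        List.mem_map.1 hr
      obtain ⟨M, hM, rfl⟩ := hr'
      have h3 := h.2.2 M hM
      refine ⟨?_, ?_, ?_⟩
      · simp only [wt_cons, wt_nil, length_smul]
        omega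
      · simp
      · apply Grow_bdW_single
        · cases a
          · simp only [cond_false]; omega
          · simp only [cond_true]; omega
        · exact Grow_bdM_smul s (Grow_bdM_mono h3.2 (by omega))

theorem Grow_step (S : NumSys) (k : ℕ) {τ : Bool → Tab → Word → Tab × List (Bool × Word)}
    {Q : Polynomial ℕ} (hQ : GrowT τ Q) (st : RSt) (Z : ℕ) (hst : BdS Z st) :
    BdS (Z + Q.eval (stW st + stL st)) (redStep S k τ st) ∧
    stW (redStep S k τ st) ≤ stW st + 2 + Q.eval (stL st) ∧
    stL (redStep S k τ st) ≤ stL st + 2 := by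
  obtain ⟨T, stk, cur, P, inp⟩ := st
  obtain ⟨hT, hstk, hcur, hP, hinp⟩ := hst
  simp only at hT hstk hcur hP hinp
  obtain ⟨Y, hY⟩ : ∃ Y, Y = Z + Q.eval (stW (T, stk, cur, P, inp) + stL (T, stk, cur, P, inp)) :=
    ⟨_, rfl⟩
  rw [← hY]
  have hZY : Z ≤ Y := by omega
  have hT' := Grow_bdT_mono hT hZY
  have hstk' : ∀ s ∈ stk, BdW Y s.1 ∧ BdM Y s.2 :=
    fun s hs => ⟨Grow_bdW_mono (hstk s hs).1 hZY, Grow_bdM_mono (hstk s hs).2 hZY⟩
  have hcur' := Grow_bdW_mono hcur hZY
  have hP' := Grow_bdM_mono hP hZY
  have hinp' := Grow_bdW_mono hinp hZY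
  unfold redStep
  simp only
  cases hz : S.isZ T P
  · simp only [cond_false]
    rcases stk with _ | ⟨⟨g, N⟩, stk⟩
    · simp only [List.isEmpty_nil, cond_true]
      refine ⟨⟨hT', ?_, Grow_bdW_nil, Grow_bdM_nil, hinp'⟩, ?_, ?_⟩
      · intro s hs
        rw [List.mem_singleton] at hs
        subst hs
        exact ⟨hcur', hP'⟩
      · simp only [stW, List.map_cons, List.map_nil, List.sum_cons, List.sum_nil, wt_nil,
          List.length_nil]
        omega
      · simp only [stL, List.map_cons, List.map_nil, List.sum_cons, List.sum_nil,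
          List.length_nil]
        omega
    · simp only [List.isEmpty_cons, cond_false, List.headD_cons, List.tail_cons]
      have hg := (hstk' (g, N) List.mem_cons_self).1
      have hN := (hstk' (g, N) List.mem_cons_self).2
      have hrest : ∀ s ∈ stk, BdW Y s.1 ∧ BdM Y s.2 :=
        fun s hs => hstk' s (List.mem_cons_of_mem _ hs)
      cases hc : ((S.sgn T N).2 && (S.sgn T P).1 || (S.sgn T N).1 && (S.sgn T P).2)
      · simp only [cond_false]
        refine ⟨⟨hT', ?_, Grow_bdW_nil, Grow_bdM_nil, hinp'⟩, ?_, ?_⟩
        · intro s hs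
          rcases List.mem_cons.1 hs with rfl | hs
          · exact ⟨hcur', hP'⟩
          · exact hstk' s hs
        · simp only [stW, List.map_cons, List.sum_cons, wt_nil, List.length_nil]
          omega
        · simp only [stL, List.map_cons, List.sum_cons, List.length_nil]
          omega
      · simp only [cond_true]
        obtain ⟨dn, hdn⟩ : ∃ dn, dn = ((S.sgn T N).2 && (S.sgn T P).1) := ⟨_, rfl⟩
        rw [← hdn]
        have hτ := hQ dn T cur Z hT hcur
        obtain ⟨T1, res, hres⟩ : ∃ T1 res, τ dn T cur = (T1, res) := ⟨_, _, rfl⟩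
        rw [hres] at hτ ⊢
        simp only at hτ ⊢
        obtain ⟨hT1, hlen, hr⟩ := hτ
        have hle1 : wt cur + cur.length ≤
            stW (T, (g, N) :: stk, cur, P, inp) + stL (T, (g, N) :: stk, cur, P, inp) := by
          simp only [stW, stL]
          omega
        have hZ1 : Z + Q.eval (wt cur + cur.length) ≤ Y := by
          rw [hY]
          exact Nat.add_le_add_left (poly_mono Q hle1) _
        have hT1' := Grow_bdT_mono hT1 hZ1
        rcases res with _ | ⟨⟨z, y⟩, res⟩
        · simp only [List.isEmpty_nil, cond_true]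
          refine ⟨⟨hT1', ?_, Grow_bdW_nil, Grow_bdM_nil, hinp'⟩, ?_, ?_⟩
          · intro s hs
            rcases List.mem_cons.1 hs with rfl | hs
            · exact ⟨hcur', hP'⟩
            · exact hstk' s hs
          · simp only [stW, List.map_cons, List.sum_cons, wt_nil, List.length_nil]
            omega
          · simp only [stL, List.map_cons, List.sum_cons, List.length_nil]
            omega
        · simp only [List.isEmpty_cons, cond_false, List.headD_cons]
          have hy := hr (z, y) List.mem_cons_self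
          simp only at hy
          have hyB := Grow_bdW_mono hy.2.2 hZ1
          have hle2 : cur.length ≤ stL (T, (g, N) :: stk, cur, P, inp) := by
            simp only [stL]
            omega
          have hQ2 := poly_mono Q hle2
          have hN1 : BdM Y (N ++ [(dn, 0)]) := Grow_bdM_append hN (Grow_bdM_unit _)
          have hP1 : BdM Y (P ++ [(!dn, 0)]) := Grow_bdM_append hP' (Grow_bdM_unit _)
          have hy1 := hy.1
          have hy2 := hy.2.1
          have hW0 : stW (T, (g, N) :: stk, cur, P, inp) = wt g + N.length +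
              (stk.map fun s => wt s.1 + s.2.length).sum + wt cur + P.length + wt inp := by
            simp only [stW, List.map_cons, List.sum_cons]
          have hL0 : stL (T, (g, N) :: stk, cur, P, inp) = g.length + 1 +
              (stk.map fun s => s.1.length + 1).sum + cur.length + inp.length := by
            simp only [stL, List.map_cons, List.sum_cons]
          cases z
          · simp only [cond_false]
            cases h1 : S.isZ T1 (N ++ [(dn, 0)])
            · simp only [cond_false]
              cases h2 : S.isZ T1 (P ++ [(!dn, 0)])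
              · simp only [cond_false]
                refine ⟨⟨hT1', ?_, Grow_bdW_nil, Grow_bdM_nil, hinp'⟩, ?_, ?_⟩
                · intro s hs
                  rcases List.mem_cons.1 hs with rfl | hs
                  · exact ⟨hyB, hP1⟩
                  · rcases List.mem_cons.1 hs with rfl | hs
                    · exact ⟨hg, hN1⟩
                    · exact hrest s hs
                · rw [hW0]
                  simp only [stW, List.map_cons, List.sum_cons, wt_nil, List.length_nil,
                    List.length_append, List.length_cons]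
                  omega
                · rw [hL0]
                  simp only [stL, List.map_cons, List.sum_cons, List.length_nil]
                  omega
              · simp only [cond_true]
                refine ⟨⟨hT1', ?_, hyB, Grow_bdM_nil, hinp'⟩, ?_, ?_⟩
                · intro s hs
                  rcases List.mem_cons.1 hs with rfl | hs
                  · exact ⟨hg, hN1⟩
                  · exact hrest s hs
                · rw [hW0]
                  simp only [stW, List.map_cons, List.sum_cons, List.length_nil,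
                    List.length_append, List.length_cons]
                  omega
                · rw [hL0]
                  simp only [stL, List.map_cons, List.sum_cons]
                  omega
            · simp only [cond_true]
              refine ⟨⟨hT1', hrest, Grow_bdW_append hg hyB, hP1, hinp'⟩, ?_, ?_⟩
              · rw [hW0]
                simp only [stW, wt_append, List.length_nil,
                  List.length_append, List.length_cons]
                omega
              · rw [hL0]
                simp only [stL, List.length_append]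
                omega
          · simp only [cond_true]
            refine ⟨⟨hT1', hrest, hg, Grow_bdM_append hN hP', hinp'⟩, ?_, ?_⟩
            · rw [hW0]
              simp only [stW, List.length_append]
              omega
            · rw [hL0]
              simp only [stL]
              omega
  · simp only [cond_true]
    rcases inp with _ | ⟨s, inp⟩
    · simp only [List.isEmpty_nil, cond_true]
      refine ⟨⟨hT', hstk', hcur', hP', hinp'⟩, ?_, ?_⟩
      · omega
      · omega
    · simp only [List.isEmpty_cons, cond_false, List.headD_cons, List.tail_cons]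
      have hs := hinp' s List.mem_cons_self
      have htail := Grow_bdW_tail hinp'
      cases hk : s.1 == k
      · simp only [cond_false]
        refine ⟨⟨hT', hstk', ?_, Grow_bdM_nil, htail⟩, ?_, ?_⟩
        · exact Grow_bdW_append hcur' (Grow_bdW_single hs.1 hs.2)
        · simp only [stW, wt_append, wt_cons, wt_nil, List.length_nil]
          omega
        · simp only [stL, List.length_append, List.length_cons, List.length_nil]
          omega
      · simp only [cond_true]
        refine ⟨⟨hT', hstk', hcur', hs.2, htail⟩, ?_, ?_⟩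
        · simp only [stW, wt_cons]
          omega
        · simp only [stL, List.length_cons]
          omega

theorem growRed (S : NumSys) (k : ℕ) {τ : Bool → Tab → Word → Tab × List (Bool × Word)}
    (h : ∃ P, GrowT τ P) : ∃ P : Polynomial ℕ, ∀ T w Z i, BdT Z T → BdW Z w →
      i ≤ 3 * w.length + 1 →
      BdS (Z + P.eval (wt w + w.length)) ((redStep S k τ)^[i] (T, [], [], [], w)) ∧
      stW ((redStep S k τ)^[i] (T, [], [], [], w)) ≤ wt w + P.eval w.length ∧
      stL ((redStep S k τ)^[i] (T, [], [], [], w)) ≤ P.eval w.length := by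
  obtain ⟨Q, hQ⟩ := h
  obtain ⟨Pw, hPw⟩ : ∃ Pw : Polynomial ℕ, ∀ x, Pw.eval x = (3 * x + 1) * (2 + Q.eval (7 * x + 2)) :=
    ⟨(3 * Polynomial.X + 1) * (2 + Q.comp (7 * Polynomial.X + 2)), by
      intro x
      simp [Polynomial.eval_comp]⟩
  obtain ⟨PB, hPB⟩ : ∃ PB : Polynomial ℕ, ∀ x, PB.eval x =
      (3 * x + 1) * Q.eval (x + Pw.eval x + (7 * x + 2)) :=
    ⟨(3 * Polynomial.X + 1) * Q.comp (Polynomial.X + Pw + (7 * Polynomial.X + 2)), by
      intro x
      simp [Polynomial.eval_comp]⟩
  refine ⟨PB + Pw + (7 * Polynomial.X + 2), ?_⟩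
  have hev : ∀ x, (PB + Pw + (7 * Polynomial.X + 2)).eval x = PB.eval x + Pw.eval x + (7 * x + 2) := by
    intro x
    simp
  intro T w Z i hT hw hi
  obtain ⟨l, hl⟩ : ∃ l, l = w.length := ⟨_, rfl⟩
  obtain ⟨W, hW⟩ : ∃ W, W = wt w := ⟨_, rfl⟩
  rw [hev, hev, ← hl, ← hW]
  rw [← hl] at hi
  have hmain : ∀ j, j ≤ 3 * l + 1 →
      BdS (Z + j * Q.eval (W + l + Pw.eval l + (7 * l + 2)))
        ((redStep S k τ)^[j] (T, [], [], [], w)) ∧
      stW ((redStep S k τ)^[j] (T, [], [], [], w)) ≤ W + j * (2 + Q.eval (7 * l + 2)) ∧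
      stL ((redStep S k τ)^[j] (T, [], [], [], w)) ≤ l + 2 * j := by
    intro j
    induction j with
    | zero =>
      intro _
      simp only [Function.iterate_zero, id_eq, zero_mul, mul_zero, add_zero]
      refine ⟨⟨hT, ?_, Grow_bdW_nil, Grow_bdM_nil, hw⟩, ?_, ?_⟩
      · intro s hs
        simp at hs
      · simp only [stW, List.map_nil, List.sum_nil, wt_nil, List.length_nil]
        omega
      · simp only [stL, List.map_nil, List.sum_nil, List.length_nil]
        omega
    | succ j ih =>
      intro hj
      obtain ⟨i1, i2, i3⟩ := ih (by omega)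
      rw [Function.iterate_succ_apply']
      obtain ⟨s1, s2, s3⟩ := Grow_step S k hQ _ _ i1
      have hL : stL ((redStep S k τ)^[j] (T, [], [], [], w)) ≤ 7 * l + 2 := by omega
      have hq1 := poly_mono Q hL
      have hjj : j * (2 + Q.eval (7 * l + 2)) ≤ Pw.eval l := by
        rw [hPw]
        exact Nat.mul_le_mul_right _ (by omega)
      have hWL : stW ((redStep S k τ)^[j] (T, [], [], [], w)) +
          stL ((redStep S k τ)^[j] (T, [], [], [], w)) ≤ W + l + Pw.eval l + (7 * l + 2) := by
        omega
      have hq2 := poly_mono Q hWL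
      refine ⟨?_, ?_, ?_⟩
      · have hle : Z + j * Q.eval (W + l + Pw.eval l + (7 * l + 2)) +
            Q.eval (stW ((redStep S k τ)^[j] (T, [], [], [], w)) +
              stL ((redStep S k τ)^[j] (T, [], [], [], w))) ≤
            Z + (j + 1) * Q.eval (W + l + Pw.eval l + (7 * l + 2)) := by
          rw [add_mul, one_mul]
          omega
        exact ⟨Grow_bdT_mono s1.1 hle,
          fun s hs => ⟨Grow_bdW_mono (s1.2.1 s hs).1 hle, Grow_bdM_mono (s1.2.1 s hs).2 hle⟩,
          Grow_bdW_mono s1.2.2.1 hle, Grow_bdM_mono s1.2.2.2.1 hle,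
          Grow_bdW_mono s1.2.2.2.2 hle⟩
      · rw [add_mul, one_mul]
        omega
      · omega
  obtain ⟨m1, m2, m3⟩ := hmain i hi
  refine ⟨?_, ?_, ?_⟩
  · have hle : Z + i * Q.eval (W + l + Pw.eval l + (7 * l + 2)) ≤
        Z + (PB.eval (W + l) + Pw.eval (W + l) + (7 * (W + l) + 2)) := by
      have h1 : i * Q.eval (W + l + Pw.eval l + (7 * l + 2)) ≤ PB.eval (W + l) := by
        rw [hPB]
        have h2 : Pw.eval l ≤ Pw.eval (W + l) := poly_mono Pw (by omega)
        exact Nat.mul_le_mul (by omega) (poly_mono Q (by omega))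
      omega
    exact ⟨Grow_bdT_mono m1.1 hle,
      fun s hs => ⟨Grow_bdW_mono (m1.2.1 s hs).1 hle, Grow_bdM_mono (m1.2.1 s hs).2 hle⟩,
      Grow_bdW_mono m1.2.2.1 hle, Grow_bdM_mono m1.2.2.2.1 hle,
      Grow_bdW_mono m1.2.2.2.2 hle⟩
  · have h1 : i * (2 + Q.eval (7 * l + 2)) ≤ Pw.eval l := by
      rw [hPw]
      exact Nat.mul_le_mul_right _ (by omega)
    omega
  · omega

theorem Grow_ksum (k : ℕ) (w : Word) : (ksum k w).length ≤ wt w := by
  induction w with
  | nil => simp [ksum]
  | cons s w ih =>
    rw [wt_cons]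
    cases hk : s.1 == k
    · have : ksum k (s :: w) = ksum k w := by
        simp only [ksum, List.filter_cons, hk, Bool.false_eq_true, if_false]
      rw [this]
      omega
    · have : ksum k (s :: w) = s.2 ++ ksum k w := by
        simp only [ksum, List.filter_cons, hk, if_true, List.flatMap_cons]
      rw [this, List.length_append]
      omega

theorem Grow_ksum_bd {Z : ℕ} (k : ℕ) {w : Word} (h : BdW Z w) : BdM Z (ksum k w) := by
  intro p hp
  rw [ksum, List.mem_flatMap] at hp
  obtain ⟨s, hs, hps⟩ := hp
  exact (h s (List.mem_filter.1 hs).1).2 p hps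

theorem growS (S : NumSys) (k : ℕ) {τ : Bool → Tab → Word → Tab × List (Bool × Word)}
    {mem : Tab → Word → ℕ → Tab × List Mark} (hm : ∃ P, GrowM mem P) (hτ : ∃ P, GrowT τ P) :
    ∃ P, GrowM (memS S k τ mem) P := by
  obtain ⟨Pm, hPm⟩ := hm
  obtain ⟨Pr, hPr⟩ := growRed S k hτ
  obtain ⟨P, hP⟩ : ∃ P : Polynomial ℕ, ∀ x, P.eval x =
      k + Pr.eval (2 * x + 1) + Pm.eval (2 * x + 2 * Pr.eval (x + 1)) + Pr.eval x +
        Pm.eval (Pr.eval x) :=
    ⟨Polynomial.C k + Pr.comp (2 * Polynomial.X + 1) +
      Pm.comp (2 * Polynomial.X + 2 * Pr.comp (Polynomial.X + 1)) + Pr + Pm.comp Pr, by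
      intro x
      simp [Polynomial.eval_comp]⟩
  refine ⟨P, ?_⟩
  intro T w c Z hT hw
  obtain ⟨w', hw'⟩ : ∃ w', w' = (bif c == k then w ++ [(k, negm (ksum k w))] else w) := ⟨_, rfl⟩
  have hmemS : memS S k τ mem T w c =
      (bif !(red S k τ T w').2.1.isEmpty then ((red S k τ T w').1, [])
      else
        bif c == k then
          ((mem (red S k τ T w').1 (red S k τ T w').2.2.1 (bif c == k then 0 else c)).1,
            bif !(mem (red S k τ T w').1 (red S k τ T w').2.2.1
                (bif c == k then 0 else c)).2.isEmpty &&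
              S.isZ (mem (red S k τ T w').1 (red S k τ T w').2.2.1
                (bif c == k then 0 else c)).1 ((mem (red S k τ T w').1 (red S k τ T w').2.2.1
                (bif c == k then 0 else c)).2.headD []) then [ksum k w] else [])
        else mem (red S k τ T w').1 (red S k τ T w').2.2.1 (bif c == k then 0 else c)) := by
    rw [hw']
    rfl
  have hks := Grow_ksum k w
  have hwt : wt w' ≤ 2 * wt w := by
    rw [hw']
    cases (c == k)
    · simp only [cond_false]; omega
    · simp only [cond_true, wt_append, wt_cons, wt_nil, length_negm]; omega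
  have hwl : w'.length ≤ w.length + 1 := by
    rw [hw']
    cases (c == k)
    · simp only [cond_false]; omega
    · simp only [cond_true, List.length_append, List.length_cons, List.length_nil]; omega
  have hwB : BdW (Z + k) w' := by
    rw [hw']
    cases (c == k)
    · simp only [cond_false]
      exact Grow_bdW_mono hw (by omega)
    · simp only [cond_true]
      apply Grow_bdW_append (Grow_bdW_mono hw (by omega))
      apply Grow_bdW_single (by omega)
      exact Grow_bdM_negm (Grow_bdM_mono (Grow_ksum_bd k hw) (by omega))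
  obtain ⟨r1, r2, r3⟩ := hPr T w' (Z + k) (3 * w'.length + 1) (Grow_bdT_mono hT (by omega)) hwB
    le_rfl
  change BdS _ (red S k τ T w') at r1
  change stW (red S k τ T w') ≤ _ at r2
  change stL (red S k τ T w') ≤ _ at r3
  rw [hmemS]
  obtain ⟨R, hR⟩ : ∃ R, R = red S k τ T w' := ⟨_, rfl⟩
  rw [← hR] at r1 r2 r3 ⊢
  obtain ⟨b1, b2, b3, b4, b5⟩ := r1
  obtain ⟨x, hx⟩ : ∃ x, x = wt w + w.length := ⟨_, rfl⟩
  rw [← hx]
  have hcurW : wt R.2.2.1 ≤ stW R := by simp only [stW]; omega
  have hcurL : R.2.2.1.length ≤ stL R := by simp only [stL]; omega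
  have q1 : Pr.eval (wt w' + w'.length) ≤ Pr.eval (2 * x + 1) := poly_mono Pr (by omega)
  have q2 : Pr.eval w'.length ≤ Pr.eval (x + 1) := poly_mono Pr (by omega)
  have q3 : Pm.eval (wt R.2.2.1 + R.2.2.1.length) ≤ Pm.eval (2 * x + 2 * Pr.eval (x + 1)) :=
    poly_mono Pm (by omega)
  have hPx := hP x
  have hB0 : BdT (Z + P.eval x) R.1 := Grow_bdT_mono b1 (by omega)
  have hm1 := hPm R.1 R.2.2.1 (bif c == k then 0 else c) _ b1 b3
  obtain ⟨m1, m2, m3⟩ := hm1
  have hB1 := Grow_bdT_mono m1 (show _ ≤ Z + P.eval x by omega)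
  cases hE : R.2.1.isEmpty
  · simp only [Bool.not_false, cond_true]
    refine ⟨hB0, ?_, ?_⟩
    · simp
    · simp
  · simp only [Bool.not_true, cond_false]
    cases hck : c == k
    · rw [hck] at m1 m2 m3 hB1 hw'
      simp only [cond_false] at m1 m2 m3 hB1 hw' ⊢
      refine ⟨hB1, m2, ?_⟩
      intro M hM
      have h3 := m3 M hM
      refine ⟨?_, Grow_bdM_mono h3.2 (by omega)⟩
      rw [hw'] at r2 r3
      have q4 : Pm.eval R.2.2.1.length ≤ Pm.eval (Pr.eval w.length) := poly_mono Pm (by omega)
      have := hP w.length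
      omega
    · rw [hck] at hB1
      simp only [cond_true] at hB1 ⊢
      refine ⟨hB1, ?_, ?_⟩
      · cases (!(mem R.1 R.2.2.1 0).2.isEmpty && S.isZ (mem R.1 R.2.2.1 0).1
          ((mem R.1 R.2.2.1 0).2.headD []))
        · simp
        · simp
      · cases (!(mem R.1 R.2.2.1 0).2.isEmpty && S.isZ (mem R.1 R.2.2.1 0).1
          ((mem R.1 R.2.2.1 0).2.headD []))
        · simp
        · simp only [cond_true, List.mem_singleton]
          rintro M rfl
          exact ⟨by omega, Grow_bdM_mono (Grow_ksum_bd k hw) (by omega)⟩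

end Pool.Agent.OR1
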