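import Pool.Agent.OR1.Build

/-!
# Correctness of the test for integrality; the number system with base `q ≥ 2`

PROOF of `isIntQ_spec`.  Items with exponent `≥ 0` have integer values, so `mv M ∈ ℤ` iff
`mv F ∈ ℤ`, `F = negPart`; and `|mv F| ≤ F.length` because `q ^ e ≤ 1` for `e < 0`; `sgnQ_spec`
for `F ++ List.replicate f (_, 0)` (`mv_replicate`).
-/

namespace Pool.Agent.OR1

open Pool.Agent.Lib.PT

theorem IntQ_zero {q : ℕ} (hq : 2 ≤ q) {T : Tab} {e : ℕ → ℤ} {M : Mark} (h : Model q T e)
    (hM : Below T.length M) : zeroQ q T M = true ↔ mv q e M = 0 := by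
  have h1 := sgnQ_spec hq h hM
  rw [zeroQ, h1.1, h1.2]
  simp only [Bool.and_eq_true, Bool.not_eq_true', decide_eq_false_iff_not, not_lt]
  exact ⟨fun h => le_antisymm h.1 h.2, fun h => ⟨h.le, h.ge⟩⟩

theorem IntQ_neg {q : ℕ} (hq : 2 ≤ q) {T : Tab} {e : ℕ → ℤ} (h : Model q T e) {i : ℕ}
    (hi : i < T.length) : (sgnQ q T (T.getD i [])).2 = decide (e i < 0) := by
  rw [(sgnQ_spec hq h ((h.below hi).mono hi.le)).2, h.val hi]
  have : ((e i : ℚ) < 0) ↔ e i < 0 := by exact_mod_cast Iff.rfl
  exact decide_eq_decide.2 this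

/-- splitting of the value and the bound for the part with negative exponents -/
theorem IntQ_split {q : ℕ} (hq : 2 ≤ q) {T : Tab} {e : ℕ → ℤ} (h : Model q T e) (M : Mark)
    (hM : Below T.length M) : Below T.length (negPart q T M) ∧
      (∃ z : ℤ, mv q e M = mv q e (negPart q T M) + z) ∧
      |mv q e (negPart q T M)| ≤ (negPart q T M).length := by
  have hq1 : (1 : ℚ) ≤ q := by exact_mod_cast (by omega : 1 ≤ q)
  induction M with
  | nil => exact ⟨Below.nil, ⟨0, by simp [negPart]⟩, by simp [negPart]⟩
  | cons p M ih =>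
    obtain ⟨h1, ⟨z, hz⟩, h3⟩ := ih fun r hr => hM r (List.mem_cons_of_mem _ hr)
    have hp : p.2 < T.length := hM p List.mem_cons_self
    have hs : (sgnQ q T (T.getD p.2 [])).2 = decide (e p.2 < 0) := IntQ_neg hq h hp
    by_cases he : e p.2 < 0
    · have hn : negPart q T (p :: M) = p :: negPart q T M := by
        unfold negPart
        rw [List.filter_cons_of_pos]
        rw [hs]
        exact decide_eq_true he
      rw [hn]
      refine ⟨Below.cons hp h1, ⟨z, ?_⟩, ?_⟩
      · rw [mv_cons, mv_cons, hz]
        ring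
      · rw [mv_cons, List.length_cons]
        push_cast
        have h4 : |sg p.1 * ((q : ℤ) : ℚ) ^ e p.2| ≤ 1 := by
          have h5 : |sg p.1| = 1 := by
            cases p.1 <;> simp
          rw [abs_mul, h5, one_mul, abs_of_pos (zpow_pos (by push_cast; linarith) _)]
          push_cast
          exact zpow_le_one_of_nonpos₀ hq1 he.le
        refine (abs_add_le _ _).trans ?_
        push_cast at h4
        linarith
    · have hn : negPart q T (p :: M) = negPart q T M := by
        unfold negPart
        rw [List.filter_cons_of_neg]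
        rw [hs]
        simpa using he
      rw [hn]
      refine ⟨h1, ⟨(bif p.1 then 1 else -1) * (q : ℤ) ^ (e p.2).toNat + z, ?_⟩, h3⟩
      rw [mv_cons, hz]
      have h5 : (((q : ℤ) : ℚ)) ^ e p.2 = (q : ℚ) ^ (e p.2).toNat := by
        have h6 : e p.2 = ((e p.2).toNat : ℤ) := (Int.toNat_of_nonneg (not_lt.1 he)).symm
        conv_lhs => rw [h6]
        rw [zpow_natCast]
        push_cast
        rfl
      rw [h5]
      cases p.1 <;> · simp; ring

theorem isIntQ_spec {q : ℕ} (hq : 2 ≤ q) {T : Tab} {e : ℕ → ℤ} {M : Mark} (h : Model q T e)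
    (hM : Below T.length M) : isIntQ q T M = true ↔ IsZ q e M := by
  obtain ⟨h1, ⟨z, hz⟩, h3⟩ := IntQ_split hq h M hM
  have hb : ∀ (s : Bool) (f : ℕ), Below T.length (negPart q T M ++ List.replicate f (s, 0)) :=
    fun s f => h1.append (Below.replicate h.pos f)
  have hv : ∀ (s : Bool) (f : ℕ), zeroQ q T (negPart q T M ++ List.replicate f (s, 0)) = true ↔
      mv q e (negPart q T M) + f * sg s = 0 := by
    intro s f
    rw [IntQ_zero hq h (hb s f), mv_append, mv_replicate h]
  have key : isIntQ q T M = true ↔ ∃ f < (negPart q T M).length + 1,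
      mv q e (negPart q T M) = f ∨ mv q e (negPart q T M) = -f := by
    unfold isIntQ
    rw [List.any_eq_true]
    constructor
    · rintro ⟨f, hf, hff⟩
      refine ⟨f, List.mem_range.1 hf, ?_⟩
      rw [Bool.or_eq_true, hv, hv] at hff
      simp only [sg_false, sg_true] at hff
      rcases hff with hff | hff
      · left; linarith
      · right; linarith
    · rintro ⟨f, hf, hff⟩
      refine ⟨f, List.mem_range.2 hf, ?_⟩
      rw [Bool.or_eq_true, hv, hv]
      simp only [sg_false, sg_true]
      rcases hff with hff | hff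
      · left; linarith
      · right; linarith
  rw [key]
  constructor
  · rintro ⟨f, -, hf | hf⟩
    · exact ⟨f + z, by rw [hz, hf]; push_cast; ring⟩
    · exact ⟨-f + z, by rw [hz, hf]; push_cast; ring⟩
  · rintro ⟨w, hw⟩
    have h4 : mv q e (negPart q T M) = ((w - z : ℤ) : ℚ) := by
      push_cast
      rw [← hw, hz]
      ring
    refine ⟨(w - z).natAbs, ?_, ?_⟩
    · rw [h4] at h3
      have h5 : |((w - z : ℤ) : ℚ)| = ((w - z).natAbs : ℚ) := by
        rw [Nat.cast_natAbs, Int.cast_abs]
      rw [h5] at h3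
      have h6 : (w - z).natAbs ≤ (negPart q T M).length := by exact_mod_cast h3
      omega
    · rw [h4]
      rcases Int.natAbs_eq (w - z) with h5 | h5
      · left
        conv_lhs => rw [h5]
        exact Int.cast_natCast _
      · right
        conv_lhs => rw [h5]
        rw [Int.cast_neg, Int.cast_natCast]

end Pool.Agent.OR1
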