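import Pool.Agent.OR1.Ord

/-!
# Polynomial time of the sign test and of the test for integrality

Use the closure lemmas of `Pool/Agent/Lib/PolyTime/Lib.lean` (and `foldl_meas`, `iterate_meas` of
`Bin.lean`).  Sizes: `mulCap` and the states of `evalO` are `≤ cap`, hence `≤ M.length + 1`
(for `g = 0` the value is the argument, at most `M.length + 1` plus the old state; a bound for all
inputs, also senseless ones: `mulCap q cap g x ≤ max x cap`, so the state grows by at most
`M.length` per level).  `insE`, `addE`: the levels contain together at most one index more than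
before when every old index is copied at most once (the three filters are disjoint conditions on
the same list), and every gap is `≤ C`; so the size of the list of levels grows by at most
`p (size of T + C)` in every step plus the change of the gaps; a measure: number of levels + total
number of indices + largest index; the gaps are bounded by `C` separately.
-/

namespace Pool.Agent.OR1

open Pool.Agent.Lib.PT

namespace NumP

/-! ### The evaluation -/

variable {α : Type*} [Enc α]

theorem memN_comp {i : α → ℕ} {l : α → List ℕ} (hi : PolyTime i) (hl : PolyTime l) :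
    PolyTime (fun a => memN (i a) (l a)) :=
  hl.any (f := fun a (j : ℕ) => decide (j = i a)) (PolyTime.id.snd.eqNat (hi.comp PolyTime.id.fst))

theorem cnt_comp {M : α → Mark} {l : α → List ℕ} (s : Bool) (hM : PolyTime M) (hl : PolyTime l) :
    PolyTime (fun a => cnt (M a) (l a) s) :=
  (hM.filter (f := fun a (p : Bool × ℕ) => (p.1 == s) && memN p.2 (l a))
    ((PolyTime.id.snd.fst.beqBool (PolyTime.const s)).and
      (memN_comp PolyTime.id.snd.snd (hl.comp PolyTime.id.fst)))).length

theorem cnt_le (M : Mark) (l : List ℕ) (s : Bool) : cnt M l s ≤ M.length :=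
  List.length_filter_le _ _

theorem mulCap_le (q cap g x : ℕ) : mulCap q cap g x ≤ max x cap := by
  unfold mulCap
  induction g generalizing x with
  | zero => simp
  | succ g ih =>
    rw [Function.iterate_succ_apply]
    refine (ih _).trans ?_
    have : min (x * q) cap ≤ cap := min_le_right _ _
    omega

theorem mulCap_zero (q cap g : ℕ) : mulCap q cap g 0 = 0 := by
  unfold mulCap
  induction g with
  | zero => rfl
  | succ g ih =>
    rw [Function.iterate_succ_apply]
    simpa using ih

theorem mulCap_comp (q : ℕ) {cap g x : α → ℕ} (hc : PolyTime cap) (hg : PolyTime g)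
    (hx : PolyTime x) : PolyTime (fun a => mulCap q (cap a) (g a) (x a)) := by
  unfold mulCap
  refine PolyTime.iterate (f := fun a (y : ℕ) => min (y * q) (cap a)) hg hx
    ((PolyTime.id.snd.mul (PolyTime.const q)).min (hc.comp PolyTime.id.fst)) ?_
  obtain ⟨p, hp⟩ := hc.sz_le
  obtain ⟨r, hr⟩ := hx.sz_le
  refine ⟨p + r, fun a i _ => ?_⟩
  have h1 := mulCap_le q (cap a) i (x a)
  unfold mulCap at h1
  have h2 := hp a
  have h3 := hr a
  rw [sz_nat] at h2 h3 ⊢
  rw [Polynomial.eval_add]
  omega

theorem evStep_comp (q : ℕ) {cap : α → ℕ} {M : α → Mark} {st : α → ℕ × ℕ} {lv : α → List ℕ × ℕ}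
    (hc : PolyTime cap) (hM : PolyTime M) (hs : PolyTime st) (hl : PolyTime lv) :
    PolyTime (fun a => evStep q (cap a) (M a) (st a) (lv a)) := by
  unfold evStep
  exact (mulCap_comp q hc hl.snd ((hs.fst.add (cnt_comp true hM hl.fst)).sub
    (hs.snd.add (cnt_comp false hM hl.fst)))).pair
    (mulCap_comp q hc hl.snd ((hs.snd.add (cnt_comp false hM hl.fst)).sub
    (hs.fst.add (cnt_comp true hM hl.fst))))

theorem evStep_le (q cap : ℕ) (M : Mark) (st : ℕ × ℕ) (lv : List ℕ × ℕ) :
    (evStep q cap M st lv).1 ≤ st.1 + M.length + cap ∧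
    (evStep q cap M st lv).2 ≤ st.2 + M.length + cap := by
  unfold evStep
  have h1 := cnt_le M lv.1 true
  have h2 := cnt_le M lv.1 false
  have h3 := mulCap_le q cap lv.2 ((st.1 + cnt M lv.1 true) - (st.2 + cnt M lv.1 false))
  have h4 := mulCap_le q cap lv.2 ((st.2 + cnt M lv.1 false) - (st.1 + cnt M lv.1 true))
  constructor
  · refine h3.trans ?_
    omega
  · refine h4.trans ?_
    omega

theorem evStep_zero (q cap : ℕ) (M : Mark) (st : ℕ × ℕ) (lv : List ℕ × ℕ) :
    (evStep q cap M st lv).1 = 0 ∨ (evStep q cap M st lv).2 = 0 := by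
  unfold evStep
  rcases Nat.le_total (st.1 + cnt M lv.1 true) (st.2 + cnt M lv.1 false) with h | h
  · left
    simp only [Nat.sub_eq_zero_of_le h]
    exact mulCap_zero _ _ _
  · right
    simp only [Nat.sub_eq_zero_of_le h]
    exact mulCap_zero _ _ _

theorem fold_zero (q cap : ℕ) (M : Mark) (O : Ord) : ∀ st : ℕ × ℕ, st.1 = 0 ∨ st.2 = 0 →
    (O.foldl (evStep q cap M) st).1 = 0 ∨ (O.foldl (evStep q cap M) st).2 = 0 := by
  induction O with
  | nil => intro st h; exact h
  | cons lv O ih =>
    intro st _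
    rw [List.foldl_cons]
    exact ih _ (evStep_zero _ _ _ _ _)

theorem evalO_disj (q : ℕ) (O : Ord) (M : Mark) : ¬ ((evalO q O M).1 = true ∧ (evalO q O M).2 = true) := by
  unfold evalO
  intro h
  simp only [decide_eq_true_eq] at h
  rcases fold_zero q (M.length + 1) M O (0, 0) (Or.inl rfl) with h1 | h1 <;> omega

end NumP

open NumP in
theorem poly_evalO (q : ℕ) {α : Type*} [Enc α] {O : α → Ord} {M : α → Mark} (hO : PolyTime O)
    (hM : PolyTime M) : PolyTime (fun a => evalO q (O a) (M a)) := by
  have h := PolyTime.foldl_add (f := fun a (st : ℕ × ℕ) (lv : List ℕ × ℕ) =>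
      evStep q ((M a).length + 1) (M a) st lv) hO (PolyTime.const ((0, 0) : ℕ × ℕ))
    (evStep_comp q (hM.comp PolyTime.id.fst).length.succ (hM.comp PolyTime.id.fst)
      PolyTime.id.snd.fst PolyTime.id.snd.snd) (by
    obtain ⟨p, hp⟩ := hM.sz_le
    refine ⟨8 * p + 4, fun a st lv _ => ?_⟩
    have h1 := evStep_le q ((M a).length + 1) (M a) st lv
    have h2 := hp a
    have h3 := length_lt_sz (M a)
    obtain ⟨s1, s2⟩ := st
    have e1 : sz (evStep q ((M a).length + 1) (M a) (s1, s2) lv) =
        2 * (evStep q ((M a).length + 1) (M a) (s1, s2) lv).1 + 1 +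
        (2 * (evStep q ((M a).length + 1) (M a) (s1, s2) lv).2 + 1) + 1 := by
      rw [← sz_nat, ← sz_nat]; rfl
    rw [e1, sz_pair, sz_nat, sz_nat]
    simp only [Polynomial.eval_add, Polynomial.eval_mul, Polynomial.eval_ofNat] at h1 ⊢
    omega)
  exact ((PolyTime.const 0).lt h.fst).pair ((PolyTime.const 0).lt h.snd)

namespace NumP

variable {α : Type*} [Enc α]

theorem negm_comp {M : α → Mark} (hM : PolyTime M) : PolyTime (fun a => negm (M a)) :=
  hM.map (f := fun _ (p : Bool × ℕ) => (!p.1, p.2)) (PolyTime.id.snd.fst.not.pair PolyTime.id.snd.snd)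

theorem cmpE_comp (q : ℕ) {T : α → Tab} {O : α → Ord} {i k g : α → ℕ} (hT : PolyTime T)
    (hO : PolyTime O) (hi : PolyTime i) (hk : PolyTime k) (hg : PolyTime g) :
    PolyTime (fun a => cmpE q (T a) (O a) (i a) (k a) (g a)) :=
  poly_evalO q hO (((hT.getD hi (PolyTime.const [])).append
    (negm_comp (hT.getD hk (PolyTime.const [])))).append (hg.replicate (PolyTime.const (false, 0))))

theorem gapE_comp (q : ℕ) {C : α → ℕ} {T : α → Tab} {O : α → Ord} {k l : α → ℕ} (hC : PolyTime C)
    (hT : PolyTime T) (hO : PolyTime O) (hk : PolyTime k) (hl : PolyTime l) :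
    PolyTime (fun a => gapE q (C a) (T a) (O a) (k a) (l a)) :=
  (hC.range.filter (f := fun a (g : ℕ) => !(cmpE q (T a) (O a) (k a) (l a) (g + 1)).2)
    (cmpE_comp q (hT.comp PolyTime.id.fst) (hO.comp PolyTime.id.fst) (hk.comp PolyTime.id.fst)
      (hl.comp PolyTime.id.fst) PolyTime.id.snd.succ).snd.not).length

theorem insE_comp (q : ℕ) {T : α → Tab} {O : α → Ord} {i : α → ℕ}
    (hT : PolyTime T) (hO : PolyTime O) (hi : PolyTime i) :
    PolyTime (fun a => insE q (T a) (O a) (i a)) := by
  have hc : PolyTime (fun x : α × (List ℕ × ℕ) => cmpE q (T x.1) (O x.1) (i x.1) (x.2.1.headD 0) 0) :=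
    cmpE_comp q (hT.comp PolyTime.id.fst) (hO.comp PolyTime.id.fst) (hi.comp PolyTime.id.fst)
      (PolyTime.id.snd.fst.headD (PolyTime.const 0)) (PolyTime.const 0)
  have h1 : PolyTime (fun a => ((O a).filter fun lv => (cmpE q (T a) (O a) (i a) (lv.1.headD 0) 0).2).map Prod.fst) :=
    (hO.filter (f := fun a (lv : List ℕ × ℕ) => (cmpE q (T a) (O a) (i a) (lv.1.headD 0) 0).2) hc.snd).map
      (f := fun _ (lv : List ℕ × ℕ) => lv.1) PolyTime.id.snd.fst
  have h3 : PolyTime (fun a => ((O a).filter fun lv => (cmpE q (T a) (O a) (i a) (lv.1.headD 0) 0).1).map Prod.fst) :=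
    (hO.filter (f := fun a (lv : List ℕ × ℕ) => (cmpE q (T a) (O a) (i a) (lv.1.headD 0) 0).1) hc.fst).map
      (f := fun _ (lv : List ℕ × ℕ) => lv.1) PolyTime.id.snd.fst
  have h2 : PolyTime (fun a => i a :: ((O a).filter fun lv => !(cmpE q (T a) (O a) (i a) (lv.1.headD 0) 0).1 &&
      !(cmpE q (T a) (O a) (i a) (lv.1.headD 0) 0).2).flatMap Prod.fst) :=
    hi.cons ((hO.filter (f := fun a (lv : List ℕ × ℕ) => !(cmpE q (T a) (O a) (i a) (lv.1.headD 0) 0).1 &&
      !(cmpE q (T a) (O a) (i a) (lv.1.headD 0) 0).2) (hc.fst.not.and hc.snd.not)).flatMap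
      (f := fun _ (lv : List ℕ × ℕ) => lv.1) PolyTime.id.snd.fst)
  exact (h1.append (h2.cons (PolyTime.const []))).append h3

theorem addE_comp (q : ℕ) {C : α → ℕ} {T : α → Tab} {O : α → Ord} {i : α → ℕ} (hC : PolyTime C)
    (hT : PolyTime T) (hO : PolyTime O) (hi : PolyTime i) :
    PolyTime (fun a => addE q (C a) (T a) (O a) (i a)) := by
  have hI := insE_comp q hT hO hi
  exact (hI.zip (hI.tail.append (PolyTime.const [[]]))).map
    (f := fun a (p : List ℕ × List ℕ) => (p.1, gapE q (C a) (T a) (O a) (p.1.headD 0) (p.2.headD 0)))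
    (PolyTime.id.snd.fst.pair (gapE_comp q (hC.comp PolyTime.id.fst) (hT.comp PolyTime.id.fst)
      (hO.comp PolyTime.id.fst) (PolyTime.id.snd.fst.headD (PolyTime.const 0))
      (PolyTime.id.snd.snd.headD (PolyTime.const 0))))

/-! ### The measure -/

/-- maximum of a list -/
def mxl (l : List ℕ) : ℕ := l.foldr max 0

theorem le_mxl {l : List ℕ} {x : ℕ} (h : x ∈ l) : x ≤ mxl l := by
  induction l with
  | nil => simp at h
  | cons y l ih =>
    have e : mxl (y :: l) = max y (mxl l) := rfl
    rw [e]
    rcases List.mem_cons.1 h with h | h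
    · omega
    · have := ih h
      omega

theorem mxl_le {l : List ℕ} {N : ℕ} (h : ∀ x ∈ l, x ≤ N) : mxl l ≤ N := by
  induction l with
  | nil => exact Nat.zero_le _
  | cons y l ih =>
    have e : mxl (y :: l) = max y (mxl l) := rfl
    rw [e]
    have h1 := h y List.mem_cons_self
    have h2 := ih fun x hx => h x (List.mem_cons_of_mem _ hx)
    omega

/-- number of levels and indices -/
def ns (L : List (List ℕ)) : ℕ := (L.map fun l => l.length + 1).sum

theorem ns_append (L L' : List (List ℕ)) : ns (L ++ L') = ns L + ns L' := by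
  simp [ns]

theorem ns_cons (l : List ℕ) (L : List (List ℕ)) : ns (l :: L) = l.length + 1 + ns L := by
  simp [ns]

/-- the measure -/
def mu (O : Ord) : ℕ := ns (O.map Prod.fst) + mxl (O.flatMap fun lv => lv.2 :: lv.1)

theorem filters_le (c : List ℕ × ℕ → Bool × Bool) (hc : ∀ lv, ¬ ((c lv).1 = true ∧ (c lv).2 = true))
    (O : Ord) : ns ((O.filter fun lv => (c lv).2).map Prod.fst) +
      ((O.filter fun lv => !(c lv).1 && !(c lv).2).flatMap Prod.fst).length +
      ns ((O.filter fun lv => (c lv).1).map Prod.fst) ≤ ns (O.map Prod.fst) := by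
  induction O with
  | nil => simp [ns]
  | cons lv O ih =>
    have h := hc lv
    rw [List.map_cons, ns_cons, List.filter_cons, List.filter_cons, List.filter_cons]
    rcases h1 : (c lv).1 <;> rcases h2 : (c lv).2
    · simp only [Bool.not_false, Bool.and_self, if_true, Bool.false_eq_true, if_false,
        List.flatMap_cons, List.length_append]
      omega
    · simp only [Bool.not_false, Bool.not_true, Bool.and_false, if_true, Bool.false_eq_true, if_false,
        List.map_cons, ns_cons]
      omega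
    · simp only [Bool.not_false, Bool.not_true, Bool.false_and, if_true, Bool.false_eq_true, if_false,
        List.map_cons, ns_cons]
      omega
    · exact absurd ⟨h1, h2⟩ h

theorem ns_insE (q : ℕ) (T : Tab) (O : Ord) (i : ℕ) : ns (insE q T O i) ≤ ns (O.map Prod.fst) + 2 := by
  have h := filters_le (fun lv => cmpE q T O i (lv.1.headD 0) 0) (fun lv => evalO_disj _ _ _) O
  unfold insE
  rw [ns_append, ns_append, ns_cons, List.length_cons]
  have e : ns [] = 0 := rfl
  rw [e]
  omega

theorem mem_insE (q : ℕ) (T : Tab) (O : Ord) (i : ℕ) {l : List ℕ} (hl : l ∈ insE q T O i) {x : ℕ}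
    (hx : x ∈ l) : x = i ∨ ∃ lv ∈ O, x ∈ lv.1 := by
  unfold insE at hl
  rw [List.mem_append, List.mem_append] at hl
  rcases hl with (hl | hl) | hl
  · rw [List.mem_map] at hl
    obtain ⟨lv, h1, rfl⟩ := hl
    exact Or.inr ⟨lv, (List.mem_filter.1 h1).1, hx⟩
  · rw [List.mem_singleton] at hl
    subst hl
    rcases List.mem_cons.1 hx with h | h
    · exact Or.inl h
    · rw [List.mem_flatMap] at h
      obtain ⟨lv, h1, h2⟩ := h
      exact Or.inr ⟨lv, (List.mem_filter.1 h1).1, h2⟩
  · rw [List.mem_map] at hl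
    obtain ⟨lv, h1, rfl⟩ := hl
    exact Or.inr ⟨lv, (List.mem_filter.1 h1).1, hx⟩

theorem gapE_le (q C : ℕ) (T : Tab) (O : Ord) (k l : ℕ) : gapE q C T O k l ≤ C := by
  unfold gapE
  refine (List.length_filter_le _ _).trans ?_
  rw [List.length_range]

theorem map_fst_addE (q C : ℕ) (T : Tab) (O : Ord) (i : ℕ) :
    (addE q C T O i).map Prod.fst = insE q T O i := by
  unfold addE
  rw [List.map_map]
  have : (Prod.fst ∘ fun p : List ℕ × List ℕ =>
      (p.1, gapE q C T O (p.1.headD 0) (p.2.headD 0))) = Prod.fst := rfl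
  rw [this, List.map_fst_zip]
  rw [List.length_append, List.length_tail]
  simp
  omega

theorem mu_addE (q C : ℕ) (T : Tab) (O : Ord) (i : ℕ) : mu (addE q C T O i) ≤ mu O + (i + C + 2) := by
  have h1 := ns_insE q T O i
  have h2 : mxl ((addE q C T O i).flatMap fun lv => lv.2 :: lv.1) ≤
      mxl (O.flatMap fun lv => lv.2 :: lv.1) + i + C := by
    refine mxl_le fun x hx => ?_
    rw [List.mem_flatMap] at hx
    obtain ⟨lv, hlv, hx⟩ := hx
    rcases List.mem_cons.1 hx with h | h
    · unfold addE at hlv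
      rw [List.mem_map] at hlv
      obtain ⟨p, _, rfl⟩ := hlv
      have := gapE_le q C T O (p.1.headD 0) (p.2.headD 0)
      simp only at h
      omega
    · have h3 : lv.1 ∈ insE q T O i := by
        rw [← map_fst_addE q C T O i]
        exact List.mem_map_of_mem hlv
      rcases mem_insE q T O i h3 h with h4 | ⟨lv', h4, h5⟩
      · omega
      · have : x ≤ mxl (O.flatMap fun lv => lv.2 :: lv.1) :=
          le_mxl (List.mem_flatMap.2 ⟨lv', h4, List.mem_cons_of_mem _ h5⟩)
        omega
  unfold mu
  rw [map_fst_addE]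
  omega

theorem length_le_ns (L : List (List ℕ)) : L.length ≤ ns L := by
  induction L with
  | nil => simp [ns]
  | cons l L ih => rw [ns_cons, List.length_cons]; omega

theorem mem_length_le_ns {L : List (List ℕ)} {l : List ℕ} (h : l ∈ L) : l.length ≤ ns L := by
  induction L with
  | nil => simp at h
  | cons l' L ih =>
    rw [ns_cons]
    rcases List.mem_cons.1 h with h | h
    · rw [h]; omega
    · have := ih h
      omega

theorem sz_le_mu (O : Ord) : sz O ≤ (Polynomial.X * ((Polynomial.X * (2 * Polynomial.X + 2) + 1) +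
    (2 * Polynomial.X + 1) + 2) + 1 : Polynomial ℕ).eval (mu O) := by
  set m := mu O with hm
  have h1 : O.length ≤ m := by
    have := length_le_ns (O.map Prod.fst)
    rw [List.length_map] at this
    unfold mu at hm
    omega
  have h2 : ∀ lv ∈ O, sz lv ≤ (m * (2 * m + 2) + 1) + (2 * m + 1) + 1 := by
    intro lv hlv
    obtain ⟨l, g⟩ := lv
    have h3 : l.length ≤ m := by
      have := mem_length_le_ns (List.mem_map_of_mem (f := Prod.fst) hlv)
      unfold mu at hm
      simp only at this
      omega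
    have h4 : ∀ x ∈ l, sz x ≤ 2 * m + 1 := by
      intro x hx
      have : x ≤ mxl (O.flatMap fun lv => lv.2 :: lv.1) :=
        le_mxl (List.mem_flatMap.2 ⟨_, hlv, List.mem_cons_of_mem _ hx⟩)
      rw [sz_nat]
      unfold mu at hm
      omega
    have h5 : g ≤ m := by
      have : g ≤ mxl (O.flatMap fun lv => lv.2 :: lv.1) :=
        le_mxl (List.mem_flatMap.2 ⟨_, hlv, List.mem_cons_self⟩)
      unfold mu at hm
      omega
    have h6 := sz_le_of_length h3 h4
    rw [sz_pair, sz_nat]
    have h7 : m * (2 * m + 1 + 1) = m * (2 * m + 2) := by ring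
    omega
  have h8 := sz_le_of_length h1 h2
  refine h8.trans (le_of_eq ?_)
  simp only [Polynomial.eval_add, Polynomial.eval_mul, Polynomial.eval_X, Polynomial.eval_ofNat,
    Polynomial.eval_one]
  ring

end NumP

open NumP in
theorem poly_buildE (q : ℕ) {α : Type*} [Enc α] {C : α → ℕ} {T : α → Tab} (hC : PolyTime C)
    (hT : PolyTime T) : PolyTime (fun a => buildE q (C a) (T a)) := by
  refine PolyTime.foldl_meas (f := fun a (O : Ord) (i : ℕ) => addE q (C a) (T a) O i) mu
    hT.length.range (PolyTime.const ([] : Ord))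
    (addE_comp q (hC.comp PolyTime.id.fst) (hT.comp PolyTime.id.fst) PolyTime.id.snd.fst
      PolyTime.id.snd.snd) ⟨_, sz_le_mu⟩ (PB.const _) ?_
  obtain ⟨p, hp⟩ := hC.sz_le
  obtain ⟨r, hr⟩ := hT.sz_le
  refine ⟨p + r + 2, fun a O i hi => ?_⟩
  have h1 := mu_addE q (C a) (T a) O i
  have h2 := hp a
  have h3 := hr a
  have h4 := length_lt_sz (T a)
  rw [List.mem_range] at hi
  rw [sz_nat] at h2
  simp only [Polynomial.eval_add, Polynomial.eval_ofNat]
  omega

namespace NumP

variable {α : Type*} [Enc α]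

theorem capE_comp {T : α → Tab} {M : α → Mark} (hT : PolyTime T) (hM : PolyTime M) :
    PolyTime (fun a => capE (T a) (M a)) :=
  ((((PolyTime.const 2).mul (hT.map (f := fun _ (M : Mark) => M.length)
    PolyTime.id.snd.length).sum).add hM.length).add (PolyTime.const 3))

theorem sgnQ_comp (q : ℕ) {T : α → Tab} {M : α → Mark} (hT : PolyTime T) (hM : PolyTime M) :
    PolyTime (fun a => sgnQ q (T a) (M a)) :=
  poly_evalO q (poly_buildE q (capE_comp hT hM) hT) hM

theorem zeroQ_comp (q : ℕ) {T : α → Tab} {M : α → Mark} (hT : PolyTime T) (hM : PolyTime M) :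
    PolyTime (fun a => zeroQ q (T a) (M a)) :=
  (sgnQ_comp q hT hM).fst.not.and (sgnQ_comp q hT hM).snd.not

theorem negPart_comp (q : ℕ) {T : α → Tab} {M : α → Mark} (hT : PolyTime T) (hM : PolyTime M) :
    PolyTime (fun a => negPart q (T a) (M a)) :=
  hM.filter (f := fun a (p : Bool × ℕ) => (sgnQ q (T a) ((T a).getD p.2 [])).2)
    (sgnQ_comp q (hT.comp PolyTime.id.fst) ((hT.comp PolyTime.id.fst).getD PolyTime.id.snd.snd
      (PolyTime.const []))).snd

end NumP

theorem poly_sgnQ (q : ℕ) : PolyTime (fun p : Tab × Mark => sgnQ q p.1 p.2) :=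
  NumP.sgnQ_comp q PolyTime.id.fst PolyTime.id.snd

theorem poly_isIntQ (q : ℕ) : PolyTime (fun p : Tab × Mark => isIntQ q p.1 p.2) := by
  have hN : PolyTime (fun p : Tab × Mark => negPart q p.1 p.2) :=
    NumP.negPart_comp q PolyTime.id.fst PolyTime.id.snd
  have h1 : ∀ s : Bool, PolyTime (fun x : (Tab × Mark) × ℕ => zeroQ q x.1.1
      (negPart q x.1.1 x.1.2 ++ List.replicate x.2 (s, 0))) := fun s =>
    NumP.zeroQ_comp q PolyTime.id.fst.fst ((hN.comp PolyTime.id.fst).append
      (PolyTime.id.snd.replicate (PolyTime.const (s, 0))))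
  exact (hN.length.succ.range).any (f := fun (p : Tab × Mark) (f : ℕ) =>
    zeroQ q p.1 (negPart q p.1 p.2 ++ List.replicate f (false, 0)) ||
    zeroQ q p.1 (negPart q p.1 p.2 ++ List.replicate f (true, 0))) ((h1 false).or (h1 true))

end Pool.Agent.OR1
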