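import Pool.Agent.OR1.IntQ
import Pool.Agent.OR1.NumPoly

/-!
# The number systems with base `-q` (`q ≥ 2`) and `± 1`

For base `-q` the sign of an item with odd exponent is changed; the parities of the exponents are
computed along the table.

PROOF of `convT_spec`: by induction along the table (`st.1` = converted table of the nodes `< i`,
`st.2` = list of their parities, `true` = odd): `(-q) ^ z = (-1) ^ z * q ^ z`, so
`mv (-q) e M = mv q e (conv π M)`.  Parity of the integer `V = mv q e M'`: for odd `q` multiply by
`q ^ K`, `K` large: `V ≡ M.length (mod 2)`.  For even `q` items with exponent `> 0` are even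
integers, items with exponent `0` are odd, and the items with negative exponents have an integral
sum `± f`, `0 ≤ f ≤ F.length` (see `isIntQ_spec`), which is found by the search.
-/

namespace Pool.Agent.OR1

open Pool.Agent.Lib.PT

/-- change of the signs of the items with odd exponents -/
def conv (π : List Bool) (M : Mark) : Mark := M.map fun p => (xor p.1 (π.getD p.2 false), p.2)

/-- `|value of the part with negative exponents|`, if this value is an integer -/
def negVal (q : ℕ) (T : Tab) (M : Mark) : ℕ :=
  ((List.range ((negPart q T M).length + 1)).filter fun f =>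
    zeroQ q T (negPart q T M ++ List.replicate f (false, 0)) ||
    zeroQ q T (negPart q T M ++ List.replicate f (true, 0))).headD 0

/-- is the number odd? -/
def oddN (n : ℕ) : Bool := (fun b : Bool => !b)^[n] false

/-- is the (integer) value of `M` odd? -/
def parQ (q : ℕ) (T : Tab) (M : Mark) : Bool :=
  bif oddN q then oddN M.length
  else oddN ((M.filter fun p => zeroQ q T (T.getD p.2 [])).length + negVal q T M)

/-- one step of the conversion of the table -/
def pstep (q : ℕ) (st : Tab × List Bool) (M : Mark) : Tab × List Bool :=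
  (st.1 ++ [conv st.2 M], st.2 ++ [parQ q st.1 (conv st.2 M)])

/-- converted table and list of parities -/
def convT (q : ℕ) (T : Tab) : Tab × List Bool := T.foldl (pstep q) ([], [])

/-- sign test for the base `-q` -/
def sgnN (q : ℕ) (T : Tab) (M : Mark) : Bool × Bool :=
  sgnQ q (convT q T).1 (conv (convT q T).2 M)

/-- test for integrality for the base `-q` -/
def isIntN (q : ℕ) (T : Tab) (M : Mark) : Bool :=
  isIntQ q (convT q T).1 (conv (convT q T).2 M)

/-- number of items of a sign -/
def cntS (s : Bool) (M : Mark) : ℕ := (M.filter fun p => p.1 == s).length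

/-- sign test for the base `1` -/
def sgnOne (M : Mark) : Bool × Bool :=
  (decide (cntS false M < cntS true M), decide (cntS true M < cntS false M))

/-- sign test for the base `-1` -/
def sgnNegOne (T : Tab) (M : Mark) : Bool × Bool :=
  sgnOne (conv (T.map fun N => oddN N.length) M)

/-! ### auxiliary lemmas -/

theorem oddN_eq (n : ℕ) : oddN n = decide (Odd n) := by
  induction n with
  | zero => simp [oddN]
  | succ n ih =>
    have : oddN (n + 1) = !(oddN n) := by
      unfold oddN
      rw [Function.iterate_succ_apply']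
    rw [this, ih]
    by_cases h : Odd n
    · have h2 : ¬ Odd (n + 1) := by rw [Nat.odd_add_one]; simpa using h
      simp only [h, h2, decide_true, decide_false, Bool.not_true]
    · have h2 : Odd (n + 1) := by rw [Nat.odd_add_one]; exact h
      simp only [h, h2, decide_true, decide_false, Bool.not_false]

theorem conv_cons (π : List Bool) (p : Bool × ℕ) (M : Mark) :
    conv π (p :: M) = (xor p.1 (π.getD p.2 false), p.2) :: conv π M := rfl

theorem conv_below {n : ℕ} {π : List Bool} {M : Mark} (h : Below n M) : Below n (conv π M) := by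
  intro p hp
  unfold conv at hp
  rw [List.mem_map] at hp
  obtain ⟨r, hr, rfl⟩ := hp
  exact h r hr

theorem conv_length (π : List Bool) (M : Mark) : (conv π M).length = M.length := by
  simp [conv]

theorem conv_mv {b : ℤ} {e : ℕ → ℤ} {n : ℕ} {π : List Bool} {M : Mark}
    (hπ : ∀ i < n, π.getD i false = decide (Odd (e i))) (hM : Below n M) :
    mv b e (conv π M) = mv (-b) e M := by
  induction M with
  | nil => rfl
  | cons p M ih =>
    rw [conv_cons, mv_cons, mv_cons, ih (fun r hr => hM r (List.mem_cons_of_mem _ hr)),
      hπ p.2 (hM p List.mem_cons_self)]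
    congr 1
    push_cast
    rcases Int.even_or_odd (e p.2) with h | h
    · have h2 : ¬ Odd (e p.2) := Int.not_odd_iff_even.2 h
      simp only [h2, decide_false, Bool.xor_false, h.neg_zpow]
    · simp only [h, decide_true, Bool.xor_true, h.neg_zpow, sg_not]
      ring

theorem unit_parity {b : ℤ} (hb : b = 1 ∨ b = -1) (e : ℕ → ℤ) (M : Mark) :
    ∃ z : ℤ, mv b e M = z ∧ (Odd z ↔ Odd M.length) := by
  induction M with
  | nil => exact ⟨0, by simp, by simp⟩
  | cons p M ih =>
    obtain ⟨z, hz, hzo⟩ := ih
    have key : ∃ u : ℤ, sg p.1 * (b : ℚ) ^ e p.2 = u ∧ Odd u := by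
      have h1 : (b : ℚ) ^ e p.2 = 1 ∨ (b : ℚ) ^ e p.2 = -1 := by
        rcases hb with rfl | rfl
        · left; simp
        · push_cast
          rcases Int.even_or_odd (e p.2) with h | h
          · left; rw [h.neg_zpow, one_zpow]
          · right; rw [h.neg_zpow, one_zpow]
      have h2 : sg p.1 = 1 ∨ sg p.1 = -1 := by
        cases p.1
        · right; rfl
        · left; rfl
      rcases h1 with h1 | h1 <;> rcases h2 with h2 | h2
      · exact ⟨1, by rw [h1, h2]; norm_num, by decide⟩
      · exact ⟨-1, by rw [h1, h2]; norm_num, by decide⟩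
      · exact ⟨-1, by rw [h1, h2]; norm_num, by decide⟩
      · exact ⟨1, by rw [h1, h2]; norm_num, by decide⟩
    obtain ⟨u, hu, huo⟩ := key
    refine ⟨u + z, by rw [mv_cons, hu, hz]; push_cast; rfl, ?_⟩
    rw [List.length_cons, Nat.odd_add_one, ← hzo, Int.odd_add]
    constructor
    · intro h hz
      exact Int.not_odd_iff_even.2 (h.1 huo) hz
    · intro h
      exact ⟨fun _ => Int.not_odd_iff_even.1 h, fun _ => huo⟩

theorem sg_unit (s : Bool) : ∃ u : ℤ, sg s = u ∧ (u = 1 ∨ u = -1) := by
  cases s
  · exact ⟨-1, by simp, Or.inr rfl⟩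
  · exact ⟨1, by simp, Or.inl rfl⟩

theorem scaled {q : ℕ} (hq : 2 ≤ q) (e : ℕ → ℤ) (K : ℕ) (M : Mark)
    (hK : ∀ p ∈ M, 0 ≤ e p.2 + K) :
    ∃ w : ℤ, mv q e M * (q : ℚ) ^ K = w ∧ (Odd q → (Odd w ↔ Odd M.length)) := by
  have hq0 : (q : ℚ) ≠ 0 := by
    have : 0 < q := by omega
    exact_mod_cast this.ne'
  induction M with
  | nil => exact ⟨0, by simp, by simp⟩
  | cons p M ih =>
    obtain ⟨w, hw, hwo⟩ := ih (fun r hr => hK r (List.mem_cons_of_mem _ hr))
    obtain ⟨u, hu, hu1⟩ := sg_unit p.1
    obtain ⟨m, hm⟩ := Int.eq_ofNat_of_zero_le (hK p List.mem_cons_self)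
    have h1 : (q : ℚ) ^ e p.2 * (q : ℚ) ^ K = ((q : ℤ) : ℚ) ^ m := by
      have h2 : (q : ℚ) ^ K = (q : ℚ) ^ (K : ℤ) := (zpow_natCast _ _).symm
      rw [h2, ← zpow_add₀ hq0, hm, zpow_natCast]
      push_cast
      rfl
    refine ⟨u * (q : ℤ) ^ m + w, ?_, ?_⟩
    · rw [mv_cons, add_mul, hw, mul_assoc, hu]
      push_cast at h1 ⊢
      rw [h1]
    · intro ho
      have hu' : Odd (u * (q : ℤ) ^ m) := by
        refine Int.odd_mul.2 ⟨?_, ?_⟩
        · rcases hu1 with rfl | rfl <;> decide
        · exact Odd.pow (by exact_mod_cast ho)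
      rw [List.length_cons, Nat.odd_add_one, ← hwo ho, Int.odd_add]
      constructor
      · intro h hz
        exact Int.not_odd_iff_even.2 (h.1 hu') hz
      · intro h
        exact ⟨fun _ => Int.not_odd_iff_even.1 h, fun _ => hu'⟩

theorem exists_K (e : ℕ → ℤ) (M : Mark) : ∃ K : ℕ, ∀ p ∈ M, 0 ≤ e p.2 + K := by
  induction M with
  | nil => exact ⟨0, by simp⟩
  | cons p M ih =>
    obtain ⟨K, hK⟩ := ih
    refine ⟨K + (e p.2).natAbs, ?_⟩
    intro r hr
    rcases List.mem_cons.1 hr with h | h
    · subst h
      omega
    · have := hK r h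
      omega

theorem odd_case {q : ℕ} (hq : 2 ≤ q) (ho : Odd q) {e : ℕ → ℤ} {M : Mark} {z : ℤ}
    (hz : mv q e M = z) : Odd z ↔ Odd M.length := by
  obtain ⟨K, hK⟩ := exists_K e M
  obtain ⟨w, hw, hwo⟩ := scaled hq e K M hK
  rw [← hwo ho]
  rw [hz] at hw
  have h1 : z * (q : ℤ) ^ K = w := by exact_mod_cast hw
  rw [← h1, Int.odd_mul]
  have h2 : Odd ((q : ℤ) ^ K) := Odd.pow (by exact_mod_cast ho)
  simp [h2]

theorem split_even {q : ℕ} (he : Even q) (e : ℕ → ℤ) (M : Mark) :
    ∃ v : ℤ, mv q e M = v + mv q e (M.filter fun p => decide (e p.2 < 0)) ∧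
      (Odd v ↔ Odd (M.filter fun p => decide (e p.2 = 0)).length) := by
  induction M with
  | nil => exact ⟨0, by simp, by simp⟩
  | cons p M ih =>
    obtain ⟨v, hv, hvo⟩ := ih
    obtain ⟨u, hu, hu1⟩ := sg_unit p.1
    rcases lt_trichotomy (e p.2) 0 with h | h | h
    · refine ⟨v, ?_, ?_⟩
      · rw [List.filter_cons_of_pos (by simpa using h), mv_cons, mv_cons, hv]
        ring
      · rw [List.filter_cons_of_neg (by simpa using h.ne)]
        exact hvo
    · refine ⟨u + v, ?_, ?_⟩
      · rw [List.filter_cons_of_neg (by simp [h]), mv_cons, hv, h, hu, zpow_zero]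
        push_cast
        ring
      · rw [List.filter_cons_of_pos (by simpa using h), List.length_cons, Nat.odd_add_one, ← hvo,
          Int.odd_add]
        have huo : Odd u := by rcases hu1 with rfl | rfl <;> decide
        constructor
        · intro h hz
          exact Int.not_odd_iff_even.2 (h.1 huo) hz
        · intro h
          exact ⟨fun _ => Int.not_odd_iff_even.1 h, fun _ => huo⟩
    · obtain ⟨m, hm⟩ := Int.eq_ofNat_of_zero_le h.le
      refine ⟨u * (q : ℤ) ^ m + v, ?_, ?_⟩
      · rw [List.filter_cons_of_neg (by simpa using h.le), mv_cons, hv, hm, hu, zpow_natCast]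
        push_cast
        ring
      · rw [List.filter_cons_of_neg (by simpa using h.ne'), ← hvo]
        have h2 : Even (u * (q : ℤ) ^ m) := by
          refine Even.mul_left (Even.pow_of_ne_zero (by exact_mod_cast he) ?_) _
          intro hm0
          rw [hm0] at hm
          simp at hm
          omega
        rw [Int.odd_add]
        constructor
        · intro h3
          by_contra h4
          exact Int.not_even_iff_odd.2 (h3.2 (Int.not_odd_iff_even.1 h4)) h2
        · intro h3
          refine ⟨fun h4 => absurd h2 (Int.not_even_iff_odd.2 h4), fun h4 => ?_⟩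
          exact absurd h4 (Int.not_even_iff_odd.2 h3)

theorem neg_abs_le {q : ℕ} (hq : 2 ≤ q) {e : ℕ → ℤ} {M : Mark} (h : ∀ p ∈ M, e p.2 ≤ 0) :
    |mv q e M| ≤ M.length := by
  induction M with
  | nil => simp
  | cons p M ih =>
    rw [mv_cons, List.length_cons]
    refine (abs_add_le _ _).trans ?_
    have h1 := ih (fun r hr => h r (List.mem_cons_of_mem _ hr))
    have h2 : |sg p.1 * ((q : ℤ) : ℚ) ^ e p.2| ≤ 1 := by
      have h3 : |sg p.1| = 1 := by cases p.1 <;> simp
      rw [abs_mul, h3, one_mul]
      have hq1 : (1 : ℚ) ≤ ((q : ℤ) : ℚ) := by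
        have : 1 ≤ q := by omega
        exact_mod_cast this
      rw [abs_of_nonneg (zpow_nonneg (by linarith) _)]
      exact zpow_le_one_of_nonpos₀ hq1 (h p List.mem_cons_self)
    push_cast at h1 h2 ⊢
    linarith

theorem zeroQ_spec {q : ℕ} (hq : 2 ≤ q) {T : Tab} {e : ℕ → ℤ} {M : Mark} (h : Model q T e)
    (hM : Below T.length M) : zeroQ q T M = decide (mv q e M = 0) := by
  obtain ⟨h1, h2⟩ := sgnQ_spec hq h hM
  unfold zeroQ
  rw [h1, h2]
  rcases lt_trichotomy (mv q e M) 0 with h3 | h3 | h3
  · simp [h3, h3.ne]
  · simp [h3]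
  · simp [h3, h3.ne']

theorem filter_range_eq (n v : ℕ) (P : ℕ → Bool) (hv : v < n) (hP : ∀ f < n, P f = decide (f = v)) :
    ((List.range n).filter P).headD 0 = v := by
  have h1 : (List.range n).filter P = (List.range n).filter (fun f => decide (f = v)) :=
    List.filter_congr fun f hf => hP f (List.mem_range.1 hf)
  rw [h1]
  have h2 : ∀ n, v < n → (List.range n).filter (fun f => decide (f = v)) = [v] := by
    intro n
    induction n with
    | zero => intro h; omega
    | succ n ih =>
      intro h
      rw [List.range_succ, List.filter_append]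
      rcases Nat.lt_succ_iff_lt_or_eq.1 h with h3 | h3
      · rw [ih h3]
        have : ¬ n = v := by omega
        simp [this]
      · subst h3
        have : (List.range v).filter (fun f => decide (f = v)) = [] := by
          rw [List.filter_eq_nil_iff]
          intro a ha
          have := List.mem_range.1 ha
          simp
          omega
        rw [this]
        simp
  rw [h2 n hv]
  rfl

theorem parQ_spec {q : ℕ} (hq : 2 ≤ q) {T : Tab} {e : ℕ → ℤ} {M : Mark} {z : ℤ}
    (h : Model q T e) (hM : Below T.length M) (hz : mv q e M = z) :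
    parQ q T M = decide (Odd z) := by
  unfold parQ
  rw [oddN_eq q]
  by_cases ho : Odd q
  · simp only [ho, decide_true, cond_true]
    rw [oddN_eq]
    exact decide_eq_decide.2 (odd_case hq ho hz).symm
  · have he : Even q := Nat.not_odd_iff_even.1 ho
    simp only [ho, decide_false, cond_false]
    obtain ⟨v, hv, hvo⟩ := split_even he e M
    have hN : negPart q T M = M.filter fun p => decide (e p.2 < 0) := by
      unfold negPart
      refine List.filter_congr fun p hp => ?_
      have hb := h.below (hM p hp)
      rw [(sgnQ_spec hq h (hb.mono (hM p hp).le)).2, h.val (hM p hp)]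
      exact decide_eq_decide.2 (by exact_mod_cast Iff.rfl)
    have h0 : (M.filter fun p => zeroQ q T (T.getD p.2 [])) =
        M.filter fun p => decide (e p.2 = 0) := by
      refine List.filter_congr fun p hp => ?_
      have hb := h.below (hM p hp)
      rw [zeroQ_spec hq h (hb.mono (hM p hp).le), h.val (hM p hp)]
      exact decide_eq_decide.2 (by exact_mod_cast Iff.rfl)
    set F : Mark := M.filter fun p => decide (e p.2 < 0) with hF
    have hFb : Below T.length F := fun p hp => hM p (List.mem_of_mem_filter hp)
    have hFn : ∀ p ∈ F, e p.2 ≤ 0 := by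
      intro p hp
      have := (List.mem_filter.1 hp).2
      exact (of_decide_eq_true this).le
    have hFz : mv q e F = ((z - v : ℤ) : ℚ) := by
      push_cast
      rw [← hz, hv]
      ring
    have hFle : (z - v).natAbs ≤ F.length := by
      have h1 := neg_abs_le hq hFn
      rw [hFz] at h1
      have h2 : |z - v| ≤ (F.length : ℤ) := by exact_mod_cast h1
      rw [Int.abs_eq_natAbs] at h2
      exact_mod_cast h2
    have hnv : negVal q T M = (z - v).natAbs := by
      unfold negVal
      rw [hN]
      refine filter_range_eq _ _ _ (by omega) ?_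
      intro f _
      have hr1 : Below T.length (F ++ List.replicate f (false, 0)) :=
        hFb.append (Below.replicate h.pos f)
      have hr2 : Below T.length (F ++ List.replicate f (true, 0)) :=
        hFb.append (Below.replicate h.pos f)
      rw [zeroQ_spec hq h hr1, zeroQ_spec hq h hr2, mv_append, mv_append, mv_replicate h,
        mv_replicate h, hFz, sg_true, sg_false, ← Bool.decide_or]
      refine decide_eq_decide.2 ?_
      have e1 : ((z - v : ℤ) : ℚ) + (f : ℚ) * -1 = 0 ↔ (z - v) - (f : ℤ) = 0 := by
        rw [← Int.cast_inj (α := ℚ)]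
        push_cast
        constructor <;> intro hh <;> linarith
      have e2 : ((z - v : ℤ) : ℚ) + (f : ℚ) * 1 = 0 ↔ (z - v) + (f : ℤ) = 0 := by
        rw [← Int.cast_inj (α := ℚ)]
        push_cast
        constructor <;> intro hh <;> linarith
      rw [e1, e2]
      omega
    rw [hnv, h0, oddN_eq]
    refine decide_eq_decide.2 ?_
    rw [Nat.odd_add, ← hvo]
    have h5 : Even (z - v).natAbs ↔ Even (z - v) := Int.natAbs_even
    rw [h5]
    have h6 : z = v + (z - v) := by ring
    constructor
    · intro h7
      rw [h6, Int.odd_add]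
      exact h7
    · intro h7
      rw [h6, Int.odd_add] at h7
      exact h7

/-- the invariant of the conversion of the table -/
theorem convT_inv {q : ℕ} (hq : 2 ≤ q) {T : Tab} {e : ℕ → ℤ} (h : Model (-(q : ℤ)) T e)
    (L : Tab) : L <+: T →
    (L.foldl (pstep q) ([], [])).1.length = L.length ∧
    (L.foldl (pstep q) ([], [])).2.length = L.length ∧
    (∀ i < L.length, (L.foldl (pstep q) ([], [])).2.getD i false = decide (Odd (e i))) ∧
    (∀ i M, (L.foldl (pstep q) ([], [])).1[i]? = some M → Below i M ∧ mv q e M = e i) ∧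
    (0 < L.length → (L.foldl (pstep q) ([], [])).1[0]? = some []) := by
  induction L using List.reverseRecOn with
  | nil =>
    intro _
    refine ⟨rfl, rfl, by simp, by simp, by simp⟩
  | append_singleton L N ih =>
    intro hpre
    obtain ⟨i1, i2, i3, i4, i5⟩ := ih ((List.prefix_append L [N]).trans hpre)
    have hTN : T[L.length]? = some N := by
      obtain ⟨R, hR⟩ := hpre
      rw [← hR]
      simp
    obtain ⟨hNb, hNv⟩ := h.ok _ _ hTN
    rw [List.foldl_append, List.foldl_cons, List.foldl_nil]
    set st := L.foldl (pstep q) ([], []) with hst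
    have hc1 : Below L.length (conv st.2 N) := conv_below hNb
    have hc2 : mv q e (conv st.2 N) = e L.length := by
      rw [conv_mv i3 hNb]
      exact hNv
    have hpar : parQ q st.1 (conv st.2 N) = decide (Odd (e L.length)) := by
      rcases Nat.eq_zero_or_pos L.length with h0 | h0
      · have hL : L = [] := List.eq_nil_of_length_eq_zero h0
        have hN0 : N = [] := by
          rw [hL, List.length_nil, h.zero] at hTN
          exact (Option.some.inj hTN).symm
        have hst0 : st = ([], []) := by rw [hst, hL]; rfl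
        rw [hst0, hN0, hL, List.length_nil, h.e_zero]
        have h2 : negVal q [] [] = 0 := by
          unfold negVal
          have h3 : (negPart q [] []) = [] := rfl
          rw [h3]
          rw [List.length_nil, zero_add, List.range_one]
          rw [List.filter_cons]
          split_ifs <;> rfl
        have h3 : conv [] [] = [] := rfl
        rw [h3]
        unfold parQ
        rw [h2]
        simp [oddN]
      · have hm : Model q st.1 e := ⟨i5 h0, i4⟩
        exact parQ_spec hq hm (by rw [i1]; exact hc1) hc2
    refine ⟨?_, ?_, ?_, ?_, ?_⟩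
    · simp [pstep, i1]
    · simp [pstep, i2]
    · intro i hi
      rw [List.length_append, List.length_singleton] at hi
      change (st.2 ++ [parQ q st.1 (conv st.2 N)]).getD i false = _
      rcases Nat.lt_succ_iff_lt_or_eq.1 hi with h1 | h1
      · rw [List.getD_append _ _ _ _ (by rw [i2]; exact h1)]
        exact i3 i h1
      · subst h1
        rw [List.getD_append_right _ _ _ _ (by rw [i2]), i2, Nat.sub_self, hpar]
        rfl
    · intro i M hiM
      change (st.1 ++ [conv st.2 N])[i]? = some M at hiM
      rcases lt_or_ge i st.1.length with h1 | h1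
      · rw [List.getElem?_append_left h1] at hiM
        exact i4 i M hiM
      · rw [List.getElem?_append_right h1] at hiM
        have h2 : i - st.1.length = 0 := by
          by_contra h3
          obtain ⟨m, hm⟩ := Nat.exists_eq_succ_of_ne_zero h3
          rw [hm] at hiM
          simp at hiM
        rw [h2] at hiM
        have h3 : conv st.2 N = M := by simpa using hiM
        have h4 : i = L.length := by rw [i1] at h1 h2; omega
        subst h4
        rw [← h3]
        exact ⟨hc1, hc2⟩
    · intro _
      change (st.1 ++ [conv st.2 N])[0]? = some []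
      rcases Nat.eq_zero_or_pos L.length with h0 | h0
      · have hL : L = [] := List.eq_nil_of_length_eq_zero h0
        have hN0 : N = [] := by
          rw [hL, List.length_nil, h.zero] at hTN
          exact (Option.some.inj hTN).symm
        have hst0 : st.1 = [] := List.eq_nil_of_length_eq_zero (by rw [i1, h0])
        rw [hst0, hN0]
        rfl
      · rw [List.getElem?_append_left (by rw [i1]; exact h0)]
        exact i5 h0

theorem convT_spec {q : ℕ} (hq : 2 ≤ q) {T : Tab} {e : ℕ → ℤ} (h : Model (-(q : ℤ)) T e) :
    Model q (convT q T).1 e ∧ (convT q T).1.length = T.length ∧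
      ∀ M : Mark, Below T.length M → Below T.length (conv (convT q T).2 M) ∧
        mv q e (conv (convT q T).2 M) = mv (-(q : ℤ)) e M := by
  obtain ⟨i1, _, i3, i4, i5⟩ := convT_inv hq h T (List.prefix_refl T)
  exact ⟨⟨i5 h.pos, i4⟩, i1, fun M hM => ⟨conv_below hM, conv_mv i3 hM⟩⟩

theorem mv_one_eq (e : ℕ → ℤ) (M : Mark) :
    mv 1 e M = (cntS true M : ℚ) - cntS false M := by
  induction M with
  | nil => simp [cntS]
  | cons p M ih =>
    rw [mv_cons, ih]
    obtain ⟨s, i⟩ := p
    cases s
    · simp [cntS]
      ring
    · simp [cntS]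
      ring

theorem sgnOne_spec {e : ℕ → ℤ} (M : Mark) :
    (sgnOne M).1 = decide (0 < mv 1 e M) ∧ (sgnOne M).2 = decide (mv 1 e M < 0) := by
  rw [mv_one_eq]
  unfold sgnOne
  constructor
  · refine decide_eq_decide.2 ?_
    rw [sub_pos]
    exact_mod_cast Iff.rfl
  · refine decide_eq_decide.2 ?_
    rw [sub_neg]
    exact_mod_cast Iff.rfl

theorem sgnNegOne_spec {T : Tab} {e : ℕ → ℤ} {M : Mark} (h : Model (-1) T e)
    (hM : Below T.length M) :
    (sgnNegOne T M).1 = decide (0 < mv (-1) e M) ∧
      (sgnNegOne T M).2 = decide (mv (-1) e M < 0) := by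
  have hπ : ∀ i < T.length, (T.map fun N => oddN N.length).getD i false =
      decide (Odd (e i)) := by
    intro i hi
    have h1 : T[i]? = some T[i] := List.getElem?_eq_getElem hi
    obtain ⟨_, hv⟩ := h.ok i _ h1
    obtain ⟨z, hz, hzo⟩ := unit_parity (b := -1) (Or.inr rfl) e T[i]
    have h2 : z = e i := by
      rw [hv] at hz
      exact_mod_cast hz.symm
    rw [List.getD_eq_getElem?_getD, List.getElem?_map, h1]
    simp only [Option.map_some, Option.getD_some]
    rw [oddN_eq, ← h2]
    exact decide_eq_decide.2 hzo.symm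
  have key : mv 1 e (conv (T.map fun N => oddN N.length) M) = mv (-1) e M := conv_mv hπ hM
  unfold sgnNegOne
  rw [← key]
  exact sgnOne_spec _

theorem isZ_one {e : ℕ → ℤ} (M : Mark) : IsZ 1 e M ∧ IsZ (-1) e M := by
  obtain ⟨z, hz, _⟩ := unit_parity (b := 1) (Or.inl rfl) e M
  obtain ⟨w, hw, _⟩ := unit_parity (b := -1) (Or.inr rfl) e M
  exact ⟨⟨z, hz⟩, ⟨w, hw⟩⟩

end Pool.Agent.OR1
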