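import Pool.Agent.OR1.Neg

/-!
# Polynomial time of the tests for the bases `-q` and `± 1`

Closure lemmas of `Pool/Agent/Lib/PolyTime` and `poly_sgnQ`, `poly_isIntQ` (NumPoly.lean).
`convT`: `foldl` with an additive size bound: the table and the list of parities grow by one element
in every step, the new marking has the length of the old one and the same indices.
-/

namespace Pool.Agent.OR1

open Pool.Agent.Lib.PT

theorem poly_oddN {α : Type*} [Enc α] {f : α → ℕ} (hf : PolyTime f) :
    PolyTime (fun a => oddN (f a)) := by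
  have h := PolyTime.iterate (f := fun (_ : α) (b : Bool) => !b) hf (PolyTime.const false)
    PolyTime.id.snd.not ⟨Polynomial.C 3, fun a i _ => by
      rw [Polynomial.eval_C]; exact sz_bool_le _⟩
  exact h

theorem poly_conv {α : Type*} [Enc α] {π : α → List Bool} {M : α → Mark} (hp : PolyTime π)
    (hM : PolyTime M) : PolyTime (fun a => conv (π a) (M a)) :=
  hM.map (f := fun a (p : Bool × ℕ) => (xor p.1 ((π a).getD p.2 false), p.2))
    ((PolyTime.id.snd.fst.xor ((hp.comp PolyTime.id.fst).getD PolyTime.id.snd.snd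
      (PolyTime.const false))).pair PolyTime.id.snd.snd)

namespace NegP

variable {α : Type*} [Enc α] (q : ℕ) {T : α → Tab} {M : α → Mark}

theorem sgnQ_comp (hT : PolyTime T) (hM : PolyTime M) : PolyTime (fun a => sgnQ q (T a) (M a)) :=
  PolyTime.comp₂ (g := fun (T : Tab) (M : Mark) => sgnQ q T M) (poly_sgnQ q) hT hM

theorem zeroQ_comp (hT : PolyTime T) (hM : PolyTime M) :
    PolyTime (fun a => zeroQ q (T a) (M a)) :=
  (sgnQ_comp q hT hM).fst.not.and (sgnQ_comp q hT hM).snd.not

theorem negPart_comp (hT : PolyTime T) (hM : PolyTime M) :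
    PolyTime (fun a => negPart q (T a) (M a)) :=
  hM.filter (f := fun a (p : Bool × ℕ) => (sgnQ q (T a) ((T a).getD p.2 [])).2)
    (sgnQ_comp q (hT.comp PolyTime.id.fst) ((hT.comp PolyTime.id.fst).getD PolyTime.id.snd.snd
      (PolyTime.const []))).snd

theorem negVal_comp (hT : PolyTime T) (hM : PolyTime M) :
    PolyTime (fun a => negVal q (T a) (M a)) := by
  have hN := negPart_comp q hT hM
  refine PolyTime.headD ((hN.length.succ.range).filter (f := fun a (f : ℕ) =>
    zeroQ q (T a) (negPart q (T a) (M a) ++ List.replicate f (false, 0)) ||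
    zeroQ q (T a) (negPart q (T a) (M a) ++ List.replicate f (true, 0))) ?_) (PolyTime.const 0)
  have h1 : ∀ s : Bool, PolyTime (fun x : α × ℕ => zeroQ q (T x.1)
      (negPart q (T x.1) (M x.1) ++ List.replicate x.2 (s, 0))) := fun s =>
    zeroQ_comp q (hT.comp PolyTime.id.fst) ((hN.comp PolyTime.id.fst).append
      (PolyTime.id.snd.replicate (PolyTime.const (s, 0))))
  exact (h1 false).or (h1 true)

theorem parQ_comp (hT : PolyTime T) (hM : PolyTime M) :
    PolyTime (fun a => parQ q (T a) (M a)) := by
  refine (PolyTime.const (oddN q)).cond (poly_oddN hM.length) (poly_oddN ?_)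
  exact (hM.filter (f := fun a (p : Bool × ℕ) => zeroQ q (T a) ((T a).getD p.2 []))
    (zeroQ_comp q (hT.comp PolyTime.id.fst) ((hT.comp PolyTime.id.fst).getD PolyTime.id.snd.snd
      (PolyTime.const [])))).length.add (negVal_comp q hT hM)

theorem sz_conv_le (π : List Bool) (M : Mark) : sz (conv π M) ≤ 3 * sz M := by
  induction M with
  | nil => simp [conv]
  | cons p M ih =>
    obtain ⟨s, i⟩ := p
    have e1 : conv π ((s, i) :: M) = (xor s (π.getD i false), i) :: conv π M := rfl
    have h1 := sz_bool_le (xor s (π.getD i false))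
    have h2 := sz_pos s
    rw [e1, sz_list_cons, sz_list_cons, sz_pair, sz_pair]
    omega

theorem convT_comp (hT : PolyTime T) : PolyTime (fun a => convT q (T a)) := by
  refine PolyTime.foldl_add' (f := fun (_ : α) (st : Tab × List Bool) (M : Mark) => pstep q st M)
    hT (PolyTime.const ([], [])) ?_ ⟨3 * Polynomial.X + 10, fun a x y => ?_⟩
  · have hc : PolyTime (fun x : α × (Tab × List Bool) × Mark => conv x.2.1.2 x.2.2) :=
      poly_conv PolyTime.id.snd.fst.snd PolyTime.id.snd.snd
    exact (PolyTime.id.snd.fst.fst.append (hc.cons (PolyTime.const []))).pair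
      (PolyTime.id.snd.fst.snd.append ((parQ_comp q PolyTime.id.snd.fst.fst hc).cons
        (PolyTime.const [])))
  · obtain ⟨x1, x2⟩ := x
    have h1 := sz_append x1 [conv x2 y]
    have h2 := sz_append x2 [parQ q x1 (conv x2 y)]
    have h3 := sz_conv_le x2 y
    have h4 := sz_bool_le (parQ q x1 (conv x2 y))
    rw [sz_list_cons, sz_list_nil] at h1 h2
    simp only [pstep, sz_pair, Polynomial.eval_add, Polynomial.eval_mul, Polynomial.eval_ofNat,
      Polynomial.eval_X]
    omega

end NegP

theorem poly_sgnN (q : ℕ) : PolyTime (fun p : Tab × Mark => sgnN q p.1 p.2) :=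
  NegP.sgnQ_comp q (NegP.convT_comp q PolyTime.id.fst).fst
    (poly_conv (NegP.convT_comp q PolyTime.id.fst).snd PolyTime.id.snd)

theorem poly_isIntN (q : ℕ) : PolyTime (fun p : Tab × Mark => isIntN q p.1 p.2) :=
  PolyTime.comp₂ (g := fun (T : Tab) (M : Mark) => isIntQ q T M) (poly_isIntQ q)
    (NegP.convT_comp q PolyTime.id.fst).fst
    (poly_conv (NegP.convT_comp q PolyTime.id.fst).snd PolyTime.id.snd)

namespace NegP

variable {α : Type*} [Enc α] {M : α → Mark}

theorem cntS_comp (s : Bool) (hM : PolyTime M) : PolyTime (fun a => cntS s (M a)) :=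
  (hM.filter (f := fun _ (p : Bool × ℕ) => p.1 == s)
    (PolyTime.id.snd.fst.beqBool (PolyTime.const s))).length

theorem sgnOne_comp (hM : PolyTime M) : PolyTime (fun a => sgnOne (M a)) :=
  ((cntS_comp false hM).lt (cntS_comp true hM)).pair ((cntS_comp true hM).lt (cntS_comp false hM))

end NegP

theorem poly_sgnOne : PolyTime (fun p : Tab × Mark => sgnOne p.2) :=
  NegP.sgnOne_comp PolyTime.id.snd

theorem poly_sgnNegOne : PolyTime (fun p : Tab × Mark => sgnNegOne p.1 p.2) :=
  NegP.sgnOne_comp (poly_conv (PolyTime.id.fst.map (f := fun _ (N : Mark) => oddN N.length)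
    (poly_oddN PolyTime.id.snd.length)) PolyTime.id.snd)

end Pool.Agent.OR1
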