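import Pool.Agent.OR1.BSG
import Pool.Agent.OR1.Brit

/-!
# One-relator groups as iterated HNN extensions

`subst x y s`: the substitution `y ↦ y⁻¹ x ^ (± 1) y`.

PROOF of `onerel_step`.  `Φ' : ⟨X | subst r⟩ → HNN`, `z ↦ of (Φ z)` (`z ≠ y`), `y ↦ t⁻¹`: the image
of `subst x y s w` is `of (Φ w)` for every `w` (on generators: `t x^(±1) t⁻¹ = φ (x ^ ±1) = y`).
Inverse: `HNNExtension.lift` of the map `G → ⟨X | subst r⟩` given by `Φ.symm` and
`⟨X | r⟩ → ⟨X | subst r⟩`, `w ↦ subst w`, and `t ↦ y⁻¹`.

PROOF of `onerel_free` (a free letter `z`; the letters outside of `Act` are killed).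
`Φ' : z ↦ t⁻¹`, other letters `↦ of (Φ ·)`; inverse: `G → ` via `Φ.symm` and the map which sends
`z ↦ 1` and the other letters to themselves, `t ↦ z⁻¹`.

PROOF of `onerel_init`.  `⟨X | relBS a t b, all letters ≠ a, t⟩ ≃ ⟨a, t | relBS⟩`.
-/

namespace Pool.Agent.OR1

open HNNExtension

/-- the substitution `y ↦ y⁻¹ x ^ (± 1) y` -/
def subst {X : Type*} [DecidableEq X] (x y : X) (s : Bool) : FreeGroup X →* FreeGroup X :=
  FreeGroup.lift fun z =>
    if z = y then (FreeGroup.of y)⁻¹ * FreeGroup.of x ^ (bif s then (1 : ℤ) else -1) *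
      FreeGroup.of y
    else FreeGroup.of z

theorem onerel_step {X : Type} [DecidableEq X] {r : FreeGroup X} {x y : X} (hxy : x ≠ y)
    (s : Bool) {G : Type} [Group G] (Φ : PresentedGroup ({r} : Set (FreeGroup X)) ≃* G)
    {A B : Subgroup G} (φ : A ≃* B) (hA : A = Subgroup.zpowers (Φ (PresentedGroup.of x)))
    (hφ : ∀ (a : A) (z : ℤ), (a : G) = Φ (PresentedGroup.of x) ^ z →
      (φ a : G) = Φ (PresentedGroup.of y) ^ ((bif s then 1 else -1) * z)) :
    ∃ Φ' : PresentedGroup ({subst x y s r} : Set (FreeGroup X)) ≃* HNNExtension G A B φ,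
      (∀ z, z ≠ y → Φ' (PresentedGroup.of z) = of (Φ (PresentedGroup.of z))) ∧
      Φ' (PresentedGroup.of y) = t⁻¹ := by
  classical
  -- forward map on generators
  let f0 : X → HNNExtension G A B φ := fun z =>
    if z = y then t⁻¹ else of (Φ (PresentedGroup.of z))
  have hxA : Φ (PresentedGroup.of x) ∈ A := by
    rw [hA]
    exact Subgroup.mem_zpowers _
  have hconj : ∀ z : ℤ, (t : HNNExtension G A B φ) * of (Φ (PresentedGroup.of x)) ^ z * t⁻¹ =
      of (Φ (PresentedGroup.of y)) ^ ((bif s then 1 else -1) * z) := by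
    intro z
    have h1 := equiv_eq_conj (φ := φ) (⟨Φ (PresentedGroup.of x) ^ z, A.zpow_mem hxA z⟩ : A)
    rw [hφ _ z rfl, map_zpow] at h1
    rw [h1, map_zpow]
  have hfree : (FreeGroup.lift f0).comp (subst x y s) =
      (of.comp Φ.toMonoidHom).comp (PresentedGroup.mk ({r} : Set (FreeGroup X))) := by
    apply FreeGroup.ext_hom
    intro z
    by_cases hz : z = y
    · subst hz
      have h2 := hconj (bif s then (1 : ℤ) else -1)
      have h3 : ((bif s then (1 : ℤ) else -1) * (bif s then (1 : ℤ) else -1)) = 1 := by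
        cases s <;> rfl
      rw [h3, zpow_one] at h2
      simp only [MonoidHom.comp_apply, subst, FreeGroup.lift_apply_of, if_true, map_mul, map_inv,
        map_zpow, f0, if_neg hxy, inv_inv]
      exact h2
    · simp only [MonoidHom.comp_apply, subst, FreeGroup.lift_apply_of, if_neg hz, f0]
      rfl
  have hrel : ∀ w ∈ ({subst x y s r} : Set (FreeGroup X)), FreeGroup.lift f0 w = 1 := by
    intro w hw
    rw [Set.mem_singleton_iff] at hw
    subst hw
    have h4 := DFunLike.congr_fun hfree r
    rw [MonoidHom.comp_apply] at h4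
    rw [h4, MonoidHom.comp_apply, PresentedGroup.one_of_mem (Set.mem_singleton r), map_one]
  let f : PresentedGroup ({subst x y s r} : Set (FreeGroup X)) →* HNNExtension G A B φ :=
    PresentedGroup.toGroup hrel
  -- backward map
  let g1 : PresentedGroup ({r} : Set (FreeGroup X)) →*
      PresentedGroup ({subst x y s r} : Set (FreeGroup X)) :=
    PresentedGroup.toGroup (f := fun z => PresentedGroup.mk _ (subst x y s (FreeGroup.of z))) (by
      intro w hw
      rw [Set.mem_singleton_iff] at hw
      subst hw
      have h5 : FreeGroup.lift (fun z => PresentedGroup.mk ({subst x y s w} : Set (FreeGroup X))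
          (subst x y s (FreeGroup.of z))) =
          (PresentedGroup.mk ({subst x y s w} : Set (FreeGroup X))).comp (subst x y s) := by
        apply FreeGroup.ext_hom
        intro z
        simp only [FreeGroup.lift_apply_of, MonoidHom.comp_apply]
      rw [h5, MonoidHom.comp_apply]
      exact PresentedGroup.one_of_mem (Set.mem_singleton _))
  have hg1 : ∀ z, g1 (PresentedGroup.of z) = PresentedGroup.mk _ (subst x y s (FreeGroup.of z)) :=
    fun z => PresentedGroup.toGroup.of _
  have hg1' : ∀ z, z ≠ y → g1 (PresentedGroup.of z) = PresentedGroup.of z := by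
    intro z hz
    rw [hg1]
    simp only [subst, FreeGroup.lift_apply_of, if_neg hz]
    rfl
  have hg1y : g1 (PresentedGroup.of y) =
      (PresentedGroup.of y)⁻¹ * PresentedGroup.of x ^ (bif s then (1 : ℤ) else -1) *
        PresentedGroup.of y := by
    rw [hg1]
    simp only [subst, FreeGroup.lift_apply_of, if_true]
    rfl
  let g0 : G →* PresentedGroup ({subst x y s r} : Set (FreeGroup X)) :=
    g1.comp Φ.symm.toMonoidHom
  have hg0 : ∀ c, g0 (Φ c) = g1 c := by
    intro c
    show g1 (Φ.symm (Φ c)) = g1 c
    rw [MulEquiv.symm_apply_apply]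
  let g : HNNExtension G A B φ →* PresentedGroup ({subst x y s r} : Set (FreeGroup X)) :=
    HNNExtension.lift g0 (PresentedGroup.of y)⁻¹ (by
      intro a
      have ha : (a : G) ∈ Subgroup.zpowers (Φ (PresentedGroup.of x)) := hA ▸ a.2
      obtain ⟨z, hz⟩ := Subgroup.mem_zpowers_iff.mp ha
      rw [hφ a z hz.symm, ← hz, ← map_zpow, ← map_zpow, hg0, hg0, map_zpow, map_zpow, hg1y,
        hg1' x hxy]
      have h6 : ∀ (u v : PresentedGroup ({subst x y s r} : Set (FreeGroup X))) (n : ℤ),
          (u⁻¹ * v * u) ^ n = u⁻¹ * v ^ n * u := by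
        intro u v n
        have := conj_zpow (a := u⁻¹) (b := v) (i := n)
        rwa [inv_inv] at this
      rw [h6, ← zpow_mul, ← mul_assoc]
      have h3 : ((bif s then (1 : ℤ) else -1) * (bif s then (1 : ℤ) else -1)) = 1 := by
        cases s <;> rfl
      rw [h3, one_mul]
      group)
  have hfg : f.comp g = MonoidHom.id _ := by
    apply HNNExtension.hom_ext
    · have key : ((f.comp g0).comp Φ.toMonoidHom) =
          (of : G →* HNNExtension G A B φ).comp Φ.toMonoidHom := by
        apply PresentedGroup.ext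
        intro z
        show f (g0 (Φ (PresentedGroup.of z))) = of (Φ (PresentedGroup.of z))
        rw [hg0, hg1]
        have h4 := DFunLike.congr_fun hfree (FreeGroup.of z)
        exact h4
      apply MonoidHom.ext
      intro c
      have h7 := DFunLike.congr_fun key (Φ.symm c)
      have h8 : Φ.toMonoidHom (Φ.symm c) = c := Φ.apply_symm_apply c
      simp only [MonoidHom.comp_apply] at h7
      rw [h8] at h7
      simp only [MonoidHom.comp_apply, MonoidHom.id_apply]
      rw [HNNExtension.lift_of]
      exact h7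
    · simp only [MonoidHom.comp_apply, MonoidHom.id_apply]
      rw [HNNExtension.lift_t, map_inv]
      have h9 : f (PresentedGroup.of y) = t⁻¹ := by
        show PresentedGroup.toGroup hrel (PresentedGroup.of y) = t⁻¹
        rw [PresentedGroup.toGroup.of]
        simp only [f0, if_true]
      rw [h9, inv_inv]
  have hf : ∀ z, f (PresentedGroup.of z) = f0 z := fun z => PresentedGroup.toGroup.of _
  have hgf : g.comp f = MonoidHom.id _ := by
    apply PresentedGroup.ext
    intro z
    simp only [MonoidHom.comp_apply, MonoidHom.id_apply]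
    rw [hf]
    by_cases hz : z = y
    · simp only [f0, if_pos hz, map_inv]
      rw [HNNExtension.lift_t, inv_inv, hz]
    · simp only [f0, if_neg hz]
      rw [HNNExtension.lift_of, hg0, hg1' z hz]
  refine ⟨MonoidHom.toMulEquiv f g hgf hfg, ?_, ?_⟩
  · intro z hz
    show f (PresentedGroup.of z) = _
    rw [hf]
    simp only [f0, if_neg hz]
  · show f (PresentedGroup.of y) = _
    rw [hf]
    simp only [f0, if_true]

/-- the relators `relBS a t b` and all letters outside of `Act` -/
def relAct {X : Type} (a t : X) (b : ℤ) (Act : Set X) : Set (FreeGroup X) :=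
  insert (relBS a t b) {w | ∃ z, z ∉ Act ∧ w = FreeGroup.of z}

private theorem OneRel_rel {α : Type*} {rels : Set (FreeGroup α)} {a t : α} {b : ℤ}
    (h : relBS a t b ∈ rels) :
    ((PresentedGroup.of t)⁻¹ * PresentedGroup.of a * PresentedGroup.of t *
      (PresentedGroup.of a ^ b)⁻¹ : PresentedGroup rels) = 1 := by
  have h1 := PresentedGroup.one_of_mem h
  rw [relBS, map_mul, map_mul, map_mul, map_inv, map_inv, map_zpow] at h1
  exact h1

theorem onerel_init {X : Type} [DecidableEq X] {a t : X} (hat : a ≠ t) (b : ℤ) :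
    ∃ Φ : PresentedGroup (relAct a t b {a, t}) ≃* G1 b,
      Φ (PresentedGroup.of a) = x1 b 0 ∧ Φ (PresentedGroup.of t) = x1 b 1 ∧
      ∀ z, z ≠ a → z ≠ t → Φ (PresentedGroup.of z) = 1 := by
  classical
  let f0 : X → G1 b := fun z => if z = a then PresentedGroup.of 0 else
    if z = t then PresentedGroup.of 1 else 1
  have f0a : f0 a = PresentedGroup.of 0 := if_pos rfl
  have f0t : f0 t = PresentedGroup.of 1 := by
    simp only [f0, if_neg hat.symm, if_true]
  have hrel : ∀ w ∈ relAct a t b {a, t}, FreeGroup.lift f0 w = 1 := by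
    intro w hw
    rcases hw with rfl | ⟨z, hz, rfl⟩
    · simp only [relBS, map_mul, map_inv, map_zpow, FreeGroup.lift_apply_of, f0a, f0t]
      exact OneRel_rel (Set.mem_singleton _)
    · rw [Set.mem_insert_iff, Set.mem_singleton_iff, not_or] at hz
      simp only [FreeGroup.lift_apply_of, f0, if_neg hz.1, if_neg hz.2]
  let f : PresentedGroup (relAct a t b {a, t}) →* G1 b := PresentedGroup.toGroup hrel
  have hf : ∀ z, f (PresentedGroup.of z) = f0 z := fun z => PresentedGroup.toGroup.of _
  let g0 : Fin 2 → PresentedGroup (relAct a t b {a, t}) := fun i =>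
    if i = 0 then PresentedGroup.of a else PresentedGroup.of t
  have g00 : g0 0 = PresentedGroup.of a := if_pos rfl
  have g01 : g0 1 = PresentedGroup.of t := if_neg (by decide)
  have hrel2 : ∀ w ∈ ({relBS 0 1 b} : Set (FreeGroup (Fin 2))), FreeGroup.lift g0 w = 1 := by
    intro w hw
    rw [Set.mem_singleton_iff] at hw
    subst hw
    simp only [relBS, map_mul, map_inv, map_zpow, FreeGroup.lift_apply_of, g00, g01]
    exact OneRel_rel (Set.mem_insert _ _)
  let g : G1 b →* PresentedGroup (relAct a t b {a, t}) := PresentedGroup.toGroup hrel2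
  have hg : ∀ i, g (PresentedGroup.of i) = g0 i := fun i => PresentedGroup.toGroup.of _
  have hgf : g.comp f = MonoidHom.id _ := by
    apply PresentedGroup.ext
    intro z
    simp only [MonoidHom.comp_apply, MonoidHom.id_apply]
    rw [hf]
    by_cases h1 : z = a
    · rw [h1, f0a, hg, g00]
    · by_cases h2 : z = t
      · rw [h2, f0t, hg, g01]
      · simp only [f0, if_neg h1, if_neg h2, map_one]
        symm
        apply PresentedGroup.one_of_mem
        refine Set.mem_insert_of_mem _ ⟨z, ?_, rfl⟩
        rw [Set.mem_insert_iff, Set.mem_singleton_iff, not_or]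
        exact ⟨h1, h2⟩
  have hfg : f.comp g = MonoidHom.id _ := by
    apply PresentedGroup.ext
    intro i
    simp only [MonoidHom.comp_apply, MonoidHom.id_apply]
    rw [hg]
    fin_cases i
    · show f (g0 0) = _
      rw [g00, hf, f0a]
      rfl
    · show f (g0 1) = _
      rw [g01, hf, f0t]
      rfl
  refine ⟨MonoidHom.toMulEquiv f g hgf hfg, ?_, ?_, ?_⟩
  · show f (PresentedGroup.of a) = _
    rw [hf, f0a]
    rfl
  · show f (PresentedGroup.of t) = _
    rw [hf, f0t]
    rfl
  · intro z h1 h2
    show f (PresentedGroup.of z) = _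
    rw [hf]
    simp only [f0, if_neg h1, if_neg h2]

theorem onerel_free {X : Type} [DecidableEq X] {a t : X} {b : ℤ} {Act : Set X}
    (ha : a ∈ Act) (ht : t ∈ Act) {z : X} (hz : z ∉ Act) {G : Type} [Group G]
    (Φ : PresentedGroup (relAct a t b Act) ≃* G) {A B : Subgroup G} (φ : A ≃* B) (hA : A = ⊥)
    (hB : B = ⊥) :
    ∃ Φ' : PresentedGroup (relAct a t b (insert z Act)) ≃* HNNExtension G A B φ,
      (∀ z', z' ≠ z → Φ' (PresentedGroup.of z') = of (Φ (PresentedGroup.of z'))) ∧
      Φ' (PresentedGroup.of z) = HNNExtension.t⁻¹ := by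
  classical
  have haz : a ≠ z := fun h => hz (h ▸ ha)
  have htz : t ≠ z := fun h => hz (h ▸ ht)
  let f0 : X → HNNExtension G A B φ := fun z' =>
    if z' = z then HNNExtension.t⁻¹ else of (Φ (PresentedGroup.of z'))
  have f0z : f0 z = HNNExtension.t⁻¹ := if_pos rfl
  have f0n : ∀ z', z' ≠ z → f0 z' = of (Φ (PresentedGroup.of z')) := fun z' h => if_neg h
  have hrel : ∀ w ∈ relAct a t b (insert z Act), FreeGroup.lift f0 w = 1 := by
    intro w hw
    rcases hw with rfl | ⟨z', hz', rfl⟩
    · simp only [relBS, map_mul, map_inv, map_zpow, FreeGroup.lift_apply_of, f0n a haz,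
        f0n t htz]
      have h2 := congrArg (fun c => (of (Φ c) : HNNExtension G A B φ))
        (OneRel_rel (rels := relAct a t b Act) (Set.mem_insert _ _))
      simpa only [map_mul, map_inv, map_zpow, map_one] using h2
    · rw [Set.mem_insert_iff, not_or] at hz'
      rw [FreeGroup.lift_apply_of, f0n z' hz'.1]
      have h1 : (PresentedGroup.of z' : PresentedGroup (relAct a t b Act)) = 1 :=
        PresentedGroup.one_of_mem (Set.mem_insert_of_mem _ ⟨z', hz'.2, rfl⟩)
      rw [h1, map_one, map_one]
  let f : PresentedGroup (relAct a t b (insert z Act)) →* HNNExtension G A B φ :=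
    PresentedGroup.toGroup hrel
  have hf : ∀ z', f (PresentedGroup.of z') = f0 z' := fun z' => PresentedGroup.toGroup.of _
  let g00 : X → PresentedGroup (relAct a t b (insert z Act)) := fun z' =>
    if z' = z then 1 else PresentedGroup.of z'
  have g00z : g00 z = 1 := if_pos rfl
  have g00n : ∀ z', z' ≠ z → g00 z' = PresentedGroup.of z' := fun z' h => if_neg h
  have hrel2 : ∀ w ∈ relAct a t b Act, FreeGroup.lift g00 w = 1 := by
    intro w hw
    rcases hw with rfl | ⟨z', hz', rfl⟩
    · simp only [relBS, map_mul, map_inv, map_zpow, FreeGroup.lift_apply_of, g00n a haz,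
        g00n t htz]
      exact OneRel_rel (Set.mem_insert _ _)
    · rw [FreeGroup.lift_apply_of]
      by_cases h : z' = z
      · rw [h, g00z]
      · rw [g00n z' h]
        refine PresentedGroup.one_of_mem (Set.mem_insert_of_mem _ ⟨z', ?_, rfl⟩)
        rw [Set.mem_insert_iff, not_or]
        exact ⟨h, hz'⟩
  let g1 : PresentedGroup (relAct a t b Act) →* PresentedGroup (relAct a t b (insert z Act)) :=
    PresentedGroup.toGroup hrel2
  have hg1 : ∀ z', g1 (PresentedGroup.of z') = g00 z' := fun z' => PresentedGroup.toGroup.of _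
  let g0 : G →* PresentedGroup (relAct a t b (insert z Act)) := g1.comp Φ.symm.toMonoidHom
  have hg0 : ∀ c, g0 (Φ c) = g1 c := by
    intro c
    show g1 (Φ.symm (Φ c)) = g1 c
    rw [MulEquiv.symm_apply_apply]
  let g : HNNExtension G A B φ →* PresentedGroup (relAct a t b (insert z Act)) :=
    HNNExtension.lift g0 (PresentedGroup.of z)⁻¹ (by
      intro c
      have hc : (c : G) = 1 := Subgroup.mem_bot.mp (hA.le c.2)
      have hc' : c = 1 := Subtype.ext hc
      rw [hc', map_one]
      simp)
  have hfg : f.comp g = MonoidHom.id _ := by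
    apply HNNExtension.hom_ext
    · have key : ((f.comp g0).comp Φ.toMonoidHom) =
          (of : G →* HNNExtension G A B φ).comp Φ.toMonoidHom := by
        apply PresentedGroup.ext
        intro z'
        show f (g0 (Φ (PresentedGroup.of z'))) = of (Φ (PresentedGroup.of z'))
        rw [hg0, hg1]
        by_cases h : z' = z
        · rw [h, g00z, map_one]
          have h1 : (PresentedGroup.of z : PresentedGroup (relAct a t b Act)) = 1 :=
            PresentedGroup.one_of_mem (Set.mem_insert_of_mem _ ⟨z, hz, rfl⟩)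
          rw [h1, map_one, map_one]
        · rw [g00n z' h, hf, f0n z' h]
      apply MonoidHom.ext
      intro c
      have h7 := DFunLike.congr_fun key (Φ.symm c)
      have h8 : Φ.toMonoidHom (Φ.symm c) = c := Φ.apply_symm_apply c
      simp only [MonoidHom.comp_apply] at h7
      rw [h8] at h7
      simp only [MonoidHom.comp_apply, MonoidHom.id_apply]
      rw [HNNExtension.lift_of]
      exact h7
    · simp only [MonoidHom.comp_apply, MonoidHom.id_apply]
      rw [HNNExtension.lift_t, map_inv, hf, f0z, inv_inv]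
  have hgf : g.comp f = MonoidHom.id _ := by
    apply PresentedGroup.ext
    intro z'
    simp only [MonoidHom.comp_apply, MonoidHom.id_apply]
    rw [hf]
    by_cases h : z' = z
    · rw [h, f0z, map_inv, HNNExtension.lift_t, inv_inv]
    · rw [f0n z' h, HNNExtension.lift_of, hg0, hg1, g00n z' h]
  refine ⟨MonoidHom.toMulEquiv f g hgf hfg, ?_, ?_⟩
  · intro z' h
    show f (PresentedGroup.of z') = _
    rw [hf, f0n z' h]
  · show f (PresentedGroup.of z) = _
    rw [hf, f0z]

end Pool.Agent.OR1
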