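import Pool.Agent.OR1.Basic

/-!
# Sorted levels of a table and the sign test (base `q ≥ 2`): definitions
-/

namespace Pool.Agent.OR1

open Pool.Agent.Lib.PT

/-- levels in descending order: indices of the nodes of the level, gap to the next lower level -/
abbrev Ord := List (List ℕ × ℕ)

/-- membership of an index -/
def memN (i : ℕ) (l : List ℕ) : Bool := l.any fun j => decide (j = i)

/-- number of items of sign `s` whose node lies in the level `l` -/
def cnt (M : Mark) (l : List ℕ) (s : Bool) : ℕ :=
  (M.filter fun p => (p.1 == s) && memN p.2 l).length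

/-- `x * q ^ g`, cut at `cap` -/
def mulCap (q cap g x : ℕ) : ℕ := (fun y => min (y * q) cap)^[g] x

/-- one level of the evaluation -/
def evStep (q cap : ℕ) (M : Mark) (st : ℕ × ℕ) (lv : List ℕ × ℕ) : ℕ × ℕ :=
  (mulCap q cap lv.2 ((st.1 + cnt M lv.1 true) - (st.2 + cnt M lv.1 false)),
    mulCap q cap lv.2 ((st.2 + cnt M lv.1 false) - (st.1 + cnt M lv.1 true)))

/-- sign of the value of `M`: (positive, negative) -/
def evalO (q : ℕ) (O : Ord) (M : Mark) : Bool × Bool :=
  let r := O.foldl (evStep q (M.length + 1) M) (0, 0)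
  (decide (0 < r.1), decide (0 < r.2))

/-- `O` is a correct list of levels: exponents constant on each level, strictly decreasing from
level to level, and gaps correct or cut at a value `g` with `W < q ^ g` -/
def OrdOK (q : ℕ) (e : ℕ → ℤ) (W : ℕ) : Ord → Prop
  | [] => True
  | (l, g) :: O =>
    l ≠ [] ∧ (∀ i ∈ l, e i = e (l.headD 0)) ∧ OrdOK q e W O ∧
      ∀ l' ∈ (O.map Prod.fst).head?, e (l'.headD 0) < e (l.headD 0) ∧
        ((g : ℤ) = e (l.headD 0) - e (l'.headD 0) ∨
          ((g : ℤ) ≤ e (l.headD 0) - e (l'.headD 0) ∧ W < q ^ g))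

/-- sign of `e i - e k - g` computed with the levels `O` -/
def cmpE (q : ℕ) (T : Tab) (O : Ord) (i k g : ℕ) : Bool × Bool :=
  evalO q O (T.getD i [] ++ negm (T.getD k []) ++ List.replicate g (false, 0))

/-- `min (e k - e l) C` (for `e k > e l`) -/
def gapE (q C : ℕ) (T : Tab) (O : Ord) (k l : ℕ) : ℕ :=
  ((List.range C).filter fun g => !(cmpE q T O k l (g + 1)).2).length

/-- the levels after insertion of node `i` -/
def insE (q : ℕ) (T : Tab) (O : Ord) (i : ℕ) : List (List ℕ) :=
  ((O.filter fun lv => (cmpE q T O i (lv.1.headD 0) 0).2).map Prod.fst) ++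
  [i :: (O.filter fun lv => !(cmpE q T O i (lv.1.headD 0) 0).1 &&
    !(cmpE q T O i (lv.1.headD 0) 0).2).flatMap Prod.fst] ++
  ((O.filter fun lv => (cmpE q T O i (lv.1.headD 0) 0).1).map Prod.fst)

/-- insertion of node `i` -/
def addE (q C : ℕ) (T : Tab) (O : Ord) (i : ℕ) : Ord :=
  ((insE q T O i).zip ((insE q T O i).tail ++ [[]])).map fun p =>
    (p.1, gapE q C T O (p.1.headD 0) (p.2.headD 0))

/-- the levels of the table -/
def buildE (q C : ℕ) (T : Tab) : Ord := (List.range T.length).foldl (addE q C T) []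

/-- the cut for the gaps -/
def capE (T : Tab) (M : Mark) : ℕ := 2 * (T.map List.length).sum + M.length + 3

/-- sign of the value of `M`: (positive, negative) -/
def sgnQ (q : ℕ) (T : Tab) (M : Mark) : Bool × Bool := evalO q (buildE q (capE T M) T) M

/-- the items of `M` with negative exponent -/
def negPart (q : ℕ) (T : Tab) (M : Mark) : Mark :=
  M.filter fun p => (sgnQ q T (T.getD p.2 [])).2

/-- zero test -/
def zeroQ (q : ℕ) (T : Tab) (M : Mark) : Bool := !(sgnQ q T M).1 && !(sgnQ q T M).2

/-- test for integrality -/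
def isIntQ (q : ℕ) (T : Tab) (M : Mark) : Bool :=
  (List.range ((negPart q T M).length + 1)).any fun f =>
    zeroQ q T (negPart q T M ++ List.replicate f (false, 0)) ||
    zeroQ q T (negPart q T M ++ List.replicate f (true, 0))

end Pool.Agent.OR1
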