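import Pool.Agent.OR1.Brit

/-!
# Correctness of the reduction

PROOF.  Invariant of a state `(T, stk, cur, P, inp)` (with a model `e` of `T`): all words in the
stack and `cur` satisfy `WOk b T e (k - 1)`, `inp` satisfies `WOk b T e k`, all exponents (in the
stack and `P`) are below `T.length` and integral, and
`sv φ (stk.map fun s => (wv s.1, iv s.2)) * of (wv cur) * y ^ iv P * wv (nx φ k x) inp` is the
value of the given word, and the stack is `BRed A B`.  Measure
`3 * inp.length + stk.length + (if iv P = 0 then 0 else 2)` decreases by at least one in every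
step, unless `iv P = 0` and `inp = []` (then the state is fixed).  At the beginning it is
`3 * w.length`.
In the case `z = false` (the word `cur` is in `A` (resp. `B`) but not `1`) the new word `y`
represents an element of `B` (resp. `A`) different from `1`, so it is not in `A` (resp. `B`) by
`hAB`: this gives `BRed` for the stack `(y, P1) :: (g, N1) :: stk'`.
At the end: if the stack is not empty then the value of the word is not in the range of `of`
(`brit`), so it is not in `⟨x_c⟩`, `c < k`, and for `c = k` the word
`w ++ [(k, negm (ksum k w))]` is not `1`, use `mem_zpowers_y_iff`.  If the stack is empty, the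
value is `of (wv cur)` and `of` is injective (`HNNExtension.of_injective`).
-/

namespace Pool.Agent.OR1

open Pool.Agent.Lib.PT HNNExtension

variable {G : Type*} [Group G] {A B : Subgroup G} (φ : A ≃* B)

/-- value of the stack -/
def stkV (b : ℤ) (e : ℕ → ℤ) (x : ℕ → G) (stk : List (Word × Mark)) : List (G × ℤ) :=
  stk.map fun s => (wv b e x s.1, iv b e s.2)

/-- the words and exponents of the stack are meaningful -/
def StkOk (b : ℤ) (T : Tab) (e : ℕ → ℤ) (k : ℕ) (stk : List (Word × Mark)) : Prop :=
  ∀ s ∈ stk, WOk b T e k s.1 ∧ Below T.length s.2 ∧ IsZ b e s.2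

theorem StkOk.ext {b : ℤ} {T T' : Tab} {e e' : ℕ → ℤ} {k : ℕ} {stk : List (Word × Mark)}
    (h : StkOk b T e k stk) (hE : Ext b T e T' e') : StkOk b T' e' k stk :=
  fun s hs => ⟨(h s hs).1.ext hE, hE.below (h s hs).2.1, hE.isZ (h s hs).2.1 (h s hs).2.2⟩

theorem StkOk.stkV_ext {b : ℤ} {T T' : Tab} {e e' : ℕ → ℤ} {k : ℕ} {x : ℕ → G}
    {stk : List (Word × Mark)} (h : StkOk b T e k stk) (hE : Ext b T e T' e') :
    stkV b e' x stk = stkV b e x stk := by
  induction stk with
  | nil => rfl
  | cons s stk ih =>
    have h1 := h s List.mem_cons_self
    have h2 : StkOk b T e k stk := fun r hr => h r (List.mem_cons_of_mem _ hr)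
    have h3 := ih h2
    simp only [stkV, List.map_cons] at h3 ⊢
    rw [h1.1.wv_ext hE, hE.iv h1.2.1, h3]

/-- invariant of the reduction -/
structure Inv (b : ℤ) (k : ℕ) (x : ℕ → G) (e : ℕ → ℤ) (T : Tab) (stk : List (Word × Mark))
    (cur : Word) (P : Mark) (inp : Word) (v : HNNExtension G A B φ) : Prop where
  mod : Model b T e
  stk_ok : StkOk b T e (k - 1) stk
  cur_ok : WOk b T e (k - 1) cur
  P_below : Below T.length P
  P_isZ : IsZ b e P
  inp_ok : WOk b T e k inp
  val : sv φ (stkV b e x stk) * of (wv b e x cur) * (t⁻¹) ^ iv b e P *
    wv b e (nx φ k x) inp = v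
  red : BRed A B (stkV b e x stk)

/-- measure -/
noncomputable def mu (b : ℤ) (e : ℕ → ℤ) (stk : List (Word × Mark)) (P : Mark) (inp : Word) : ℕ :=
  3 * inp.length + stk.length + (if iv b e P = 0 then 0 else 2)

variable {φ}

theorem Inv.ext {b : ℤ} {k : ℕ} {x : ℕ → G} {e e' : ℕ → ℤ} {T T' : Tab}
    {stk : List (Word × Mark)} {cur : Word} {P : Mark} {inp : Word} {v : HNNExtension G A B φ}
    (h : Inv φ b k x e T stk cur P inp v) (hE : Ext b T e T' e') :
    Inv φ b k x e' T' stk cur P inp v where
  mod := hE.model
  stk_ok := h.stk_ok.ext hE
  cur_ok := h.cur_ok.ext hE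
  P_below := hE.below h.P_below
  P_isZ := hE.isZ h.P_below h.P_isZ
  inp_ok := h.inp_ok.ext hE
  val := by
    rw [h.stk_ok.stkV_ext hE, h.cur_ok.wv_ext hE, hE.iv h.P_below, h.inp_ok.wv_ext hE]
    exact h.val
  red := by rw [h.stk_ok.stkV_ext hE]; exact h.red

/-- a state as a tuple -/
theorem redStep_def (S : NumSys) (k : ℕ) (τ : Bool → Tab → Word → Tab × List (Bool × Word))
    (T : Tab) (stk : List (Word × Mark)) (cur : Word) (P : Mark) (inp : Word) :
    redStep S k τ (T, stk, cur, P, inp) =
    bif S.isZ T P then
      bif inp.isEmpty then (T, stk, cur, P, inp)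
      else
        bif (inp.headD (0, [])).1 == k then (T, stk, cur, (inp.headD (0, [])).2, inp.tail)
        else (T, stk, cur ++ [inp.headD (0, [])], [], inp.tail)
    else
      bif stk.isEmpty then (T, [(cur, P)], [], [], inp)
      else
        bif ((S.sgn T (stk.headD ([], [])).2).2 && (S.sgn T P).1) ||
            ((S.sgn T (stk.headD ([], [])).2).1 && (S.sgn T P).2) then
          let r := τ ((S.sgn T (stk.headD ([], [])).2).2 && (S.sgn T P).1) T cur
          bif r.2.isEmpty then (r.1, (cur, P) :: stk, [], [], inp)
          else
            bif (r.2.headD (true, [])).1 then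
              (r.1, stk.tail, (stk.headD ([], [])).1, (stk.headD ([], [])).2 ++ P, inp)
            else
              let N1 := (stk.headD ([], [])).2 ++
                [((S.sgn T (stk.headD ([], [])).2).2 && (S.sgn T P).1, 0)]
              let P1 := P ++ [(!((S.sgn T (stk.headD ([], [])).2).2 && (S.sgn T P).1), 0)]
              let y := (r.2.headD (true, [])).2
              bif S.isZ r.1 N1 then (r.1, stk.tail, (stk.headD ([], [])).1 ++ y, P1, inp)
              else bif S.isZ r.1 P1 then (r.1, ((stk.headD ([], [])).1, N1) :: stk.tail, y, [], inp)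
              else (r.1, (y, P1) :: ((stk.headD ([], [])).1, N1) :: stk.tail, [], [], inp)
        else (T, (cur, P) :: stk, [], [], inp) := rfl

theorem stkV_cons (b : ℤ) (e : ℕ → ℤ) (x : ℕ → G) (s : Word × Mark) (stk : List (Word × Mark)) :
    stkV b e x (s :: stk) = (wv b e x s.1, iv b e s.2) :: stkV b e x stk := rfl

theorem stkOk_cons {b : ℤ} {T : Tab} {e : ℕ → ℤ} {k : ℕ} {s : Word × Mark}
    {stk : List (Word × Mark)} (h1 : WOk b T e k s.1 ∧ Below T.length s.2 ∧ IsZ b e s.2)
    (h2 : StkOk b T e k stk) : StkOk b T e k (s :: stk) := by
  intro r hr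
  rcases List.mem_cons.1 hr with h | h
  · rw [h]; exact h1
  · exact h2 r h

theorem StkOk.tail {b : ℤ} {T : Tab} {e : ℕ → ℤ} {k : ℕ} {s : Word × Mark}
    {stk : List (Word × Mark)} (h : StkOk b T e k (s :: stk)) : StkOk b T e k stk :=
  fun r hr => h r (List.mem_cons_of_mem _ hr)

theorem StkOk.head {b : ℤ} {T : Tab} {e : ℕ → ℤ} {k : ℕ} {s : Word × Mark}
    {stk : List (Word × Mark)} (h : StkOk b T e k (s :: stk)) :
    WOk b T e k s.1 ∧ Below T.length s.2 ∧ IsZ b e s.2 := h s List.mem_cons_self

/-- pushing the pending power -/
theorem Inv.push {b : ℤ} {k : ℕ} {x : ℕ → G} {e : ℕ → ℤ} {T : Tab}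
    {stk : List (Word × Mark)} {cur : Word} {P : Mark} {inp : Word} {v : HNNExtension G A B φ}
    (h : Inv φ b k x e T stk cur P inp v) (hP : iv b e P ≠ 0)
    (hred : ∀ r ∈ (stkV b e x stk).head?,
      (r.2 < 0 → 0 < iv b e P → wv b e x cur ∉ A) ∧ (0 < r.2 → iv b e P < 0 → wv b e x cur ∉ B)) :
    Inv φ b k x e T ((cur, P) :: stk) [] [] inp v where
  mod := h.mod
  stk_ok := stkOk_cons ⟨h.cur_ok, h.P_below, h.P_isZ⟩ h.stk_ok
  cur_ok := WOk.nil
  P_below := Below.nil
  P_isZ := IsZ.nil
  inp_ok := h.inp_ok
  val := by
    rw [← h.val, stkV_cons]
    simp [sv]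
  red := by
    rw [stkV_cons]
    exact ⟨hP, h.red, hred⟩

/-- the test in one formula -/
theorem tau_cases {b : ℤ} {k : ℕ} {x : ℕ → G}
    {τ : Bool → Tab → Word → Tab × List (Bool × Word)} (hτ : TauSpec b k x A B φ τ)
    (hAB : ∀ g : G, g ∈ A → g ∈ B → g = 1)
    {e : ℕ → ℤ} {T : Tab} {cur : Word} (hT : Model b T e) (hc : WOk b T e (k - 1) cur)
    (dn : Bool) :
    ∃ e', Ext b T e (τ dn T cur).1 e' ∧
      (((τ dn T cur).2 = [] ∧ (dn = true → wv b e x cur ∉ A) ∧ (dn = false → wv b e x cur ∉ B)) ∨
      ∃ z w', (τ dn T cur).2 = [(z, w')] ∧ WOk b (τ dn T cur).1 e' (k - 1) w' ∧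
        (z = true → wv b e x cur = 1) ∧
        (t⁻¹ : HNNExtension G A B φ) ^ (- (bif dn then (1 : ℤ) else -1)) *
          of (wv b e x cur) * (t⁻¹) ^ (bif dn then (1 : ℤ) else -1) = of (wv b e' x w') ∧
        (z = false → dn = true → wv b e' x w' ∉ A) ∧
        (z = false → dn = false → wv b e' x w' ∉ B)) := by
  obtain ⟨h1, h2⟩ := hτ T e cur hT hc
  cases dn
  · obtain ⟨e', hE, h⟩ := h2
    refine ⟨e', hE, ?_⟩
    rcases h with ⟨h, hn⟩ | ⟨z, w', h, hw, hm, hv, hz⟩
    · exact Or.inl ⟨h, by simp, fun _ => hn⟩
    · refine Or.inr ⟨z, w', h, hw, hz.1, ?_, by simp, ?_⟩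
      · have := y_conj_B φ ⟨_, hm⟩
        rw [hv, ← this]
        simp
      · intro hzf _ hB'
        have h1 : wv b e' x w' ∈ A := by rw [hv]; exact (φ.symm ⟨_, hm⟩).2
        have h3 := hAB _ h1 hB'
        rw [hv] at h3
        have h4 : φ.symm ⟨_, hm⟩ = 1 := Subtype.ext h3
        have h5 : (⟨_, hm⟩ : B) = 1 := (MulEquiv.map_eq_one_iff φ.symm).1 h4
        have h6 : wv b e x cur = 1 := congrArg Subtype.val h5
        rw [hz.2 h6] at hzf
        exact Bool.noConfusion hzf
  · obtain ⟨e', hE, h⟩ := h1
    refine ⟨e', hE, ?_⟩
    rcases h with ⟨h, hn⟩ | ⟨z, w', h, hw, hm, hv, hz⟩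
    · exact Or.inl ⟨h, fun _ => hn, by simp⟩
    · refine Or.inr ⟨z, w', h, hw, hz.1, ?_, ?_, by simp⟩
      · have := y_conj_A φ ⟨_, hm⟩
        rw [hv, ← this]
        simp
      · intro hzf _ hA'
        have h1 : wv b e' x w' ∈ B := by rw [hv]; exact (φ ⟨_, hm⟩).2
        have h3 := hAB _ hA' h1
        rw [hv] at h3
        have h4 : φ ⟨_, hm⟩ = 1 := Subtype.ext h3
        have h5 : (⟨_, hm⟩ : A) = 1 := (MulEquiv.map_eq_one_iff φ).1 h4
        have h6 : wv b e x cur = 1 := congrArg Subtype.val h5
        rw [hz.2 h6] at hzf
        exact Bool.noConfusion hzf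

theorem step_main (S : NumSys) {k : ℕ} (hk : 0 < k) {x : ℕ → G} (h : Lev k x)
    {τ : Bool → Tab → Word → Tab × List (Bool × Word)} (hτ : TauSpec S.b k x A B φ τ)
    (hAB : ∀ g : G, g ∈ A → g ∈ B → g = 1)
    {e : ℕ → ℤ} {T : Tab} {stk : List (Word × Mark)} {cur : Word} {P : Mark} {inp : Word}
    {v : HNNExtension G A B φ} (hI : Inv φ S.b k x e T stk cur P inp v) :
    (iv S.b e P = 0 ∧ inp = [] ∧
      redStep S k τ (T, stk, cur, P, inp) = (T, stk, cur, P, inp)) ∨
    ∃ e' T' stk' cur' P' inp', redStep S k τ (T, stk, cur, P, inp) =
        (T', stk', cur', P', inp') ∧ Ext S.b T e T' e' ∧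
      Inv φ S.b k x e' T' stk' cur' P' inp' v ∧
      mu S.b e' stk' P' inp' + 1 ≤ mu S.b e stk P inp := by
  rw [redStep_def]
  by_cases hP : S.isZ T P = true
  · have hP0 := (S.isZ_iff' hI.mod hI.P_below hI.P_isZ).1 hP
    rw [hP, cond_true]
    rcases inp with _ | ⟨⟨i, M⟩, inp⟩
    · exact Or.inl ⟨hP0, rfl, rfl⟩
    · right
      simp only [List.isEmpty_cons, cond_false, List.headD_cons, List.tail_cons]
      have hh := hI.inp_ok.head
      simp only at hh
      by_cases hik : i = k
      · subst hik
        refine ⟨e, T, stk, cur, M, inp, by simp, Ext.refl hI.mod, ?_, ?_⟩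
        · exact
          { mod := hI.mod
            stk_ok := hI.stk_ok
            cur_ok := hI.cur_ok
            P_below := hh.2.1
            P_isZ := hh.2.2
            inp_ok := hI.inp_ok.tail
            val := by
              rw [← hI.val, hP0, wv_cons, nx_self]
              simp [mul_assoc]
            red := hI.red }
        · unfold mu
          simp only [hP0, List.length_cons, if_true]
          split_ifs <;> omega
      · have hb : (i == k) = false := by simpa using hik
        have hik' : i < k := lt_of_le_of_ne hh.1 hik
        refine ⟨e, T, stk, cur ++ [(i, M)], [], inp, by simp [hb], Ext.refl hI.mod, ?_, ?_⟩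
        · exact
          { mod := hI.mod
            stk_ok := hI.stk_ok
            cur_ok := hI.cur_ok.append (WOk.single (by omega) hh.2.1 hh.2.2)
            P_below := Below.nil
            P_isZ := IsZ.nil
            inp_ok := hI.inp_ok.tail
            val := by
              rw [← hI.val, hP0, wv_cons, nx_lt φ x hik', wv_append]
              simp [mul_assoc]
            red := hI.red }
        · unfold mu
          simp only [hP0, List.length_cons, if_true, iv_nil]
          omega
  · right
    have hP0 : iv S.b e P ≠ 0 := fun h0 => hP ((S.isZ_iff' hI.mod hI.P_below hI.P_isZ).2 h0)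
    rw [Bool.not_eq_true] at hP
    rw [hP, cond_false]
    have hmu : ∀ stk' : List (Word × Mark), stk'.length = stk.length + 1 →
        ∀ e', mu S.b e' stk' [] inp + 1 ≤ mu S.b e stk P inp := by
      intro stk' hl e'
      unfold mu
      rw [if_neg hP0, iv_nil, if_pos rfl, hl]
      omega
    rcases stk with _ | ⟨⟨g, N⟩, stk⟩
    · refine ⟨e, T, [(cur, P)], [], [], inp, by simp, Ext.refl hI.mod, ?_, hmu _ (by simp) _⟩
      exact hI.push hP0 (by simp [stkV])
    · simp only [List.isEmpty_cons, cond_false, List.headD_cons, List.tail_cons]
      have hN := hI.stk_ok.head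
      simp only at hN
      have hNred := hI.red
      rw [stkV_cons] at hNred
      obtain ⟨hN0, hred', hNr⟩ := hNred
      simp only at hN0
      have sN1 := S.pos_iff hI.mod hN.2.1 hN.2.2
      have sN2 := S.neg_iff hI.mod hN.2.1 hN.2.2
      have sP1 := S.pos_iff hI.mod hI.P_below hI.P_isZ
      have sP2 := S.neg_iff hI.mod hI.P_below hI.P_isZ
      by_cases hdu : (((S.sgn T N).2 && (S.sgn T P).1) || ((S.sgn T N).1 && (S.sgn T P).2)) = true
      · rw [hdu, cond_true]
        -- common part after the test
        obtain ⟨dn, hdn⟩ : ∃ dn : Bool, ((S.sgn T N).2 && (S.sgn T P).1) = dn := ⟨_, rfl⟩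
        rw [hdn]
        -- signs
        have hsig : (dn = true → iv S.b e N < 0 ∧ 0 < iv S.b e P) ∧
            (dn = false → 0 < iv S.b e N ∧ iv S.b e P < 0) := by
          constructor
          · intro hd
            rw [hd, Bool.and_eq_true, sN2, sP1] at hdn
            exact hdn
          · intro hd
            rw [hdn, hd, Bool.false_or, Bool.and_eq_true, sN1, sP2] at hdu
            exact hdu
        obtain ⟨e', hE, hcase⟩ := tau_cases hτ hAB hI.mod hI.cur_ok dn
        have hI' := hI.ext hE
        -- integer values do not change
        have eN : iv S.b e' N = iv S.b e N := hE.iv hN.2.1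
        have eP : iv S.b e' P = iv S.b e P := hE.iv hI.P_below
        have eC : wv S.b e' x cur = wv S.b e x cur := hI.cur_ok.wv_ext hE
        have hI'N := hI'.stk_ok.head
        simp only at hI'N
        rcases hcase with ⟨hr, hnA, hnB⟩ | ⟨z, w', hr, hw', hz1, hconj, hzA, hzB⟩
        · -- no pinch
          refine ⟨e', (τ dn T cur).1, (cur, P) :: (g, N) :: stk, [], [], inp, ?_, hE, ?_,
            hmu _ (by simp) _⟩
          · simp only [hr, List.isEmpty_nil, cond_true]
          · refine hI'.push (by rw [eP]; exact hP0) ?_
            intro r hr'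
            rw [stkV_cons, List.head?_cons, Option.mem_some_iff] at hr'
            subst hr'
            simp only [eN, eP, eC]
            constructor
            · intro h1 h2
              apply hnA
              by_contra hd
              rw [Bool.not_eq_true] at hd
              have := (hsig.2 hd).1
              omega
            · intro h1 h2
              apply hnB
              by_contra hd
              rw [Bool.not_eq_false] at hd
              have := (hsig.1 hd).1
              omega
        · simp only [hr, List.isEmpty_cons, cond_false, List.headD_cons]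
          rcases z with _ | _
          · -- a real pinch
            simp only [cond_false]
            have hzA := hzA rfl
            have hzB := hzB rfl
            -- the shifted exponents
            have uB := below_unit hE.model dn
            have uZ := isZ_unit hE.model dn
            have uV := iv_unit hE.model dn
            have uB' := below_unit hE.model (!dn)
            have uZ' := isZ_unit hE.model (!dn)
            have uV' : iv S.b e' [(!dn, 0)] = -(bif dn then (1 : ℤ) else -1) := by
              rw [iv_unit hE.model (!dn)]; cases dn <;> simp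
            have N1B : Below (τ dn T cur).1.length (N ++ [(dn, 0)]) := hI'N.2.1.append uB
            have N1Z : IsZ S.b e' (N ++ [(dn, 0)]) := hI'N.2.2.append uZ
            have N1V : iv S.b e' (N ++ [(dn, 0)]) = iv S.b e N + (bif dn then (1 : ℤ) else -1) := by
              rw [iv_append hI'N.2.2 uZ, uV, eN]
            have P1B : Below (τ dn T cur).1.length (P ++ [(!dn, 0)]) := hI'.P_below.append uB'
            have P1Z : IsZ S.b e' (P ++ [(!dn, 0)]) := hI'.P_isZ.append uZ'
            have P1V : iv S.b e' (P ++ [(!dn, 0)]) = iv S.b e P - (bif dn then (1 : ℤ) else -1) := by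
              rw [iv_append hI'.P_isZ uZ', uV', eP]; ring
            obtain ⟨δ, hδ⟩ : ∃ δ : ℤ, (bif dn then (1 : ℤ) else -1) = δ := ⟨_, rfl⟩
            rw [hδ] at N1V P1V hconj
            -- value
            have hval : sv φ (stkV S.b e' x stk) * of (wv S.b e' x g) *
                (t⁻¹) ^ (iv S.b e N + δ) * of (wv S.b e' x w') * (t⁻¹) ^ (iv S.b e P - δ) *
                wv S.b e' (nx φ k x) inp = v := by
              rw [← hI'.val, stkV_cons, ← hconj, eC, eN, eP]
              simp only [sv]
              rw [zpow_add, zpow_sub, zpow_neg]
              group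
            have hred1 : iv S.b e N + δ ≠ 0 →
                BRed A B ((wv S.b e' x g, iv S.b e N + δ) :: stkV S.b e' x stk) := by
              intro hne
              have hb := hI'.red
              rw [stkV_cons] at hb
              refine ⟨hne, hb.2.1, fun r hr => ?_⟩
              have hb' := hb.2.2 r hr
              rw [eN] at hb'
              refine ⟨fun h1 h2 => hb'.1 h1 ?_, fun h1 h2 => hb'.2 h1 ?_⟩
              · cases dn
                · exact (hsig.2 rfl).1
                · have := (hsig.1 rfl).1
                  simp only [cond_true] at hδ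
                  omega
              · cases dn
                · have := (hsig.2 rfl).1
                  simp only [cond_false] at hδ
                  omega
                · exact (hsig.1 rfl).1
            by_cases hN1 : S.isZ (τ dn T cur).1 (N ++ [(dn, 0)]) = true
            · -- the block disappears
              have hN1' := (S.isZ_iff' hE.model N1B N1Z).1 hN1
              rw [N1V] at hN1'
              rw [hN1, cond_true]
              refine ⟨e', _, stk, g ++ w', P ++ [(!dn, 0)], inp, rfl, hE, ?_, ?_⟩
              · exact
                { mod := hE.model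
                  stk_ok := hI'.stk_ok.tail
                  cur_ok := hI'N.1.append hw'
                  P_below := P1B
                  P_isZ := P1Z
                  inp_ok := hI'.inp_ok
                  val := by
                    rw [← hval, P1V, hN1', wv_append, map_mul]
                    simp [mul_assoc]
                  red := by
                    have := hI'.red
                    rw [stkV_cons] at this
                    exact this.2.1 }
              · unfold mu
                rw [if_neg hP0, List.length_cons]
                split_ifs <;> omega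
            · have hN1' : iv S.b e N + δ ≠ 0 := by
                intro h0
                apply hN1
                rw [S.isZ_iff' hE.model N1B N1Z, N1V]
                exact h0
              rw [Bool.not_eq_true] at hN1
              rw [hN1, cond_false]
              by_cases hP1 : S.isZ (τ dn T cur).1 (P ++ [(!dn, 0)]) = true
              · have hP1' := (S.isZ_iff' hE.model P1B P1Z).1 hP1
                rw [P1V] at hP1'
                rw [hP1, cond_true]
                refine ⟨e', _, (g, N ++ [(dn, 0)]) :: stk, w', [], inp, rfl, hE, ?_, ?_⟩
                · exact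
                  { mod := hE.model
                    stk_ok := stkOk_cons ⟨hI'N.1, N1B, N1Z⟩ hI'.stk_ok.tail
                    cur_ok := hw'
                    P_below := Below.nil
                    P_isZ := IsZ.nil
                    inp_ok := hI'.inp_ok
                    val := by
                      rw [← hval, hP1', stkV_cons]
                      simp only [sv, N1V, iv_nil]
                    red := by
                      rw [stkV_cons]
                      simp only [N1V]
                      exact hred1 hN1' }
                · unfold mu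
                  rw [if_neg hP0, List.length_cons, List.length_cons, iv_nil, if_pos rfl]
                  omega
              · have hP1' : iv S.b e P - δ ≠ 0 := by
                  intro h0
                  apply hP1
                  rw [S.isZ_iff' hE.model P1B P1Z, P1V]
                  exact h0
                rw [Bool.not_eq_true] at hP1
                rw [hP1, cond_false]
                refine ⟨e', _, (w', P ++ [(!dn, 0)]) :: (g, N ++ [(dn, 0)]) :: stk, [], [], inp,
                  rfl, hE, ?_, hmu _ (by simp) _⟩
                exact
                  { mod := hE.model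
                    stk_ok := stkOk_cons ⟨hw', P1B, P1Z⟩
                      (stkOk_cons ⟨hI'N.1, N1B, N1Z⟩ hI'.stk_ok.tail)
                    cur_ok := WOk.nil
                    P_below := Below.nil
                    P_isZ := IsZ.nil
                    inp_ok := hI'.inp_ok
                    val := by
                      rw [← hval, stkV_cons, stkV_cons]
                      simp only [sv, N1V, P1V, iv_nil, wv_nil, map_one, zpow_zero, mul_one]
                    red := by
                      rw [stkV_cons, stkV_cons]
                      simp only [N1V, P1V]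
                      refine ⟨hP1', hred1 hN1', ?_⟩
                      intro r hr
                      rw [List.head?_cons, Option.mem_some_iff] at hr
                      subst hr
                      refine ⟨fun h1 h2 => ?_, fun h1 h2 => ?_⟩
                      · apply hzA
                        by_contra hd
                        rw [Bool.not_eq_true] at hd
                        have := (hsig.2 hd).1
                        rw [hd] at hδ
                        simp only [cond_false] at hδ
                        simp only at h1
                        omega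
                      · apply hzB
                        by_contra hd
                        rw [Bool.not_eq_false] at hd
                        have := (hsig.1 hd).1
                        rw [hd] at hδ
                        simp only [cond_true] at hδ
                        simp only at h1
                        omega }
          · -- the word is trivial
            simp only [cond_true]
            have hz1 := hz1 rfl
            refine ⟨e', _, stk, g, N ++ P, inp, rfl, hE, ?_, ?_⟩
            · exact
              { mod := hE.model
                stk_ok := hI'.stk_ok.tail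
                cur_ok := hI'N.1
                P_below := hI'N.2.1.append hI'.P_below
                P_isZ := hI'N.2.2.append hI'.P_isZ
                inp_ok := hI'.inp_ok
                val := by
                  rw [← hI'.val, stkV_cons, eC, hz1, iv_append hI'N.2.2 hI'.P_isZ]
                  simp only [sv, map_one, mul_one, zpow_add, mul_assoc]
                red := by
                  have := hI'.red
                  rw [stkV_cons] at this
                  exact this.2.1 }
            · unfold mu
              rw [if_neg hP0, List.length_cons]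
              split_ifs <;> omega
      · rw [Bool.not_eq_true] at hdu
        rw [hdu, cond_false]
        refine ⟨e, T, (cur, P) :: (g, N) :: stk, [], [], inp, rfl, Ext.refl hI.mod, ?_,
          hmu _ (by simp) _⟩
        refine hI.push hP0 ?_
        intro r hr
        rw [stkV_cons, List.head?_cons, Option.mem_some_iff] at hr
        subst hr
        rw [Bool.or_eq_false_iff] at hdu
        constructor
        · intro h1 h2
          have := hdu.1
          rw [sN2.2 h1, sP1.2 h2] at this
          simp at this
        · intro h1 h2
          have := hdu.2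
          rw [sN1.2 h1, sP2.2 h2] at this
          simp at this

theorem iter_main (S : NumSys) {k : ℕ} (hk : 0 < k) {x : ℕ → G} (h : Lev k x)
    {τ : Bool → Tab → Word → Tab × List (Bool × Word)} (hτ : TauSpec S.b k x A B φ τ)
    (hAB : ∀ g : G, g ∈ A → g ∈ B → g = 1) {v : HNNExtension G A B φ} (f : ℕ) :
    ∀ {e : ℕ → ℤ} {T : Tab} {stk : List (Word × Mark)} {cur : Word} {P : Mark} {inp : Word},
      Inv φ S.b k x e T stk cur P inp v → mu S.b e stk P inp ≤ f →
      ∃ e' T' stk' cur' P', (redStep S k τ)^[f] (T, stk, cur, P, inp) =
        (T', stk', cur', P', []) ∧ Ext S.b T e T' e' ∧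
        Inv φ S.b k x e' T' stk' cur' P' [] v ∧ iv S.b e' P' = 0 := by
  induction f with
  | zero =>
    intro e T stk cur P inp hI hmu
    have hP : iv S.b e P = 0 := by
      by_contra h0
      unfold mu at hmu
      rw [if_neg h0] at hmu
      omega
    have hinp : inp = [] := by
      unfold mu at hmu
      rw [← List.length_eq_zero_iff]
      omega
    subst hinp
    exact ⟨e, T, stk, cur, P, rfl, Ext.refl hI.mod, hI, hP⟩
  | succ f ih =>
    intro e T stk cur P inp hI hmu
    rcases step_main S hk h hτ hAB hI with ⟨h1, h2, h3⟩ |
      ⟨e1, T1, stk1, cur1, P1, inp1, h1, h2, h3, h4⟩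
    · subst h2
      refine ⟨e, T, stk, cur, P, ?_, Ext.refl hI.mod, hI, h1⟩
      exact Function.iterate_fixed h3 _
    · obtain ⟨e', T', stk', cur', P', h5, h6, h7, h8⟩ := ih h3 (by omega)
      refine ⟨e', T', stk', cur', P', ?_, h2.trans h6, h7, h8⟩
      rw [Function.iterate_succ_apply, h1, h5]

theorem memS_def (S : NumSys) (k : ℕ) (τ : Bool → Tab → Word → Tab × List (Bool × Word))
    (mem : Tab → Word → ℕ → Tab × List Mark) (T : Tab) (w : Word) (c : ℕ) :
    memS S k τ mem T w c =
      bif !(red S k τ T (bif c == k then w ++ [(k, negm (ksum k w))] else w)).2.1.isEmpty then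
        ((red S k τ T (bif c == k then w ++ [(k, negm (ksum k w))] else w)).1, [])
      else
        bif c == k then
          ((mem (red S k τ T (bif c == k then w ++ [(k, negm (ksum k w))] else w)).1
            (red S k τ T (bif c == k then w ++ [(k, negm (ksum k w))] else w)).2.2.1
            (bif c == k then 0 else c)).1,
            bif !(mem (red S k τ T (bif c == k then w ++ [(k, negm (ksum k w))] else w)).1
            (red S k τ T (bif c == k then w ++ [(k, negm (ksum k w))] else w)).2.2.1
            (bif c == k then 0 else c)).2.isEmpty && S.isZ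
              (mem (red S k τ T (bif c == k then w ++ [(k, negm (ksum k w))] else w)).1
            (red S k τ T (bif c == k then w ++ [(k, negm (ksum k w))] else w)).2.2.1
            (bif c == k then 0 else c)).1
              ((mem (red S k τ T (bif c == k then w ++ [(k, negm (ksum k w))] else w)).1
            (red S k τ T (bif c == k then w ++ [(k, negm (ksum k w))] else w)).2.2.1
            (bif c == k then 0 else c)).2.headD []) then [ksum k w] else [])
        else (mem (red S k τ T (bif c == k then w ++ [(k, negm (ksum k w))] else w)).1
            (red S k τ T (bif c == k then w ++ [(k, negm (ksum k w))] else w)).2.2.1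
            (bif c == k then 0 else c)) := rfl

theorem memS_spec (S : NumSys) {k : ℕ} (hk : 0 < k) {x : ℕ → G} (h : Lev k x)
    {mem : Tab → Word → ℕ → Tab × List Mark} (hm : MemSpec S.b k x mem)
    {τ : Bool → Tab → Word → Tab × List (Bool × Word)} (hτ : TauSpec S.b k x A B φ τ)
    (hAB : ∀ g : G, g ∈ A → g ∈ B → g = 1) :
    MemSpec S.b (k + 1) (nx φ k x) (memS S k τ mem) := by
  intro T e w c hT hw hc
  rw [Nat.add_sub_cancel] at hw
  obtain ⟨ksB, ksZ, hks⟩ := mem_zpowers_y_iff φ (x := x) hT hw
  -- run of the reduction on a word
  have hrun : ∀ w1 : Word, WOk S.b T e k w1 → ∃ e' T' stk' cur', (red S k τ T w1).1 = T' ∧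
      (red S k τ T w1).2.1 = stk' ∧ (red S k τ T w1).2.2.1 = cur' ∧ Ext S.b T e T' e' ∧
      WOk S.b T' e' (k - 1) cur' ∧
      BRed A B (stkV S.b e' x stk') ∧
      wv S.b e (nx φ k x) w1 = sv φ (stkV S.b e' x stk') * of (wv S.b e' x cur') := by
    intro w1 hw1
    have hI : Inv φ S.b k x e T [] [] [] w1 (wv S.b e (nx φ k x) w1) :=
      { mod := hT
        stk_ok := by intro s hs; simp at hs
        cur_ok := WOk.nil
        P_below := Below.nil
        P_isZ := IsZ.nil
        inp_ok := hw1
        val := by simp [stkV, sv]
        red := trivial }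
    obtain ⟨e', T', stk', cur', P', h1, h2, h3, h4⟩ :=
      iter_main S hk h hτ hAB (3 * w1.length + 1) hI (by unfold mu; simp)
    refine ⟨e', T', stk', cur', by rw [red, h1], by rw [red, h1], by rw [red, h1], h2,
      h3.cur_ok, h3.red, ?_⟩
    rw [← h3.val, h4]
    simp
  rw [memS_def]
  by_cases hck : c = k
  · subst hck
    simp only [beq_self_eq_true, cond_true]
    have hw1 : WOk S.b T e c (w ++ [(c, negm (ksum c w))]) :=
      hw.append (WOk.single le_rfl ksB.negm ksZ.negm)
    obtain ⟨e', T', stk', cur', r1, r2, r3, hE, hcur, hred, hval⟩ := hrun _ hw1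
    rw [r1, r2, r3, nx_self]
    rcases stk' with _ | ⟨s, stk'⟩
    · simp only [List.isEmpty_nil, Bool.not_true, cond_false]
      have hval' : wv S.b e (nx φ c x) (w ++ [(c, negm (ksum c w))]) = of (wv S.b e' x cur') := by
        rw [hval]; simp [stkV, sv]
      obtain ⟨e'', hE', hcase⟩ := hm T' e' cur' 0 hE.model hcur hk
      rcases hcase with ⟨h1, h2⟩ | ⟨M, h1, hMB, hMZ, h2⟩
      · refine ⟨e'', ?_, Or.inl ⟨?_, ?_⟩⟩
        · exact hE.trans hE'
        · simp only [h1, List.isEmpty_nil, Bool.not_true, Bool.false_and, cond_false]
        · rw [hks, hval']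
          intro h3
          rw [← map_one (of : G →* HNNExtension G A B φ)] at h3
          have h4 := HNNExtension.of_injective φ h3
          apply h2
          rw [h4]
          exact Subgroup.one_mem _
      · have hEE := hE.trans hE'
        by_cases hz : S.isZ (mem T' cur' 0).1 M = true
        · refine ⟨e'', hEE, Or.inr ⟨ksum c w, ?_, hEE.below ksB, hEE.isZ ksB ksZ, ?_⟩⟩
          · simp only [h1, List.isEmpty_cons, Bool.not_false, List.headD_cons, hz, Bool.true_and,
              cond_true]
          · rw [S.isZ_iff' hE'.model hMB hMZ] at hz
            rw [hz, zpow_zero] at h2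
            rw [h2, map_one, wv_append, wv_cons, wv_nil, mul_one, nx_self, iv_negm ksZ,
              zpow_neg] at hval'
            rw [hEE.iv ksB]
            exact mul_inv_eq_one.1 hval'
        · refine ⟨e'', hEE, Or.inl ⟨?_, ?_⟩⟩
          · rw [Bool.not_eq_true] at hz
            simp only [h1, List.isEmpty_cons, Bool.not_false, List.headD_cons, hz, Bool.true_and,
              cond_false]
          · rw [hks, hval']
            intro h3
            rw [← map_one (of : G →* HNNExtension G A B φ)] at h3
            have h4 := HNNExtension.of_injective φ h3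
            apply hz
            rw [S.isZ_iff' hE'.model hMB hMZ]
            apply h.inf 0 hk
            rw [← h2, h4]
    · simp only [List.isEmpty_cons, Bool.not_false, cond_true]
      refine ⟨e', hE, Or.inl ⟨trivial, ?_⟩⟩
      rw [hks]
      intro h3
      have := brit φ (s := stkV S.b e' x (s :: stk')) (by simp [stkV]) hred (wv S.b e' x cur')
      apply this
      rw [← hval, h3]
      exact Subgroup.one_mem _
  · have hb : (c == k) = false := by simpa using hck
    have hck' : c < k := by omega
    simp only [hb, cond_false]
    obtain ⟨e', T', stk', cur', r1, r2, r3, hE, hcur, hred, hval⟩ := hrun w hw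
    rw [r1, r2, r3, nx_lt φ x hck']
    rcases stk' with _ | ⟨s, stk'⟩
    · simp only [List.isEmpty_nil, Bool.not_true, cond_false]
      have hval' : wv S.b e (nx φ k x) w = of (wv S.b e' x cur') := by
        rw [hval]; simp [stkV, sv]
      obtain ⟨e'', hE', hcase⟩ := hm T' e' cur' c hE.model hcur hck'
      refine ⟨e'', hE.trans hE', ?_⟩
      rcases hcase with ⟨h1, h2⟩ | ⟨M, h1, hMB, hMZ, h2⟩
      · refine Or.inl ⟨h1, ?_⟩
        rw [hval']
        rintro ⟨z, hz⟩
        apply h2
        refine ⟨z, ?_⟩
        simp only at hz ⊢
        rw [← map_zpow] at hz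
        exact HNNExtension.of_injective φ hz
      · refine Or.inr ⟨M, h1, hMB, hMZ, ?_⟩
        rw [hval', h2, map_zpow]
    · simp only [List.isEmpty_cons, Bool.not_false, cond_true]
      refine ⟨e', hE, Or.inl ⟨trivial, ?_⟩⟩
      rintro ⟨z, hz⟩
      have := brit φ (s := stkV S.b e' x (s :: stk')) (by simp [stkV]) hred (wv S.b e' x cur')
      apply this
      rw [← hval, ← hz]
      refine ⟨x c ^ z, ?_⟩
      rw [map_zpow]

end Pool.Agent.OR1
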