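import Pool.Agent.OR1.Basic

/-!
# The operation `r, m ↦ r * b ^ (-m)`

PROOF.  `e' (T.length + j) = e (i_j) - iv m`, where `i_j` is the node of the `j`-th item of `r`.
-/

namespace Pool.Agent.OR1

open Pool.Agent.Lib.PT

private theorem scale_mv {b : ℤ} (hb : b ≠ 0) (T : Tab) (e e' : ℕ → ℤ) (r : Mark) (v : ℤ)
    (h : ∀ j (hj : j < r.length), e' (T.length + j) = e (r[j]).2 - v) :
    mv b e' (scaleMark T r) = mv b e r * (b : ℚ) ^ (-v) := by
  have hbq : (b : ℚ) ≠ 0 := by exact_mod_cast hb
  unfold mv scaleMark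
  rw [List.map_map]
  have key : (r.zip (List.range r.length)).map
      ((fun p : Bool × ℕ => sg p.1 * (b : ℚ) ^ e' p.2) ∘
        fun p : (Bool × ℕ) × ℕ => (p.1.1, T.length + p.2)) =
      r.map fun p => sg p.1 * (b : ℚ) ^ e p.2 * (b : ℚ) ^ (-v) := by
    apply List.ext_getElem
    · simp
    · intro j h1 h2
      have hj : j < r.length := by simpa using h2
      simp only [List.getElem_map, List.getElem_zip, List.getElem_range, Function.comp_apply]
      rw [h j hj, mul_assoc, ← zpow_add₀ hbq, sub_eq_add_neg]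
  rw [key, List.sum_map_mul_right]

theorem scale_ext {b : ℤ} (hb : b ≠ 0) {T : Tab} {e : ℕ → ℤ} {r m : Mark} (h : Model b T e)
    (hr : Below T.length r) (hm : Below T.length m) (hz : IsZ b e m) :
    ∃ e', Ext b T e (scaleTab T r m) e' ∧
      Below (scaleTab T r m).length (scaleMark T r) ∧
      mv b e' (scaleMark T r) = mv b e r * (b : ℚ) ^ (- iv b e m) := by
  obtain ⟨e', he'⟩ : ∃ e' : ℕ → ℤ, ∀ i, e' i = if i < T.length then e i else
      e (r.getD (i - T.length) (true, 0)).2 - iv b e m := ⟨_, fun _ => rfl⟩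
  have hag : ∀ i < T.length, e' i = e i := fun i hi => by rw [he', if_pos hi]
  have hnew : ∀ j (hj : j < r.length), e' (T.length + j) = e (r[j]).2 - iv b e m := by
    intro j hj
    rw [he', if_neg (by omega), Nat.add_sub_cancel_left, List.getD_eq_getElem?_getD,
      List.getElem?_eq_getElem hj]
    rfl
  have hlen : (scaleTab T r m).length = T.length + r.length := by
    simp [scaleTab]
  refine ⟨e', ⟨⟨?_, ?_⟩, ?_, hag⟩, ?_, scale_mv hb T e e' r _ hnew⟩
  · unfold scaleTab
    rw [List.getElem?_append_left h.pos]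
    exact h.zero
  · intro i M hM
    rcases lt_or_ge i T.length with hi | hi
    · unfold scaleTab at hM
      rw [List.getElem?_append_left hi] at hM
      obtain ⟨h1, h2⟩ := h.ok i M hM
      refine ⟨h1, ?_⟩
      rw [mv_congr hag (h1.mono hi.le), h2, hag i hi]
    · unfold scaleTab at hM
      rw [List.getElem?_append_right hi, List.getElem?_map, Option.map_eq_some_iff] at hM
      obtain ⟨p, hp, rfl⟩ := hM
      obtain ⟨hj, hpj⟩ := List.getElem?_eq_some_iff.1 hp
      have hpr : p ∈ r := hpj ▸ List.getElem_mem hj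
      have hp2 := hr p hpr
      have hb1 := h.below hp2
      refine ⟨(hb1.mono (hp2.le.trans hi)).append (hm.negm.mono hi), ?_⟩
      have h3 := hnew (i - T.length) hj
      rw [Nat.add_sub_cancel' hi, hpj] at h3
      rw [h3, mv_append, mv_congr hag (hb1.mono hp2.le), h.val hp2, mv_congr hag hm.negm, mv_negm,
        hz.eq]
      push_cast
      ring
  · exact List.prefix_append _ _
  · intro p hp
    unfold scaleMark at hp
    rw [List.mem_map] at hp
    obtain ⟨q, hq, rfl⟩ := hp
    have h1 : q.2 ∈ List.range r.length := (List.of_mem_zip hq).2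
    rw [List.mem_range] at h1
    rw [hlen]
    simp only
    omega

end Pool.Agent.OR1
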