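import Pool.Agent.OR1.NegPoly

/-!
# A number system for every base `b ≠ 0`
-/

namespace Pool.Agent.OR1

open Pool.Agent.Lib.PT

/-- base `q ≥ 2` -/
def numQ (q : ℕ) (hq : 2 ≤ q) : NumSys where
  b := q
  hb := by positivity
  sgn := sgnQ q
  isInt := isIntQ q
  sgn_spec := fun _ _ _ h hM => sgnQ_spec hq h hM
  isInt_spec := fun _ _ _ h hM => isIntQ_spec hq h hM
  sgn_poly := poly_sgnQ q
  isInt_poly := poly_isIntQ q

/-- base `-q`, `q ≥ 2` -/
def numN (q : ℕ) (hq : 2 ≤ q) : NumSys where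
  b := -q
  hb := by
    have : (0 : ℤ) < q := by positivity
    omega
  sgn := sgnN q
  isInt := isIntN q
  sgn_spec := fun T e M h hM => by
    obtain ⟨h1, h2, h3⟩ := convT_spec hq h
    obtain ⟨h4, h5⟩ := h3 M hM
    rw [← h2] at h4
    have := sgnQ_spec hq h1 h4
    rw [h5] at this
    exact this
  isInt_spec := fun T e M h hM => by
    obtain ⟨h1, h2, h3⟩ := convT_spec hq h
    obtain ⟨h4, h5⟩ := h3 M hM
    rw [← h2] at h4
    have := isIntQ_spec hq h1 h4
    rw [IsZ, h5] at this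
    exact this
  sgn_poly := poly_sgnN q
  isInt_poly := poly_isIntN q

/-- base `1` -/
def numOne : NumSys where
  b := 1
  hb := by norm_num
  sgn := fun _ M => sgnOne M
  isInt := fun _ _ => true
  sgn_spec := fun _ _ M _ _ => sgnOne_spec M
  isInt_spec := fun _ _ M _ _ => ⟨fun _ => (isZ_one M).1, fun _ => rfl⟩
  sgn_poly := poly_sgnOne
  isInt_poly := PolyTime.const true

/-- base `-1` -/
def numNegOne : NumSys where
  b := -1
  hb := by norm_num
  sgn := sgnNegOne
  isInt := fun _ _ => true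
  sgn_spec := fun _ _ _ h hM => sgnNegOne_spec h hM
  isInt_spec := fun _ _ M _ _ => ⟨fun _ => (isZ_one M).2, fun _ => rfl⟩
  sgn_poly := poly_sgnNegOne
  isInt_poly := PolyTime.const true

/-- there is a number system for every base `b ≠ 0` -/
theorem exists_numSys {b : ℤ} (hb : b ≠ 0) : ∃ S : NumSys, S.b = b := by
  rcases lt_trichotomy b 0 with h | h | h
  · obtain ⟨n, rfl⟩ : ∃ n : ℕ, b = -(n : ℤ) := ⟨b.natAbs, by omega⟩
    by_cases h1 : n = 1
    · subst h1
      exact ⟨numNegOne, rfl⟩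
    · exact ⟨numN n (by omega), rfl⟩
  · exact absurd h hb
  · obtain ⟨n, rfl⟩ : ∃ n : ℕ, b = (n : ℤ) := ⟨b.natAbs, by omega⟩
    by_cases h1 : n = 1
    · subst h1
      exact ⟨numOne, rfl⟩
    · exact ⟨numQ n (by omega), rfl⟩

end Pool.Agent.OR1
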