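import Pool.Agent.OR1.Basic

/-!
# The tests for the associated subgroups

PROOF.  Unfold `assoc` and use `MemSpec` (for `d = none` with the letter `0`; `x 0 ^ z = 1` iff
`z = 0` by `Lev`).
-/

namespace Pool.Agent.OR1

open Pool.Agent.Lib.PT

variable {G : Type*} [Group G]

/-- the associated subgroups and the isomorphism are those described by `d` -/
def LettOK (k : ℕ) (x : ℕ → G) (A B : Subgroup G) (φ : A ≃* B) : Lett → Prop
  | none => A = ⊥ ∧ B = ⊥
  | some (u, v, s) => u < k ∧ v < k ∧ u ≠ v ∧ A = Subgroup.zpowers (x u) ∧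
      B = Subgroup.zpowers (x v) ∧
      ∀ (a : A) (z : ℤ), (a : G) = x u ^ z → (φ a : G) = x v ^ ((bif s then 1 else -1) * z)

theorem LettOK.disjoint {k : ℕ} {x : ℕ → G} {A B : Subgroup G} {φ : A ≃* B} {d : Lett}
    (h : Lev k x) (hd : LettOK k x A B φ d) : ∀ g : G, g ∈ A → g ∈ B → g = 1 := by
  intro g hA hB
  rcases d with _ | ⟨u, v, s⟩
  · obtain ⟨h1, _⟩ := hd
    rw [h1, Subgroup.mem_bot] at hA
    exact hA
  · obtain ⟨hu, hv, huv, h1, h2, _⟩ := hd
    rw [h1, Subgroup.mem_zpowers_iff] at hA
    rw [h2, Subgroup.mem_zpowers_iff] at hB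
    obtain ⟨a, ha⟩ := hA
    obtain ⟨c, hc⟩ := hB
    have := h.triv u hu v hv huv a c (ha.trans hc.symm)
    rw [← ha, this, zpow_zero]

theorem exists_none (k : ℕ) (x : ℕ → G) :
    LettOK k x (⊥ : Subgroup G) (⊥ : Subgroup G) (MulEquiv.refl _) none := by
  exact ⟨rfl, rfl⟩

/-- the cyclic group of an element of infinite order -/
theorem exists_equiv (g : G) (hg : ∀ z : ℤ, g ^ z = 1 → z = 0) (t : ℤ) (ht : t = 1 ∨ t = -1) :
    ∃ E : Multiplicative ℤ ≃* Subgroup.zpowers g, ∀ z : ℤ,
      ((E (Multiplicative.ofAdd z) : Subgroup.zpowers g) : G) = g ^ (t * z) := by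
  let f : Multiplicative ℤ →* Subgroup.zpowers g :=
    { toFun := fun z => ⟨g ^ (t * z.toAdd), Subgroup.zpow_mem_zpowers g _⟩
      map_one' := by
        apply Subtype.ext
        simp
      map_mul' := by
        intro a c
        apply Subtype.ext
        simp only [toAdd_mul, Subgroup.coe_mul]
        rw [mul_add, zpow_add] }
  have hf : Function.Bijective f := by
    constructor
    · rw [injective_iff_map_eq_one]
      intro a ha
      have h1 : g ^ (t * a.toAdd) = 1 := congrArg Subtype.val ha
      have h2 := hg _ h1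
      have h3 : a.toAdd = 0 := by
        rcases ht with rfl | rfl
        · simpa using h2
        · simpa using h2
      exact Multiplicative.toAdd.injective (by simpa using h3)
    · rintro ⟨y, hy⟩
      rw [Subgroup.mem_zpowers_iff] at hy
      obtain ⟨z, rfl⟩ := hy
      refine ⟨Multiplicative.ofAdd (t * z), Subtype.ext ?_⟩
      change g ^ (t * (Multiplicative.ofAdd (t * z)).toAdd) = g ^ z
      rw [toAdd_ofAdd, ← mul_assoc]
      rcases ht with rfl | rfl <;> simp
  exact ⟨MulEquiv.ofBijective f hf, fun z => rfl⟩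

theorem exists_some {k : ℕ} {x : ℕ → G} (h : Lev k x) {u v : ℕ} (hu : u < k) (hv : v < k)
    (huv : u ≠ v) (s : Bool) :
    ∃ φ : Subgroup.zpowers (x u) ≃* Subgroup.zpowers (x v), LettOK k x _ _ φ (some (u, v, s)) := by
  obtain ⟨E, hE⟩ := exists_equiv (x u) (h.inf u hu) 1 (Or.inl rfl)
  obtain ⟨F, hF⟩ := exists_equiv (x v) (h.inf v hv) (bif s then 1 else -1)
    (by cases s <;> simp)
  refine ⟨E.symm.trans F, hu, hv, huv, rfl, rfl, ?_⟩
  intro a z ha
  have h1 : E.symm a = Multiplicative.ofAdd z := by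
    rw [MulEquiv.symm_apply_eq]
    apply Subtype.ext
    rw [hE, ha, one_mul]
  rw [MulEquiv.trans_apply, h1, hF]

theorem tauSpec (S : NumSys) {k : ℕ} (hk : 0 < k) {x : ℕ → G} (h : Lev k x)
    {mem : Tab → Word → ℕ → Tab × List Mark} (hm : MemSpec S.b k x mem) {A B : Subgroup G}
    {φ : A ≃* B} {d : Lett} (hd : LettOK k x A B φ d) :
    TauSpec S.b k x A B φ (assoc S mem d) := by
  intro T e w hT hw
  rcases d with _ | ⟨u, v, s⟩
  · obtain ⟨rfl, rfl⟩ := hd
    obtain ⟨e', hE, hr⟩ := hm T e w 0 hT hw hk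
    have key : (assoc S mem none true T w) = ((mem T w 0).1,
        bif !(mem T w 0).2.isEmpty && S.isZ (mem T w 0).1 ((mem T w 0).2.headD []) then
          [(true, [])] else []) := rfl
    have key' : (assoc S mem none false T w) = ((mem T w 0).1,
        bif !(mem T w 0).2.isEmpty && S.isZ (mem T w 0).1 ((mem T w 0).2.headD []) then
          [(true, [])] else []) := rfl
    have main : ((bif !(mem T w 0).2.isEmpty && S.isZ (mem T w 0).1 ((mem T w 0).2.headD []) then
          [(true, ([] : Word))] else []) = [] ∧ wv S.b e x w ≠ 1) ∨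
        ((bif !(mem T w 0).2.isEmpty && S.isZ (mem T w 0).1 ((mem T w 0).2.headD []) then
          [(true, ([] : Word))] else []) = [(true, [])] ∧ wv S.b e x w = 1) := by
      rcases hr with ⟨h1, h2⟩ | ⟨M, h1, h2, h3, h4⟩
      · left
        rw [h1]
        refine ⟨rfl, fun hc => h2 ?_⟩
        rw [hc]
        exact Subgroup.one_mem _
      · by_cases hz : S.isZ (mem T w 0).1 M = true
        · right
          rw [h1]
          simp only [List.isEmpty_cons, Bool.not_false, List.headD_cons, hz, Bool.and_self,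
            cond_true, true_and]
          rw [S.isZ_iff' hE.model h2 h3] at hz
          rw [h4, hz, zpow_zero]
        · left
          rw [h1]
          have hz' : S.isZ (mem T w 0).1 M = false := by simpa using hz
          simp only [List.isEmpty_cons, Bool.not_false, List.headD_cons, hz', Bool.and_false,
            cond_false, true_and]
          intro hc
          rw [h4] at hc
          exact hz ((S.isZ_iff' hE.model h2 h3).2 (h.inf 0 hk _ hc))
    constructor
    · rw [key]
      refine ⟨e', hE, ?_⟩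
      rcases main with ⟨h1, h2⟩ | ⟨h1, h2⟩
      · left
        exact ⟨h1, by rw [Subgroup.mem_bot]; exact h2⟩
      · right
        refine ⟨true, [], h1, WOk.nil, by rw [Subgroup.mem_bot]; exact h2, ?_, by simp [h2]⟩
        rw [wv_nil]
        exact (Subgroup.mem_bot.1 (φ ⟨wv S.b e x w, _⟩).2).symm
    · rw [key']
      refine ⟨e', hE, ?_⟩
      rcases main with ⟨h1, h2⟩ | ⟨h1, h2⟩
      · left
        exact ⟨h1, by rw [Subgroup.mem_bot]; exact h2⟩
      · right
        refine ⟨true, [], h1, WOk.nil, by rw [Subgroup.mem_bot]; exact h2, ?_, by simp [h2]⟩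
        rw [wv_nil]
        exact (Subgroup.mem_bot.1 (φ.symm ⟨wv S.b e x w, _⟩).2).symm
  · obtain ⟨hu, hv, huv, rfl, rfl, hφ⟩ := hd
    constructor
    · obtain ⟨e', hE, hr⟩ := hm T e w u hT hw hu
      have key : (assoc S mem (some (u, v, s)) true T w) = ((mem T w u).1,
        (mem T w u).2.map fun M => (S.isZ (mem T w u).1 M, [(v, smul s M)])) := rfl
      rw [key]
      refine ⟨e', hE, ?_⟩
      rcases hr with ⟨h1, h2⟩ | ⟨M, h1, h2, h3, h4⟩
      · left
        exact ⟨by simp [h1], h2⟩
      · right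
        refine ⟨_, _, by rw [h1]; rfl, WOk.single (by omega) (h2.smul s) (h3.smul s), ?_, ?_, ?_⟩
        · rw [h4]; exact Subgroup.zpow_mem_zpowers _ _
        · rw [wv_cons, wv_nil, mul_one, iv_smul s h3]
          exact (hφ _ _ h4).symm
        · rw [S.isZ_iff' hE.model h2 h3, h4]
          exact ⟨fun h => by rw [h, zpow_zero], fun h' => h.inf u hu _ h'⟩
    · obtain ⟨e', hE, hr⟩ := hm T e w v hT hw hv
      have key : (assoc S mem (some (u, v, s)) false T w) = ((mem T w v).1,
        (mem T w v).2.map fun M => (S.isZ (mem T w v).1 M, [(u, smul s M)])) := rfl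
      rw [key]
      refine ⟨e', hE, ?_⟩
      rcases hr with ⟨h1, h2⟩ | ⟨M, h1, h2, h3, h4⟩
      · left
        exact ⟨by simp [h1], h2⟩
      · right
        have hmem : wv S.b e x w ∈ Subgroup.zpowers (x v) := by
          rw [h4]; exact Subgroup.zpow_mem_zpowers _ _
        refine ⟨_, _, by rw [h1]; rfl, WOk.single (by omega) (h2.smul s) (h3.smul s), hmem, ?_, ?_⟩
        · rw [wv_cons, wv_nil, mul_one, iv_smul s h3]
          have h5 : φ ⟨x u ^ ((bif s then 1 else -1) * iv S.b e' M),
              Subgroup.zpow_mem_zpowers _ _⟩ = ⟨wv S.b e x w, hmem⟩ := by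
            apply Subtype.ext
            rw [hφ _ _ rfl]
            change _ = wv S.b e x w
            rw [h4, ← mul_assoc]
            cases s <;> simp
          rw [← h5, MulEquiv.symm_apply_apply]
        · rw [S.isZ_iff' hE.model h2 h3, h4]
          exact ⟨fun h => by rw [h, zpow_zero], fun h' => h.inf v hv _ h'⟩

end Pool.Agent.OR1
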