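import Pool.Agent.OR1.OneRel
import Pool.Agent.OR1.Tau
import Pool.Agent.OR1.Red

/-!
# The class of relators, and the correctness of the tests for it
-/

namespace Pool.Agent.OR1

open HNNExtension

/-- relators obtained from `t⁻¹ a t a ^ (-b)` by substitutions `y ↦ y⁻¹ x ^ (± 1) y` -/
inductive Rel (b : ℤ) {X : Type} [DecidableEq X] : FreeGroup X → Prop
  | base (a t : X) (h : a ≠ t) : Rel b (relBS a t b)
  | step (r : FreeGroup X) (x y : X) (s : Bool) (h : x ≠ y) : Rel b r → Rel b (subst x y s r)

/-- the description `D` belongs to the group `⟨X | R⟩`, `lam z` = number of the letter `z` -/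
def Pack (S : NumSys) {X : Type} (R : Set (FreeGroup X)) (Act : Set X) (D : List Lett)
    (lam : X → ℕ) : Prop :=
  Set.InjOn lam Act ∧ (∀ z ∈ Act, lam z < D.length + 2) ∧
  ∃ (G : Type) (_ : Group G) (x : ℕ → G) (Φ : PresentedGroup R ≃* G),
    (∀ z ∈ Act, Φ (PresentedGroup.of z) = x (lam z)) ∧ Lev (D.length + 2) x ∧
    MemSpec S.b (D.length + 2) x (memL S D)

theorem memL_spec (S : NumSys) {G : Type} [Group G] {D : List Lett} {x : ℕ → G}
    (h : Lev (D.length + 2) x) (hm : MemSpec S.b (D.length + 2) x (memL S D))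
    {A B : Subgroup G} {φ : A ≃* B} {d : Lett} (hd : LettOK (D.length + 2) x A B φ d) :
    Lev ((d :: D).length + 2) (nx φ (D.length + 2) x) ∧
    MemSpec S.b ((d :: D).length + 2) (nx φ (D.length + 2) x) (memL S (d :: D)) := by
  refine ⟨?_, ?_⟩
  · have : (d :: D).length + 2 = D.length + 2 + 1 := by simp
    rw [this]
    exact lev_next φ h
  · have : (d :: D).length + 2 = D.length + 2 + 1 := by simp
    rw [this]
    exact memS_spec S (by omega) h hm (tauSpec S (by omega) h hm hd) (hd.disjoint h)

theorem pack_init (S : NumSys) {X : Type} [DecidableEq X] {a t : X} (hat : a ≠ t) :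
    Pack S (relAct a t S.b {a, t}) {a, t} [] (fun z => if z = a then 0 else 1) := by
  refine ⟨?_, ?_, ?_⟩
  · intro z hz z' hz' h
    simp only [Set.mem_insert_iff, Set.mem_singleton_iff] at hz hz'
    rcases hz with rfl | rfl <;> rcases hz' with rfl | rfl
    · rfl
    · simp [hat.symm] at h
    · simp [hat.symm] at h
    · rfl
  · intro z _
    simp only [List.length_nil]
    split_ifs <;> omega
  · obtain ⟨Φ, h1, h2, _⟩ := onerel_init hat S.b
    refine ⟨G1 S.b, inferInstance, x1 S.b, Φ, ?_, lev1 S.hb, mem1_spec S⟩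
    intro z hz
    simp only [Set.mem_insert_iff, Set.mem_singleton_iff] at hz
    rcases hz with rfl | rfl
    · simp only [if_true]
      exact h1
    · simp only [if_neg hat.symm]
      exact h2

theorem pack_free (S : NumSys) {X : Type} [DecidableEq X] {a t : X} {Act : Set X}
    (ha : a ∈ Act) (ht : t ∈ Act) {z : X} (hz : z ∉ Act) {D : List Lett} {lam : X → ℕ}
    (h : Pack S (relAct a t S.b Act) Act D lam) :
    Pack S (relAct a t S.b (insert z Act)) (insert z Act) (none :: D)
      (Function.update lam z (D.length + 2)) := by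
  obtain ⟨hinj, hlt, G, _, x, Φ, hΦ, hlev, hmem⟩ := h
  have hne : ∀ z' ∈ Act, z' ≠ z := by
    rintro z' hz' rfl
    exact hz hz'
  refine ⟨?_, ?_, ?_⟩
  · intro z₁ h₁ z₂ h₂ h
    rcases Set.mem_insert_iff.1 h₁ with e₁ | h₁ <;> rcases Set.mem_insert_iff.1 h₂ with e₂ | h₂
    · rw [e₁, e₂]
    · rw [e₁, Function.update_self, Function.update_of_ne (hne _ h₂)] at h
      exact absurd h (hlt _ h₂).ne'
    · rw [e₂, Function.update_self, Function.update_of_ne (hne _ h₁)] at h
      exact absurd h (hlt _ h₁).ne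
    · rw [Function.update_of_ne (hne _ h₁), Function.update_of_ne (hne _ h₂)] at h
      exact hinj h₁ h₂ h
  · intro z' hz'
    simp only [List.length_cons]
    rcases Set.mem_insert_iff.1 hz' with rfl | hz'
    · rw [Function.update_self]
      omega
    · rw [Function.update_of_ne (hne _ hz')]
      have := hlt _ hz'
      omega
  · obtain ⟨Φ', h1, h2⟩ := onerel_free ha ht hz Φ (MulEquiv.refl (⊥ : Subgroup G)) rfl rfl
    have hs := memL_spec S hlev hmem (exists_none (D.length + 2) x)
    refine ⟨_, inferInstance, nx (MulEquiv.refl (⊥ : Subgroup G)) (D.length + 2) x, Φ', ?_, hs.1,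
      hs.2⟩
    intro z' hz'
    rcases Set.mem_insert_iff.1 hz' with rfl | hz'
    · rw [Function.update_self, nx_self]
      exact h2
    · rw [Function.update_of_ne (hne _ hz'), nx_lt _ _ (hlt _ hz'), h1 z' (hne _ hz'), hΦ z' hz']

theorem pack_step (S : NumSys) {X : Type} [DecidableEq X] {r : FreeGroup X} {x y : X}
    (hxy : x ≠ y) (s : Bool) {D : List Lett} {lam : X → ℕ}
    (h : Pack S {r} Set.univ D lam) :
    Pack S {subst x y s r} Set.univ (some (lam x, lam y, s) :: D)
      (Function.update lam y (D.length + 2)) := by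
  obtain ⟨hinj, hlt, G, _, x', Φ, hΦ, hlev, hmem⟩ := h
  have hlt' : ∀ z, lam z < D.length + 2 := fun z => hlt z (Set.mem_univ _)
  have hΦ' : ∀ z, Φ (PresentedGroup.of z) = x' (lam z) := fun z => hΦ z (Set.mem_univ _)
  refine ⟨?_, ?_, ?_⟩
  · intro z₁ _ z₂ _ h
    by_cases h₁ : z₁ = y <;> by_cases h₂ : z₂ = y
    · rw [h₁, h₂]
    · rw [h₁, Function.update_self, Function.update_of_ne h₂] at h
      exact absurd h (hlt' _).ne'
    · rw [h₂, Function.update_self, Function.update_of_ne h₁] at h
      exact absurd h (hlt' _).ne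
    · rw [Function.update_of_ne h₁, Function.update_of_ne h₂] at h
      exact hinj (Set.mem_univ _) (Set.mem_univ _) h
  · intro z _
    simp only [List.length_cons]
    by_cases hz : z = y
    · rw [hz, Function.update_self]
      omega
    · rw [Function.update_of_ne hz]
      have := hlt' z
      omega
  · have hne : lam x ≠ lam y := fun h => hxy (hinj (Set.mem_univ _) (Set.mem_univ _) h)
    obtain ⟨φ, hd⟩ := exists_some hlev (hlt' x) (hlt' y) hne s
    have hd' := hd
    obtain ⟨_, _, _, _, _, hφ⟩ := hd'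
    obtain ⟨Φ', h1, h2⟩ := onerel_step hxy s Φ φ (by rw [hΦ' x]) (by
      intro a z ha
      rw [hΦ' x] at ha
      rw [hΦ' y]
      exact hφ a z ha)
    have hs := memL_spec S hlev hmem hd
    refine ⟨_, inferInstance, nx φ (D.length + 2) x', Φ', ?_, hs.1, hs.2⟩
    intro z _
    by_cases hz : z = y
    · rw [hz, Function.update_self, nx_self]
      exact h2
    · rw [Function.update_of_ne hz, nx_lt _ _ (hlt' _), h1 z hz, hΦ' z]

theorem pack_rel (S : NumSys) {X : Type} [DecidableEq X] [Finite X] {r : FreeGroup X}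
    (hr : Rel S.b r) : ∃ (D : List Lett) (lam : X → ℕ), Pack S {r} Set.univ D lam := by
  induction hr with
  | base a t h =>
    have key : ∀ s : Finset X, ∃ (D : List Lett) (lam : X → ℕ),
        Pack S (relAct a t S.b ({a, t} ∪ ↑s)) ({a, t} ∪ ↑s) D lam := by
      intro s
      induction s using Finset.induction_on with
      | empty =>
        refine ⟨[], (fun z => if z = a then 0 else 1), ?_⟩
        rw [Finset.coe_empty, Set.union_empty]
        exact pack_init S h
      | insert z s _ ih =>
        obtain ⟨D, lam, hD⟩ := ih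
        have e : ({a, t} ∪ ↑(insert z s) : Set X) = insert z ({a, t} ∪ ↑s) := by
          rw [Finset.coe_insert, Set.union_insert]
        rw [e]
        by_cases hz : z ∈ ({a, t} ∪ ↑s : Set X)
        · rw [Set.insert_eq_of_mem hz]
          exact ⟨D, lam, hD⟩
        · have h1 : a ∈ ({a, t} ∪ ↑s : Set X) := Or.inl (Set.mem_insert _ _)
          have h2 : t ∈ ({a, t} ∪ ↑s : Set X) := Or.inl (Set.mem_insert_of_mem _ rfl)
          exact ⟨_, _, pack_free S h1 h2 hz hD⟩
    obtain ⟨D, lam, hD⟩ := key (Set.toFinite (Set.univ : Set X)).toFinset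
    have e : ({a, t} ∪ ↑(Set.toFinite (Set.univ : Set X)).toFinset : Set X) = Set.univ := by
      rw [Set.Finite.coe_toFinset, Set.union_univ]
    rw [e] at hD
    have e2 : relAct a t S.b (Set.univ : Set X) = {relBS a t S.b} := by
      unfold relAct
      ext w
      simp
    rw [e2] at hD
    exact ⟨D, lam, hD⟩
  | step r x y s h _ ih =>
    obtain ⟨D, lam, hD⟩ := ih
    exact ⟨_, _, pack_step S h s hD⟩

end Pool.Agent.OR1
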